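import Mathlib

/-!
# Case 3: alternating sort
-/

set_option autoImplicit false

namespace Pool.Agent.AMC

open Finset

/-- distinct integers in an interval of length `2 p`: every residue at most twice -/
private theorem AltSort_two (p q a : ℕ) [NeZero p] (f : Fin q → ℕ) (hf : Function.Injective f)
    (h1 : ∀ i, a ≤ f i) (h2 : ∀ i, f i < a + 2 * p) (y : ZMod p) :
    (univ.filter fun i => ((f i : ℕ) : ZMod p) = y).card ≤ 2 := by
  by_contra hcon
  push Not at hcon
  obtain ⟨i, hi, j, hj, k, hk, hij, hik, hjk⟩ := Finset.two_lt_card.1 hcon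
  simp only [Finset.mem_filter, Finset.mem_univ, true_and] at hi hj hk
  have key : ∀ u v : Fin q, u ≠ v → ((f u : ℕ) : ZMod p) = y → ((f v : ℕ) : ZMod p) = y →
      f u + p ≤ f v ∨ f v + p ≤ f u := by
    intro u v huv hu hv
    have hm : (f u : ℕ) ≡ f v [MOD p] := by
      rw [← ZMod.natCast_eq_natCast_iff, hu, hv]
    have hne : f u ≠ f v := fun h => huv (hf h)
    rcases lt_or_gt_of_ne hne with h | h
    · left
      have := Nat.le_of_dvd (by omega) ((Nat.modEq_iff_dvd' h.le).1 hm)
      omega
    · right
      have := Nat.le_of_dvd (by omega) ((Nat.modEq_iff_dvd' h.le).1 hm.symm)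
      omega
  have e1 := key i j hij hi hj
  have e2 := key i k hik hi hk
  have e3 := key j k hjk hj hk
  have a1 := h1 i
  have a2 := h1 j
  have a3 := h1 k
  have b1 := h2 i
  have b2 := h2 j
  have b3 := h2 k
  omega

/-- the sorted enumeration -/
private theorem AltSort_enum {R : Type*} [Fintype R] (q : ℕ) (hR : Fintype.card R = 2 * q)
    (w : R → ℕ) : ∃ G : Fin q ⊕ Fin q ≃ R,
      (∀ i, w (G (Sum.inl i)) ≤ w (G (Sum.inr i))) ∧
      (∀ i j, i < j → w (G (Sum.inl i)) ≤ w (G (Sum.inl j))) ∧
      (∀ i j, i < j → w (G (Sum.inr i)) ≤ w (G (Sum.inr j))) ∧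
      (∀ i j, i < j → w (G (Sum.inr i)) ≤ w (G (Sum.inl j))) := by
  classical
  let e : R ≃ Fin (2 * q) := Fintype.equivFinOfCardEq hR
  let f : Fin (2 * q) → ℕ := fun i => w (e.symm i)
  have hmono : Monotone (f ∘ Tuple.sort f) := Tuple.monotone_sort f
  let k : Fin q ⊕ Fin q → Fin (2 * q) :=
    Sum.elim (fun i => ⟨2 * i.val, by have := i.isLt; omega⟩)
      (fun i => ⟨2 * i.val + 1, by have := i.isLt; omega⟩)
  have hkinj : Function.Injective k := by
    rintro (i | i) (j | j) h
    · have := congrArg Fin.val h
      simp only [k, Sum.elim_inl] at this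
      rw [Fin.ext (by omega : i.val = j.val)]
    · have := congrArg Fin.val h
      simp only [k, Sum.elim_inl, Sum.elim_inr] at this
      omega
    · have := congrArg Fin.val h
      simp only [k, Sum.elim_inl, Sum.elim_inr] at this
      omega
    · have := congrArg Fin.val h
      simp only [k, Sum.elim_inr] at this
      rw [Fin.ext (by omega : i.val = j.val)]
  have hkbij : Function.Bijective k := by
    rw [Fintype.bijective_iff_injective_and_card]
    refine ⟨hkinj, ?_⟩
    simp only [Fintype.card_sum, Fintype.card_fin]
    omega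
  refine ⟨(Equiv.ofBijective k hkbij).trans ((Tuple.sort f).trans e.symm), ?_, ?_, ?_, ?_⟩
  · intro i
    refine hmono (a := k (Sum.inl i)) (b := k (Sum.inr i)) ?_
    rw [Fin.le_def]
    simp only [k, Sum.elim_inl, Sum.elim_inr]
    omega
  · intro i j hij
    refine hmono (a := k (Sum.inl i)) (b := k (Sum.inl j)) ?_
    rw [Fin.lt_def] at hij
    rw [Fin.le_def]
    simp only [k, Sum.elim_inl]
    omega
  · intro i j hij
    refine hmono (a := k (Sum.inr i)) (b := k (Sum.inr j)) ?_
    rw [Fin.lt_def] at hij
    rw [Fin.le_def]
    simp only [k, Sum.elim_inr]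
    omega
  · intro i j hij
    refine hmono (a := k (Sum.inr i)) (b := k (Sum.inl j)) ?_
    rw [Fin.lt_def] at hij
    rw [Fin.le_def]
    simp only [k, Sum.elim_inl, Sum.elim_inr]
    omega

private theorem AltSort_split {R : Type*} [Fintype R] [DecidableEq R] (q : ℕ)
    (G : Fin q ⊕ Fin q ≃ R) (P : R → Prop) [DecidablePred P] :
    (univ.filter P).card ≤ (univ.filter fun i => P (G (Sum.inl i))).card +
      (univ.filter fun i => P (G (Sum.inr i))).card := by
  have hsub : univ.filter P ⊆ ((univ.filter fun i => P (G (Sum.inl i))).image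
      fun i => G (Sum.inl i)) ∪ ((univ.filter fun i => P (G (Sum.inr i))).image
      fun i => G (Sum.inr i)) := by
    intro v hv
    rw [Finset.mem_filter] at hv
    rw [Finset.mem_union, Finset.mem_image, Finset.mem_image]
    rcases h : G.symm v with i | i
    · have hi : G (Sum.inl i) = v := by rw [← h, Equiv.apply_symm_apply]
      left
      refine ⟨i, ?_, hi⟩
      rw [Finset.mem_filter, hi]
      exact ⟨Finset.mem_univ _, hv.2⟩
    · have hi : G (Sum.inr i) = v := by rw [← h, Equiv.apply_symm_apply]
      right
      refine ⟨i, ?_, hi⟩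
      rw [Finset.mem_filter, hi]
      exact ⟨Finset.mem_univ _, hv.2⟩
  refine (Finset.card_le_card hsub).trans ((Finset.card_union_le _ _).trans ?_)
  exact Nat.add_le_add Finset.card_image_le Finset.card_image_le

/-- Alternating sort. `2 q` vertices with partial sums `π`; `A` (low) and `B` (high) sets of `q` labels,
below and above the block of the `N` labels `lo, ..., lo + N - 1`, everything in an interval of length
`len`. Sort the vertices by `(π v).val`; the vertices at odd places get the labels of `A`, the ones
at even places the labels of `B`, both in increasing order. The integers `(π v).val + b v` are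
strictly increasing on both classes: multiplicities `≤ 2 + 2`. For `s : ZMod p` let `J` be the
residues `s - (block)`, an interval of `N` residues. If the `i`-th low and the `i`-th high vertex both have
`π v + b v ∈ J` then (difference of the labels `> N`) the difference of their values `(π v).val`
is `> p - N - len ≥ p / 2`, which happens for at most one `i`. -/
theorem altsort {R : Type*} [Fintype R] [DecidableEq R] (p : ℕ) [NeZero p] (π : R → ZMod p)
    (q N lo lo0 len : ℕ) (hR : Fintype.card R = 2 * q) (A B : Finset ℕ) (hA : A.card = q)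
    (hB : B.card = q) (hA1 : ∀ a ∈ A, lo0 ≤ a ∧ a < lo) (hB1 : ∀ b ∈ B, lo + N ≤ b ∧ b < lo0 + len)
    (hp : 2 * (N + len) < p) :
    ∃ b : R → ℕ, Function.Injective b ∧ (univ.image b = A ∪ B) ∧
      (∀ y : ZMod p, (univ.filter fun v => π v + (b v : ZMod p) = y).card ≤ 4) ∧
      ∀ s : ZMod p, (open Classical in (univ.filter fun v => ∃ x : ℕ, lo ≤ x ∧ x < lo + N ∧
        π v + (b v : ZMod p) + (x : ZMod p) = s).card) ≤ q + 1 := by
  classical
  obtain ⟨G, hG1, hG2, hG3, hG4⟩ := AltSort_enum q hR (fun v => (π v).val)
  let α : Fin q ↪o ℕ := A.orderEmbOfFin hA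
  let β : Fin q ↪o ℕ := B.orderEmbOfFin hB
  have hα : ∀ i, lo0 ≤ α i ∧ α i < lo := fun i => hA1 _ (Finset.orderEmbOfFin_mem A hA i)
  have hβ : ∀ i, lo + N ≤ β i ∧ β i < lo0 + len :=
    fun i => hB1 _ (Finset.orderEmbOfFin_mem B hB i)
  let lab : Fin q ⊕ Fin q → ℕ := Sum.elim α β
  have hlabinj : Function.Injective lab := by
    refine Function.Injective.sumElim α.injective β.injective ?_
    intro i j h
    have h1 := hα i
    have h2 := hβ j
    omega
  have hbl : ∀ i, lab (G.symm (G (Sum.inl i))) = α i := fun i => by
    rw [Equiv.symm_apply_apply]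
    rfl
  have hbr : ∀ i, lab (G.symm (G (Sum.inr i))) = β i := fun i => by
    rw [Equiv.symm_apply_apply]
    rfl
  have hpval : ∀ v : R, (((π v).val : ℕ) : ZMod p) = π v := fun v => ZMod.natCast_zmod_val (π v)
  have hvlt : ∀ v : R, (π v).val < p := fun v => ZMod.val_lt (π v)
  refine ⟨fun v => lab (G.symm v), hlabinj.comp G.symm.injective, ?_, ?_, ?_⟩
  · ext x
    rw [Finset.mem_image, Finset.mem_union]
    constructor
    · rintro ⟨v, -, hv⟩
      rcases h : G.symm v with i | i
      · left
        rw [← hv, h]
        exact Finset.orderEmbOfFin_mem A hA i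
      · right
        rw [← hv, h]
        exact Finset.orderEmbOfFin_mem B hB i
    · rintro (hx | hx)
      · have : x ∈ Set.range (A.orderEmbOfFin hA) := by
          rw [Finset.range_orderEmbOfFin]
          exact hx
        obtain ⟨i, hi⟩ := this
        exact ⟨G (Sum.inl i), Finset.mem_univ _, (hbl i).trans hi⟩
      · have : x ∈ Set.range (B.orderEmbOfFin hB) := by
          rw [Finset.range_orderEmbOfFin]
          exact hx
        obtain ⟨i, hi⟩ := this
        exact ⟨G (Sum.inr i), Finset.mem_univ _, (hbr i).trans hi⟩
  · intro y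
    refine (AltSort_split q G (fun v => π v + ((lab (G.symm v) : ℕ) : ZMod p) = y)).trans ?_
    have h1 : (univ.filter fun i => π (G (Sum.inl i)) +
        ((lab (G.symm (G (Sum.inl i))) : ℕ) : ZMod p) = y).card ≤ 2 := by
      have := AltSort_two p q lo0 (fun i => (π (G (Sum.inl i))).val + α i) (by
        intro i j h
        simp only at h
        by_contra hne
        rcases lt_or_gt_of_ne hne with h' | h'
        · have e1 := hG2 i j h'
          have e2 : α i < α j := α.lt_iff_lt.2 h'
          omega
        · have e1 := hG2 j i h'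
          have e2 : α j < α i := α.lt_iff_lt.2 h'
          omega) (fun i => by
            have := (hα i).1
            omega) (fun i => by
            have e1 := (hα i).2
            have e2 := (hβ i)
            have e3 := hvlt (G (Sum.inl i))
            omega) y
      refine le_trans (le_of_eq ?_) this
      congr 1
      ext i
      simp only [Finset.mem_filter, Finset.mem_univ, true_and]
      rw [hbl, Nat.cast_add, hpval]
    have h2 : (univ.filter fun i => π (G (Sum.inr i)) +
        ((lab (G.symm (G (Sum.inr i))) : ℕ) : ZMod p) = y).card ≤ 2 := by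
      have := AltSort_two p q lo0 (fun i => (π (G (Sum.inr i))).val + β i) (by
        intro i j h
        simp only at h
        by_contra hne
        rcases lt_or_gt_of_ne hne with h' | h'
        · have e1 := hG3 i j h'
          have e2 : β i < β j := β.lt_iff_lt.2 h'
          omega
        · have e1 := hG3 j i h'
          have e2 : β j < β i := β.lt_iff_lt.2 h'
          omega) (fun i => by
            have e1 := (hα i)
            have e2 := (hβ i)
            omega) (fun i => by
            have e2 := (hβ i)
            have e3 := hvlt (G (Sum.inr i))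
            omega) y
      refine le_trans (le_of_eq ?_) this
      congr 1
      ext i
      simp only [Finset.mem_filter, Finset.mem_univ, true_and]
      rw [hbr, Nat.cast_add, hpval]
    omega
  · intro s
    refine (AltSort_split q G (fun v => ∃ x : ℕ, lo ≤ x ∧ x < lo + N ∧
        π v + ((lab (G.symm v) : ℕ) : ZMod p) + (x : ZMod p) = s)).trans ?_
    set U := univ.filter fun i => ∃ x : ℕ, lo ≤ x ∧ x < lo + N ∧
        π (G (Sum.inl i)) + ((lab (G.symm (G (Sum.inl i))) : ℕ) : ZMod p) + (x : ZMod p) = s
      with hU
    set V := univ.filter fun i => ∃ x : ℕ, lo ≤ x ∧ x < lo + N ∧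
        π (G (Sum.inr i)) + ((lab (G.symm (G (Sum.inr i))) : ℕ) : ZMod p) + (x : ZMod p) = s
      with hV
    have hUV : (U ∪ V).card ≤ q := by
      have := Finset.card_le_univ (U ∪ V)
      rwa [Fintype.card_fin] at this
    have hkey : ∀ i ∈ U ∩ V, (π (G (Sum.inl i))).val < N + len ∧
        p < (π (G (Sum.inr i))).val + N + len := by
      intro i hi
      rw [Finset.mem_inter, hU, hV, Finset.mem_filter, Finset.mem_filter] at hi
      obtain ⟨⟨-, x, hx1, hx2, hx3⟩, ⟨-, x', hx1', hx2', hx3'⟩⟩ := hi
      rw [hbl] at hx3
      rw [hbr] at hx3'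
      have hm : (π (G (Sum.inl i))).val + α i + x ≡ (π (G (Sum.inr i))).val + β i + x' [MOD p] := by
        rw [← ZMod.natCast_eq_natCast_iff]
        push_cast
        rw [hpval, hpval, hx3, hx3']
      have e1 := hG1 i
      have e2 := hα i
      have e3 := hβ i
      have e4 := hvlt (G (Sum.inr i))
      have hlt : (π (G (Sum.inl i))).val + α i + x < (π (G (Sum.inr i))).val + β i + x' := by
        omega
      have := Nat.le_of_dvd (by omega) ((Nat.modEq_iff_dvd' hlt.le).1 hm)
      omega
    have hI : (U ∩ V).card ≤ 1 := by
      rw [Finset.card_le_one]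
      intro i hi j hj
      by_contra hne
      have e1 := hkey i hi
      have e2 := hkey j hj
      rcases lt_or_gt_of_ne hne with h | h
      · have := hG4 i j h
        omega
      · have := hG4 j i h
        omega
    have := Finset.card_union_add_card_inter U V
    omega

end Pool.Agent.AMC
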