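import Pool.Agent.AMF.Defs

/-!
# Case 3: configurations

`Q`: slot vertices; `v ∈ Q` has the slot `v - hb (fi v)` and the last background edge `v - hb (yi v)`. `Tn`:
tuned vertices; `v ∈ Tn` has the tune edge `v - f v`. Hubs `hb i`, special vertices `sA i`, `sB i`
(`i < h`), special edges `hb i - sA i`, `hb i - sB i`. Vertices of `Q` and special vertices are adjacent to
hubs only.
-/

set_option autoImplicit false
set_option linter.unusedSectionVars false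
set_option linter.unusedVariables false

namespace Pool.Agent.AMC

open Finset Pool.Agent.AMF

variable {W : Type} [Fintype W] [DecidableEq W]

/-- A configuration. -/
structure Cfg (E : Finset (Sym2 W)) (Q Tn : Finset W) (h : ℕ) (hb sA sB : ℕ → W)
    (fi yi : W → ℕ) (f : W → W) (dp : W → ℕ) : Prop where
  nd : ∀ e ∈ E, ¬ e.IsDiag
  cov : ∀ w, w ∈ Q ∨ w ∈ Tn ∨ ∃ i < h, w = hb i ∨ w = sA i ∨ w = sB i
  QT : Disjoint Q Tn
  hb_inj : ∀ i < h, ∀ j < h, hb i = hb j → i = j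
  sA_inj : ∀ i < h, ∀ j < h, sA i = sA j → i = j
  sB_inj : ∀ i < h, ∀ j < h, sB i = sB j → i = j
  hb_not : ∀ i < h, hb i ∉ Q ∧ hb i ∉ Tn
  sA_not : ∀ i < h, sA i ∉ Q ∧ sA i ∉ Tn
  sB_not : ∀ i < h, sB i ∉ Q ∧ sB i ∉ Tn
  hb_ne_sA : ∀ i < h, ∀ j < h, hb i ≠ sA j
  hb_ne_sB : ∀ i < h, ∀ j < h, hb i ≠ sB j
  sA_ne_sB : ∀ i < h, ∀ j < h, sA i ≠ sB j
  fi_lt : ∀ v ∈ Q, fi v < h
  yi_lt : ∀ v ∈ Q, yi v < h
  fy : ∀ v ∈ Q, fi v ≠ yi v
  fE : ∀ v ∈ Q, s(v, hb (fi v)) ∈ E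
  yE : ∀ v ∈ Q, s(v, hb (yi v)) ∈ E
  nb : ∀ e ∈ E, ∀ v ∈ e, (v ∈ Q ∨ ∃ i < h, v = sA i ∨ v = sB i) → ∀ w ∈ e, w ≠ v →
    ∃ j < h, w = hb j
  AE : ∀ i < h, s(hb i, sA i) ∈ E
  BE : ∀ i < h, s(hb i, sB i) ∈ E
  TE : ∀ v ∈ Tn, s(v, f v) ∈ E
  Tf : ∀ v ∈ Tn, f v ∈ Tn ∨ ∃ j < h, f v = hb j
  Td : ∀ v ∈ Tn, f v ∈ Tn → dp (f v) < dp v
  even : ∀ i, Even (Q.filter fun v => fi v = i).card

/-- the slots -/
def E1 (Q : Finset W) (hb : ℕ → W) (fi : W → ℕ) : Finset (Sym2 W) := Q.image fun v => s(v, hb (fi v))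

/-- the last background edges -/
def E2 (Q : Finset W) (hb : ℕ → W) (yi : W → ℕ) : Finset (Sym2 W) := Q.image fun v => s(v, hb (yi v))

/-- the special edges -/
def E3 (h : ℕ) (hb sA sB : ℕ → W) : Finset (Sym2 W) :=
  ((range h).image fun i => s(hb i, sA i)) ∪ (range h).image fun i => s(hb i, sB i)

/-- the tune edges -/
def E4 (Tn : Finset W) (f : W → W) : Finset (Sym2 W) := Tn.image fun v => s(v, f v)

/-- the tune edges and the other edges -/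
def E04 (E : Finset (Sym2 W)) (Q : Finset W) (h : ℕ) (hb sA sB : ℕ → W) (fi yi : W → ℕ) :
    Finset (Sym2 W) := E \ (E1 Q hb fi ∪ E2 Q hb yi ∪ E3 h hb sA sB)

end Pool.Agent.AMC
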