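import Mathlib

/-!
# Case 3: linked special edges
-/

set_option autoImplicit false

namespace Pool.Agent.AMC

open Finset

private lemma Links_cast {p : ℕ} {x y : ℕ} (h1 : x < y + p) (h2 : y < x + p)
    (h : (x : ZMod p) = (y : ZMod p)) : x = y := by
  have h3 : x ≡ y [MOD p] := (ZMod.natCast_eq_natCast_iff _ _ _).1 h
  refine Nat.ModEq.eq_of_abs_lt h3 ?_
  rw [abs_lt]
  constructor <;> omega

private lemma Links_pick (Mid : Finset ℕ) (L : List (Finset ℕ))
    (h : (L.map Finset.card).sum < Mid.card) : ∃ x ∈ Mid, ∀ B ∈ L, x ∉ B := by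
  classical
  have h1 : ∀ L : List (Finset ℕ), (L.foldr (· ∪ ·) ∅).card ≤ (L.map Finset.card).sum := by
    intro L
    induction L with
    | nil => simp
    | cons B L ih =>
      simp only [List.foldr_cons, List.map_cons, List.sum_cons]
      exact (Finset.card_union_le _ _).trans (Nat.add_le_add_left ih _)
  have h2 : ∀ L : List (Finset ℕ), ∀ B ∈ L, B ⊆ L.foldr (· ∪ ·) ∅ := by
    intro L
    induction L with
    | nil => intro B hB; exact absurd hB (by simp)
    | cons C L ih =>
      intro B hB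
      simp only [List.foldr_cons]
      rcases List.mem_cons.1 hB with h | h
      · rw [h]; exact Finset.subset_union_left
      · exact (ih B h).trans Finset.subset_union_right
  obtain ⟨x, hx, hxU⟩ := Finset.exists_mem_notMem_of_card_lt_card (lt_of_le_of_lt (h1 L) h)
  exact ⟨x, hx, fun B hB hxB => hxU (h2 L B hB hxB)⟩

private lemma Links_fib {p : ℕ} (Mid : Finset ℕ) (φ : ℕ → ZMod p)
    (hφ : ∀ x ∈ Mid, ∀ y ∈ Mid, φ x = φ y → x = y) (Z : Finset (ZMod p)) :
    (Mid.filter fun x => φ x ∈ Z).card ≤ Z.card := by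
  classical
  refine Finset.card_le_card_of_injOn φ ?_ ?_
  · intro x hx
    exact (Finset.mem_filter.1 (Finset.mem_coe.1 hx)).2
  · intro x hx y hy hxy
    exact hφ x (Finset.mem_filter.1 (Finset.mem_coe.1 hx)).1 y
      (Finset.mem_filter.1 (Finset.mem_coe.1 hy)).1 hxy

/-- the sums -/
private def LS {p : ℕ} (h : ℕ) (κ u w : ℕ → ZMod p) (σ : ℕ) (a : ℕ → ℕ) (i : ℕ) :
    Fin 3 → ZMod p
  | 0 => κ i + (a ((i + 1) % h) : ZMod p) + (σ : ZMod p) - (a i : ZMod p)
  | 1 => u i + (a ((i + 1) % h) : ZMod p)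
  | 2 => w i + (σ : ZMod p) - (a i : ZMod p)

/-- the sum is finished after `t` choices -/
private def LF (h t i : ℕ) (k : Fin 3) : Prop :=
  i < h ∧ (k ≠ 2 → (i + 1) % h < t) ∧ (k ≠ 1 → i < t)

private lemma LS_congr {p : ℕ} {h : ℕ} {κ u w : ℕ → ZMod p} {σ : ℕ} {a a' : ℕ → ℕ} {t i : ℕ}
    {k : Fin 3} (hf : LF h t i k) (haa : ∀ j < t, a' j = a j) :
    LS h κ u w σ a' i k = LS h κ u w σ a i k := by
  obtain ⟨-, h1, h2⟩ := hf
  fin_cases k
  · simp only [LS]
    rw [haa _ (h1 (by decide)), haa _ (h2 (by decide))]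
  · simp only [LS]
    rw [haa _ (h1 (by decide))]
  · simp only [LS]
    rw [haa _ (h2 (by decide))]

private structure LInv (p : ℕ) (h : ℕ) (κ u w : ℕ → ZMod p) (σ lo N : ℕ) (Y : Finset (ZMod p))
    (t : ℕ) (a : ℕ → ℕ) : Prop where
  rng : ∀ i < t, lo ≤ a i ∧ a i < lo + N
  inj : ∀ i < t, ∀ j < t, a i = a j → i = j
  sum : ∀ i < t, ∀ j < t, a i + a j ≠ σ
  out : ∀ i k, LF h t i k → LS h κ u w σ a i k ∉ Y
  dis : ∀ i k j k', LF h t i k → LF h t j k' → LS h κ u w σ a i k = LS h κ u w σ a j k' →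
    i = j ∧ k = k'
  look : ∀ i < t, i + 1 < h → κ i + (σ : ZMod p) - (a i : ZMod p) ≠ u i
  fst : 0 < t → κ (h - 1) + (a 0 : ZMod p) ≠ w (h - 1)

private lemma Links_succmod {h i : ℕ} (hi : i < h) :
    (i + 1) % h = if i + 1 < h then i + 1 else 0 := by
  by_cases h1 : i + 1 < h
  · rw [if_pos h1, Nat.mod_eq_of_lt h1]
  · have h2 : i + 1 = h := by omega
    rw [if_neg h1, h2, Nat.mod_self]

private lemma Links_step (p : ℕ) [NeZero p] (h : ℕ) (hh : 2 ≤ h) (κ u w : ℕ → ZMod p)
    (σ lo N : ℕ) (hN : 0 < N) (hp : 2 * N ≤ p) (Y : Finset (ZMod p))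
    (hc : 30 * h + 4 * Y.card + 30 ≤ N) (t : ℕ) (ht : t < h) (a : ℕ → ℕ)
    (I : LInv p h κ u w σ lo N Y t a) : ∃ a', LInv p h κ u w σ lo N Y (t + 1) a' := by
  classical
  set Mid : Finset ℕ := Finset.Ico lo (lo + N) with hMid
  have hmid : ∀ x ∈ Mid, lo ≤ x ∧ x < lo + N := fun x hx => Finset.mem_Ico.1 hx
  set Z : Finset (ZMod p) := Y ∪ (Finset.range h ×ˢ (Finset.univ : Finset (Fin 3))).image
    (fun q => LS h κ u w σ a q.1 q.2) with hZ
  have hZc : Z.card ≤ Y.card + 3 * h := by
    refine (Finset.card_union_le _ _).trans (Nat.add_le_add_left ?_ _)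
    refine Finset.card_image_le.trans ?_
    rw [Finset.card_product, Finset.card_range, Finset.card_univ, Fintype.card_fin]
    omega
  have hZY : ∀ z, z ∈ Y → z ∈ Z := fun z hz => Finset.mem_union_left _ hz
  have hZS : ∀ i k, i < h → LS h κ u w σ a i k ∈ Z := fun i k hi =>
    Finset.mem_union_right _ (Finset.mem_image.2 ⟨(i, k), Finset.mem_product.2
      ⟨Finset.mem_range.2 hi, Finset.mem_univ _⟩, rfl⟩)
  obtain ⟨pt, hpt, hpt1, hpt2⟩ : ∃ pt, pt < h ∧ (pt + 1) % h = t ∧ (1 ≤ t → pt + 1 = t) := by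
    by_cases h0 : t = 0
    · refine ⟨h - 1, by omega, ?_, by omega⟩
      rw [h0, Nat.sub_add_cancel (by omega), Nat.mod_self]
    · exact ⟨t - 1, by omega, by rw [Nat.sub_add_cancel (by omega), Nat.mod_eq_of_lt ht],
        fun _ => by omega⟩
  set cm2 : ZMod p := w t + (σ : ZMod p) with hcm2
  set cm0 : ZMod p := κ t + (a 0 : ZMod p) + (σ : ZMod p) with hcm0
  set cp1 : ZMod p := u pt with hcp1
  set cp0 : ZMod p := κ pt + (σ : ZMod p) - (a pt : ZMod p) with hcp0
  -- injectivity facts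
  have hneg : ∀ c : ZMod p, ∀ x ∈ Mid, ∀ y ∈ Mid, c - (x : ZMod p) = c - (y : ZMod p) → x = y := by
    intro c x hx y hy hxy
    have h1 := hmid x hx
    have h2 := hmid y hy
    exact Links_cast (by omega) (by omega) (sub_right_inj.1 hxy)
  have hpos : ∀ c : ZMod p, ∀ x ∈ Mid, ∀ y ∈ Mid, c + (x : ZMod p) = c + (y : ZMod p) → x = y := by
    intro c x hx y hy hxy
    have h1 := hmid x hx
    have h2 := hmid y hy
    exact Links_cast (by omega) (by omega) (add_left_cancel hxy)
  have hmix : ∀ c d : ZMod p,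
      (Mid.filter fun x : ℕ => c - (x : ZMod p) = d + (x : ZMod p)).card ≤ 1 := by
    intro c d
    rw [Finset.card_le_one]
    intro x hx y hy
    obtain ⟨hx1, hx2⟩ := Finset.mem_filter.1 hx
    obtain ⟨hy1, hy2⟩ := Finset.mem_filter.1 hy
    have h1 := hmid x hx1
    have h2 := hmid y hy1
    have h3 : (((2 * x : ℕ)) : ZMod p) = ((2 * y : ℕ) : ZMod p) := by
      push_cast
      linear_combination hy2 - hx2
    have h4 := Links_cast (p := p) (by omega) (by omega) h3
    omega
  have hlk : (Mid.filter fun x : ℕ => κ t + (σ : ZMod p) - (x : ZMod p) = u t).card ≤ 1 := by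
    have := Links_fib Mid (fun x : ℕ => κ t + (σ : ZMod p) - (x : ZMod p)) (hneg _) {u t}
    simpa using this
  have hf0 : (Mid.filter fun x : ℕ => κ (h - 1) + (x : ZMod p) = w (h - 1)).card ≤ 1 := by
    have := Links_fib Mid (fun x : ℕ => κ (h - 1) + (x : ZMod p)) (hpos _) {w (h - 1)}
    simpa using this
  have hdb : (Mid.filter fun x : ℕ => x + x = σ).card ≤ 1 := by
    rw [Finset.card_le_one]
    intro x hx y hy
    have := (Finset.mem_filter.1 hx).2
    have := (Finset.mem_filter.1 hy).2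
    omega
  have hB1 : ((Finset.range t).image a).card ≤ h := by
    refine Finset.card_image_le.trans ?_
    rw [Finset.card_range]; omega
  have hB2 : ((Finset.range t).image fun i => σ - a i).card ≤ h := by
    refine Finset.card_image_le.trans ?_
    rw [Finset.card_range]; omega
  have hB4 := Links_fib Mid (fun x : ℕ => cm2 - (x : ZMod p)) (hneg _) Z
  have hB5 := Links_fib Mid (fun x : ℕ => cm0 - (x : ZMod p)) (hneg _) Z
  have hB6 := Links_fib Mid (fun x : ℕ => cp1 + (x : ZMod p)) (hpos _) Z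
  have hB7 := Links_fib Mid (fun x : ℕ => cp0 + (x : ZMod p)) (hpos _) Z
  obtain ⟨x, hxM, hx⟩ := Links_pick Mid
    [(Finset.range t).image a, (Finset.range t).image fun i => σ - a i,
      Mid.filter fun x : ℕ => x + x = σ,
      Mid.filter fun x : ℕ => cm2 - (x : ZMod p) ∈ Z,
      Mid.filter fun x : ℕ => cm0 - (x : ZMod p) ∈ Z,
      Mid.filter fun x : ℕ => cp1 + (x : ZMod p) ∈ Z,
      Mid.filter fun x : ℕ => cp0 + (x : ZMod p) ∈ Z,
      Mid.filter fun x : ℕ => cm2 - (x : ZMod p) = cp1 + (x : ZMod p),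
      Mid.filter fun x : ℕ => cm2 - (x : ZMod p) = cp0 + (x : ZMod p),
      Mid.filter fun x : ℕ => cm0 - (x : ZMod p) = cp1 + (x : ZMod p),
      Mid.filter fun x : ℕ => cm0 - (x : ZMod p) = cp0 + (x : ZMod p),
      Mid.filter fun x : ℕ => κ t + (σ : ZMod p) - (x : ZMod p) = u t,
      Mid.filter fun x : ℕ => κ (h - 1) + (x : ZMod p) = w (h - 1)] (by
    have h1 := hmix cm2 cp1
    have h2 := hmix cm2 cp0
    have h3 := hmix cm0 cp1
    have h4 := hmix cm0 cp0
    have h5 : Mid.card = N := by rw [hMid, Nat.card_Ico]; omega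
    simp only [List.map_cons, List.map_nil, List.sum_cons, List.sum_nil, h5]
    omega)
  have hx1 : ∀ i < t, x ≠ a i := fun i hi he => hx _ (by simp) (Finset.mem_image.2
    ⟨i, Finset.mem_range.2 hi, he.symm⟩ : x ∈ (Finset.range t).image a)
  have hx2 : ∀ i < t, x + a i ≠ σ := fun i hi he => hx _ (by simp) (Finset.mem_image.2
    ⟨i, Finset.mem_range.2 hi, by omega⟩ : x ∈ (Finset.range t).image fun i => σ - a i)
  have hx3 : x + x ≠ σ := fun he => hx _ (by simp) (Finset.mem_filter.2 ⟨hxM, he⟩ :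
    x ∈ Mid.filter fun x : ℕ => x + x = σ)
  have hx4 : cm2 - (x : ZMod p) ∉ Z := fun he => hx _ (by simp) (Finset.mem_filter.2 ⟨hxM, he⟩ :
    x ∈ Mid.filter fun x : ℕ => cm2 - (x : ZMod p) ∈ Z)
  have hx5 : cm0 - (x : ZMod p) ∉ Z := fun he => hx _ (by simp) (Finset.mem_filter.2 ⟨hxM, he⟩ :
    x ∈ Mid.filter fun x : ℕ => cm0 - (x : ZMod p) ∈ Z)
  have hx6 : cp1 + (x : ZMod p) ∉ Z := fun he => hx _ (by simp) (Finset.mem_filter.2 ⟨hxM, he⟩ :
    x ∈ Mid.filter fun x : ℕ => cp1 + (x : ZMod p) ∈ Z)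
  have hx7 : cp0 + (x : ZMod p) ∉ Z := fun he => hx _ (by simp) (Finset.mem_filter.2 ⟨hxM, he⟩ :
    x ∈ Mid.filter fun x : ℕ => cp0 + (x : ZMod p) ∈ Z)
  have hx8 : cm2 - (x : ZMod p) ≠ cp1 + (x : ZMod p) := fun he => hx _ (by simp)
    (Finset.mem_filter.2 ⟨hxM, he⟩ :
      x ∈ Mid.filter fun x : ℕ => cm2 - (x : ZMod p) = cp1 + (x : ZMod p))
  have hx9 : cm2 - (x : ZMod p) ≠ cp0 + (x : ZMod p) := fun he => hx _ (by simp)
    (Finset.mem_filter.2 ⟨hxM, he⟩ :
      x ∈ Mid.filter fun x : ℕ => cm2 - (x : ZMod p) = cp0 + (x : ZMod p))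
  have hx10 : cm0 - (x : ZMod p) ≠ cp1 + (x : ZMod p) := fun he => hx _ (by simp)
    (Finset.mem_filter.2 ⟨hxM, he⟩ :
      x ∈ Mid.filter fun x : ℕ => cm0 - (x : ZMod p) = cp1 + (x : ZMod p))
  have hx11 : cm0 - (x : ZMod p) ≠ cp0 + (x : ZMod p) := fun he => hx _ (by simp)
    (Finset.mem_filter.2 ⟨hxM, he⟩ :
      x ∈ Mid.filter fun x : ℕ => cm0 - (x : ZMod p) = cp0 + (x : ZMod p))
  have hx12 : κ t + (σ : ZMod p) - (x : ZMod p) ≠ u t := fun he => hx _ (by simp)
    (Finset.mem_filter.2 ⟨hxM, he⟩ :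
      x ∈ Mid.filter fun x : ℕ => κ t + (σ : ZMod p) - (x : ZMod p) = u t)
  have hx13 : κ (h - 1) + (x : ZMod p) ≠ w (h - 1) := fun he => hx _ (by simp)
    (Finset.mem_filter.2 ⟨hxM, he⟩ :
      x ∈ Mid.filter fun x : ℕ => κ (h - 1) + (x : ZMod p) = w (h - 1))
  set a' : ℕ → ℕ := Function.update a t x with ha'
  have hat : a' t = x := Function.update_self _ _ _
  have hao : ∀ j, j ≠ t → a' j = a j := fun j hj => Function.update_of_ne hj _ _
  have hal : ∀ j < t, a' j = a j := fun j hj => hao j (by omega)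
  -- the classification of the finished sums
  have hcl : ∀ i k, LF h (t + 1) i k → LF h t i k ∨ (i = t ∧ k = 2) ∨ (i = t ∧ k = 0 ∧ t + 1 = h) ∨
      (i = pt ∧ k = 1) ∨ (i = pt ∧ k = 0 ∧ 1 ≤ t) := by
    rintro i k ⟨h1, h2, h3⟩
    have hip : (i + 1) % h = t → i = pt := by
      intro he
      rw [← hpt1, Links_succmod h1, Links_succmod hpt] at he
      split_ifs at he <;> omega
    fin_cases k
    · have h4 := h2 (by decide)
      have h5 := h3 (by decide)
      by_cases h6 : i = t
      · right; right; left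
        refine ⟨h6, rfl, ?_⟩
        rw [h6, Links_succmod ht] at h4
        split_ifs at h4 <;> omega
      · by_cases h7 : (i + 1) % h = t
        · right; right; right; right
          exact ⟨hip h7, rfl, by omega⟩
        · left
          exact ⟨h1, fun _ => by omega, fun _ => by omega⟩
    · have h4 := h2 (by decide)
      by_cases h7 : (i + 1) % h = t
      · right; right; right; left
        exact ⟨hip h7, rfl⟩
      · left
        exact ⟨h1, fun _ => by omega, fun hne => absurd rfl hne⟩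
    · have h5 := h3 (by decide)
      by_cases h6 : i = t
      · right; left
        exact ⟨h6, rfl⟩
      · left
        exact ⟨h1, fun hne => absurd rfl hne, fun _ => by omega⟩
  have hv2 : LS h κ u w σ a' t 2 = cm2 - (x : ZMod p) := by
    simp only [LS]
    rw [hat]
  have hv0 : t + 1 = h → LS h κ u w σ a' t 0 = cm0 - (x : ZMod p) := by
    intro hth
    simp only [LS]
    rw [hat, hth, Nat.mod_self, hao 0 (by omega)]
  have hv1 : LS h κ u w σ a' pt 1 = cp1 + (x : ZMod p) := by
    simp only [LS]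
    rw [hpt1, hat]
  have hv3 : 1 ≤ t → LS h κ u w σ a' pt 0 = cp0 + (x : ZMod p) := by
    intro h1
    simp only [LS]
    rw [hpt1, hat, hao pt (by have := hpt2 h1; omega), hcp0]
    ring
  have hold : ∀ i k, LF h t i k → LS h κ u w σ a' i k ∈ Z := by
    intro i k hf
    rw [LS_congr hf hal]
    exact hZS i k hf.1
  have hnew : ∀ i k, (i = t ∧ k = 2) ∨ (i = t ∧ k = 0 ∧ t + 1 = h) ∨
      (i = pt ∧ k = 1) ∨ (i = pt ∧ k = 0 ∧ 1 ≤ t) → LS h κ u w σ a' i k ∉ Z := by
    rintro i k (⟨rfl, rfl⟩ | ⟨rfl, rfl, h1⟩ | ⟨rfl, rfl⟩ | ⟨rfl, rfl, h1⟩)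
    · rw [hv2]; exact hx4
    · rw [hv0 h1]; exact hx5
    · rw [hv1]; exact hx6
    · rw [hv3 h1]; exact hx7
  refine ⟨a', ?_, ?_, ?_, ?_, ?_, ?_, ?_⟩
  · intro i hi
    by_cases h1 : i = t
    · rw [h1, hat]; exact hmid x hxM
    · rw [hao i h1]; exact I.rng i (by omega)
  · intro i hi j hj he
    by_cases h1 : i = t
    · by_cases h2 : j = t
      · omega
      · rw [h1, hat, hao j h2] at he
        exact absurd he (hx1 j (by omega))
    · by_cases h2 : j = t
      · rw [h2, hat, hao i h1] at he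
        exact absurd he.symm (hx1 i (by omega))
      · rw [hao i h1, hao j h2] at he
        exact I.inj i (by omega) j (by omega) he
  · intro i hi j hj
    by_cases h1 : i = t
    · by_cases h2 : j = t
      · rw [h1, h2, hat]; exact hx3
      · rw [h1, hat, hao j h2]
        exact hx2 j (by omega)
    · by_cases h2 : j = t
      · rw [h2, hat, hao i h1, add_comm]
        exact hx2 i (by omega)
      · rw [hao i h1, hao j h2]
        exact I.sum i (by omega) j (by omega)
  · intro i k hf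
    rcases hcl i k hf with h1 | h1
    · rw [LS_congr h1 hal]
      exact I.out i k h1
    · exact fun hY => hnew i k h1 (hZY _ hY)
  · intro i k j k' hf hf' he
    rcases hcl i k hf with h1 | h1
    · rcases hcl j k' hf' with h2 | h2
      · rw [LS_congr h1 hal, LS_congr h2 hal] at he
        exact I.dis i k j k' h1 h2 he
      · exact absurd (he ▸ hold i k h1) (hnew j k' h2)
    · rcases hcl j k' hf' with h2 | h2
      · exact absurd (he.symm ▸ hold j k' h2) (hnew i k h1)
      · have hsame2 : t + 1 = h → cm2 ≠ cm0 := by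
          intro hth he2
          refine I.fst (by omega) ?_
          have h3 : h - 1 = t := by omega
          rw [h3]
          rw [hcm2, hcm0] at he2
          exact (add_right_cancel he2).symm
        have hsame1 : 1 ≤ t → cp1 ≠ cp0 := by
          intro h3 he2
          have h4 := hpt2 h3
          exact I.look pt (by omega) (by omega) he2.symm
        rcases h1 with ⟨rfl, rfl⟩ | ⟨rfl, rfl, g1⟩ | ⟨rfl, rfl⟩ | ⟨rfl, rfl, g1⟩ <;>
          rcases h2 with ⟨rfl, rfl⟩ | ⟨rfl, rfl, g2⟩ | ⟨rfl, rfl⟩ | ⟨rfl, rfl, g2⟩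
        · exact ⟨rfl, rfl⟩
        · rw [hv2, hv0 g2] at he
          exact absurd (sub_left_injective he) (hsame2 g2)
        · rw [hv2, hv1] at he
          exact absurd he hx8
        · rw [hv2, hv3 g2] at he
          exact absurd he hx9
        · rw [hv2, hv0 g1] at he
          exact absurd (sub_left_injective he).symm (hsame2 g1)
        · exact ⟨rfl, rfl⟩
        · rw [hv0 g1, hv1] at he
          exact absurd he hx10
        · rw [hv0 g1, hv3 g2] at he
          exact absurd he hx11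
        · rw [hv2, hv1] at he
          exact absurd he.symm hx8
        · rw [hv0 g2, hv1] at he
          exact absurd he.symm hx10
        · exact ⟨rfl, rfl⟩
        · rw [hv1, hv3 g2] at he
          exact absurd (add_right_cancel he) (hsame1 g2)
        · rw [hv2, hv3 g1] at he
          exact absurd he.symm hx9
        · rw [hv0 g2, hv3 g1] at he
          exact absurd he.symm hx11
        · rw [hv1, hv3 g1] at he
          exact absurd (add_right_cancel he).symm (hsame1 g1)
        · exact ⟨rfl, rfl⟩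
  · intro i hi hi1
    by_cases h1 : i = t
    · rw [h1, hat]; exact hx12
    · rw [hao i h1]; exact I.look i (by omega) hi1
  · intro _
    by_cases h1 : t = 0
    · rw [← h1, hat]; exact hx13
    · rw [hao 0 (by omega)]; exact I.fst (by omega)

/-- Linked special edges. Hubs `0, ..., h - 1` in a cycle; the link `i` gives the label `b i` to a special
edge at hub `i` (its other end has the sum `u i + b i`) and the label `σ - b i` to a special edge at
hub `i + 1` (its other end has the sum `w (i + 1) + σ - b i`). Hub `i` has the sum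
`κ i + b i + (σ - b (i - 1))`. We choose the `b i` in the symmetric block `Mid` (`σ - x ∈ Mid` for
`x ∈ Mid`) such that the `2 h` labels `b i, σ - b i` are distinct and the `3 h` sums are distinct and not in
`Y`. Greedy: first `b (h - 1)`, then `b 0, b 1, ..., b (h - 2)`. Conditions for `b j`: unused, `2 b j ≠ σ`;
sums finished by this choice (hub `j`, `u j + b j`, `w (j+1) + σ - b j`, and for `j = h - 2` hub `h - 1`)
avoid `Y` and the earlier ones, sums with different signs of `b j` are different; lookahead (sums with the same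
sign are different): `κ (j+1) + σ - b j ≠ u (j+1)`; and for the first choice also
`κ (h-1) + b (h-1) ≠ w (h-1)`. Every step excludes at most `24 h + 4 |Y| + 20` labels (an equation
`2 b = const` in `ZMod p` has at most two solutions in `Mid` as `2 * (length of the block) ≤ p`). -/
theorem links (p : ℕ) [NeZero p] (h : ℕ) (hh : 2 ≤ h) (κ u w : ℕ → ZMod p) (σ lo N : ℕ)
    (hσ : σ = 2 * lo + N - 1) (hN : 0 < N) (hp : 2 * N ≤ p) (Y : Finset (ZMod p))
    (hc : 30 * h + 4 * Y.card + 30 ≤ N) :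
    ∃ b : ℕ → ℕ, (∀ i < h, lo ≤ b i ∧ b i < lo + N) ∧
      (∀ i < h, ∀ j < h, b i = b j → i = j) ∧ (∀ i < h, ∀ j < h, b i + b j ≠ σ) ∧
      ∃ S : ℕ → Fin 3 → ZMod p,
        (∀ i < h, S i 0 = κ i + (b i : ZMod p) + (σ : ZMod p) - (b ((i + h - 1) % h) : ZMod p)) ∧
        (∀ i < h, S i 1 = u i + (b i : ZMod p)) ∧
        (∀ i < h, S i 2 = w i + (σ : ZMod p) - (b ((i + h - 1) % h) : ZMod p)) ∧
        (∀ i < h, ∀ t, S i t ∉ Y) ∧
        ∀ i < h, ∀ j < h, ∀ t t', S i t = S j t' → i = j ∧ t = t' := by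
  have hall : ∀ t, t ≤ h → ∃ a, LInv p h κ u w σ lo N Y t a := by
    intro t
    induction t with
    | zero =>
      intro _
      refine ⟨fun _ => 0, fun i hi => absurd hi (Nat.not_lt_zero i),
        fun i hi => absurd hi (Nat.not_lt_zero i), fun i hi => absurd hi (Nat.not_lt_zero i),
        ?_, ?_, fun i hi => absurd hi (Nat.not_lt_zero i), fun h0 => absurd h0 (lt_irrefl 0)⟩
      · rintro i k ⟨-, h1, h2⟩
        exfalso
        by_cases hk : k = 2
        · exact Nat.not_lt_zero _ (h2 (by rw [hk]; decide))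
        · exact Nat.not_lt_zero _ (h1 hk)
      · rintro i k j k' ⟨-, h1, h2⟩
        exfalso
        by_cases hk : k = 2
        · exact Nat.not_lt_zero _ (h2 (by rw [hk]; decide))
        · exact Nat.not_lt_zero _ (h1 hk)
    | succ t ih =>
      intro ht
      obtain ⟨a, ha⟩ := ih (by omega)
      exact Links_step p h hh κ u w σ lo N hN hp Y hc t (by omega) a ha
  obtain ⟨a, I⟩ := hall h le_rfl
  have hmod : ∀ i, (i + 1) % h < h := fun i => Nat.mod_lt _ (by omega)
  have hfin : ∀ i k, i < h → LF h h i k := fun i k hi => ⟨hi, fun _ => hmod i, fun _ => hi⟩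
  have hback : ∀ i < h, (((i + h - 1) % h) + 1) % h = i := by
    intro i hi
    rw [Nat.mod_add_mod, Nat.sub_add_cancel (by omega), Nat.add_mod_right, Nat.mod_eq_of_lt hi]
  refine ⟨fun i => a ((i + 1) % h), fun i _ => I.rng _ (hmod i), ?_, ?_, LS h κ u w σ a, ?_, ?_, ?_,
    fun i hi t => I.out i t (hfin i t hi), fun i hi j hj t t' he =>
      I.dis i t j t' (hfin i t hi) (hfin j t' hj) he⟩
  · intro i hi j hj he
    have h1 := I.inj _ (hmod i) _ (hmod j) he
    rw [Links_succmod hi, Links_succmod hj] at h1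
    split_ifs at h1 <;> omega
  · intro i _ j _
    exact I.sum _ (hmod i) _ (hmod j)
  · intro i hi
    beta_reduce
    rw [hback i hi]
    simp only [LS]
  · intro i _
    simp only [LS]
  · intro i hi
    beta_reduce
    rw [hback i hi]
    simp only [LS]

end Pool.Agent.AMC
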