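import Pool.Agent.AMC.PMDefs

/-!
# Case 3: the finish by exchanges
-/

set_option autoImplicit false
set_option linter.unusedSectionVars false
set_option linter.unusedVariables false

namespace Pool.Agent.AMC

open Finset Pool.Agent.MP9a04dc

variable {q p : ℕ} [NeZero p] {c c' : Fin q → ZMod p} {lo N σ : ℕ} {Λ : Finset ℕ}
  {Y : Finset (ZMod p)} {ε : ℝ}

private theorem PM3_four {α : Type*} [DecidableEq α] {a b c d : α}
    (h : ({a, b, c, d} : Finset α).card = 4) :
    a ≠ b ∧ a ≠ c ∧ a ≠ d ∧ b ≠ c ∧ b ≠ d ∧ c ≠ d := by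
  have key : ∀ x y z : α, ¬ (({a, b, c, d} : Finset α) ⊆ {x, y, z}) := by
    intro x y z hs
    have h1 := card_le_card hs
    have h2 : ({x, y, z} : Finset α).card ≤ 3 := card_le_three
    omega
  refine ⟨?_, ?_, ?_, ?_, ?_, ?_⟩
  · rintro rfl; exact key a c d (by intro x; simp <;> tauto)
  · rintro rfl; exact key a b d (by intro x; simp <;> tauto)
  · rintro rfl; exact key a b c (by intro x; simp <;> tauto)
  · rintro rfl; exact key a b d (by intro x; simp <;> tauto)
  · rintro rfl; exact key a b c (by intro x; simp <;> tauto)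
  · rintro rfl; exact key a b c (by intro x; simp <;> tauto)

private theorem PM3_lb_mem (h : PMH q p c c' lo N σ Λ Y ε) (u : {x // x ∈ Λ} × Bool) :
    lo ≤ lb σ u ∧ lb σ u < lo + N ∧ lb σ u ≤ σ := by
  obtain ⟨⟨x, hx⟩, o⟩ := u
  have h1 := h.memΛ x hx
  have h2 := h.hσ
  have h3 := h.hN
  unfold lb
  split_ifs <;> dsimp only <;> omega

private theorem PM3_lb_inj (h : PMH q p c c' lo N σ Λ Y ε) {u v : {x // x ∈ Λ} × Bool}
    (e : lb σ u = lb σ v) : u.1 = v.1 := by
  obtain ⟨⟨x, hx⟩, o⟩ := u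
  obtain ⟨⟨y, hy⟩, o'⟩ := v
  have h1 := h.memΛ x hx
  have h2 := h.memΛ y hy
  unfold lb at e
  apply Subtype.ext
  dsimp only at e ⊢
  split_ifs at e <;> omega

private theorem PM3_cast_inj (h : PMH q p c c' lo N σ Λ Y ε) {u v : {x // x ∈ Λ} × Bool}
    (e : (lb σ u : ZMod p) = (lb σ v : ZMod p)) : u.1 = v.1 := by
  apply PM3_lb_inj h
  have h1 := PM3_lb_mem h u
  have h2 := PM3_lb_mem h v
  have h3 := h.hp
  rw [ZMod.natCast_eq_natCast_iff] at e
  rcases le_total (lb σ u) (lb σ v) with h4 | h4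
  · have h5 := (Nat.modEq_iff_dvd' h4).mp e
    have h6 := Nat.eq_zero_of_dvd_of_lt h5 (by omega)
    omega
  · have h5 := (Nat.modEq_iff_dvd' h4).mp e.symm
    have h6 := Nat.eq_zero_of_dvd_of_lt h5 (by omega)
    omega

private theorem PM3_count (h : PMH q p c c' lo N σ Λ Y ε) (M : Finset (PE q Λ))
    (hM : ∀ e ∈ M, ∀ f ∈ M, e ≠ f → e.1 ≠ f.1 ∧ e.2.1 ≠ f.2.1)
    (C1 C2 : ZMod p) (l : ℕ) (s : ZMod p) :
    (M.filter fun e => s ∈ ppos c c' σ C1 C2 l e).card ≤ 10 := by
  classical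
  have h1 : (M.filter fun e => s = C1 + (lb σ e.2 : ZMod p)).card ≤ 1 := by
    rw [card_le_one]
    intro e he f hf
    rw [mem_filter] at he hf
    by_contra hne
    exact (hM e he.1 f hf.1 hne).2 (PM3_cast_inj h (add_left_cancel (he.2.symm.trans hf.2)))
  have h2 : (M.filter fun e => s = C2 + (σ : ZMod p) - (lb σ e.2 : ZMod p)).card ≤ 1 := by
    rw [card_le_one]
    intro e he f hf
    rw [mem_filter] at he hf
    by_contra hne
    exact (hM e he.1 f hf.1 hne).2 (PM3_cast_inj h (sub_right_injective (he.2.symm.trans hf.2)))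
  have inj : Set.InjOn (fun e : PE q Λ => e.1) (M : Set (PE q Λ)) := by
    intro e he f hf hef
    by_contra hne
    exact (hM e he f hf hne).1 hef
  have h3 : (M.filter fun e => s = c e.1 + (l : ZMod p)).card ≤ 4 := by
    have hm := h.mult (s - l)
    refine le_trans ?_ (le_trans (Nat.le_add_right _ _) hm)
    refine card_le_card_of_injOn (fun e => e.1) ?_ (inj.mono ?_)
    · intro e he
      rw [mem_coe, mem_filter] at he
      rw [mem_coe, mem_filter]
      exact ⟨mem_univ _, by rw [he.2]; ring⟩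
    · intro e he
      exact (mem_filter.mp he).1
  have h4 : (M.filter fun e => s = c' e.1 + (σ : ZMod p) - (l : ZMod p)).card ≤ 4 := by
    have hm := h.mult (s - σ + l)
    refine le_trans ?_ (le_trans (Nat.le_add_left _ _) hm)
    refine card_le_card_of_injOn (fun e => e.1) ?_ (inj.mono ?_)
    · intro e he
      rw [mem_coe, mem_filter] at he
      rw [mem_coe, mem_filter]
      exact ⟨mem_univ _, by rw [he.2]; ring⟩
    · intro e he
      exact (mem_filter.mp he).1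
  have h5 : (M.filter fun e => s ∈ ppos c c' σ C1 C2 l e) ⊆
      ((M.filter fun e => s = C1 + (lb σ e.2 : ZMod p)) ∪
        (M.filter fun e => s = C2 + (σ : ZMod p) - (lb σ e.2 : ZMod p))) ∪
      ((M.filter fun e => s = c e.1 + (l : ZMod p)) ∪
        (M.filter fun e => s = c' e.1 + (σ : ZMod p) - (l : ZMod p))) := by
    intro e he
    rw [mem_filter] at he
    obtain ⟨he1, he2⟩ := he
    unfold ppos at he2
    simp only [mem_insert, mem_singleton] at he2
    simp only [mem_union, mem_filter]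
    tauto
  have h6 := card_le_card h5
  have h7 := card_union_le ((M.filter fun e => s = C1 + (lb σ e.2 : ZMod p)) ∪
        (M.filter fun e => s = C2 + (σ : ZMod p) - (lb σ e.2 : ZMod p)))
      ((M.filter fun e => s = c e.1 + (l : ZMod p)) ∪
        (M.filter fun e => s = c' e.1 + (σ : ZMod p) - (l : ZMod p)))
  have h8 := card_union_le (M.filter fun e => s = C1 + (lb σ e.2 : ZMod p))
        (M.filter fun e => s = C2 + (σ : ZMod p) - (lb σ e.2 : ZMod p))
  have h9 := card_union_le (M.filter fun e => s = c e.1 + (l : ZMod p))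
        (M.filter fun e => s = c' e.1 + (σ : ZMod p) - (l : ZMod p))
  omega

private theorem PM3_greedy (h : PMH q p c c' lo N σ Λ Y ε) (T : Finset (ZMod p))
    (M : Finset (PE q Λ)) (b : ℕ)
    (hM : ∀ e ∈ M, ∀ f ∈ M, e ≠ f → e.1 ≠ f.1 ∧ e.2.1 ≠ f.2.1)
    (l : Fin q → {x // x ∈ Λ})
    (htest : ∀ (C1 C2 : ZMod p), ∀ l ∈ Λ, open Classical in
      b ≤ (M.filter fun e => pnd c c' σ Y C1 C2 l e ∧ ppos c c' σ C1 C2 l e ⊆ T).card)
    (W : Finset (Fin q)) (hW : 50 * (W.card + 1) ≤ b) :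
    ∃ g : Fin q → PE q Λ, (∀ w ∈ W, g w ∈ M ∧ pnd c c' σ Y (c w) (c' w) (l w).1 (g w) ∧
      ppos c c' σ (c w) (c' w) (l w).1 (g w) ⊆ T) ∧
      ∀ w ∈ W, ∀ w' ∈ W, w ≠ w' → g w ≠ g w' ∧
        Disjoint (ppos c c' σ (c w) (c' w) (l w).1 (g w))
          (ppos c c' σ (c w') (c' w') (l w').1 (g w')) := by
  classical
  induction W using Finset.induction_on with
  | empty =>
    exact ⟨fun w => (w, (l w, true)), by simp, by simp⟩
  | insert w W hw ih =>
    rw [card_insert_of_notMem hw] at hW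
    obtain ⟨g, hg1, hg2⟩ := ih (by omega)
    set P : Fin q → Finset (ZMod p) := fun v => ppos c c' σ (c v) (c' v) (l v).1 (g v) with hP
    set Bad : Finset (PE q Λ) := W.image g ∪ (W.biUnion P).biUnion fun s =>
      M.filter fun e => s ∈ ppos c c' σ (c w) (c' w) (l w).1 e with hBad
    have hb1 : (W.image g).card ≤ W.card := card_image_le
    have hb2 : (W.biUnion P).card ≤ W.card * 4 := card_biUnion_le_card_mul _ _ _ fun v hv => by
      exact ((hg1 v hv).2.1.1).le
    have hb3 : ((W.biUnion P).biUnion fun s =>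
        M.filter fun e => s ∈ ppos c c' σ (c w) (c' w) (l w).1 e).card ≤
        (W.biUnion P).card * 10 := card_biUnion_le_card_mul _ _ _ fun s _ =>
      PM3_count h M hM _ _ _ _
    have hb4 : Bad.card ≤ _ := card_union_le _ _
    have hlt : Bad.card < b := by
      have : (W.biUnion P).card * 10 ≤ W.card * 40 := by omega
      omega
    obtain ⟨e, he1, he2⟩ := exists_mem_notMem_of_card_lt_card
      (lt_of_lt_of_le hlt (htest (c w) (c' w) (l w).1 (l w).2))
    rw [mem_filter] at he1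
    have hew : ∀ v ∈ W, g v ≠ e := by
      intro v hv hve
      apply he2
      rw [hBad, mem_union]
      left
      rw [← hve]
      exact mem_image_of_mem g hv
    have hed : ∀ v ∈ W, Disjoint (P v) (ppos c c' σ (c w) (c' w) (l w).1 e) := by
      intro v hv
      rw [disjoint_left]
      intro s hs hs'
      apply he2
      rw [hBad, mem_union]
      right
      rw [mem_biUnion]
      exact ⟨s, mem_biUnion.mpr ⟨v, hv, hs⟩, mem_filter.mpr ⟨he1.1, hs'⟩⟩
    have hup : ∀ v ∈ W, Function.update g w e v = g v := by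
      intro v hv
      apply Function.update_of_ne
      rintro rfl
      exact hw hv
    refine ⟨Function.update g w e, ?_, ?_⟩
    · intro v hv
      rw [mem_insert] at hv
      rcases hv with rfl | hv
      · rw [Function.update_self]
        exact ⟨he1.1, he1.2⟩
      · rw [hup v hv]
        exact hg1 v hv
    · intro v hv v' hv' hne
      rw [mem_insert] at hv hv'
      rcases hv with rfl | hv <;> rcases hv' with rfl | hv'
      · exact absurd rfl hne
      · rw [Function.update_self, hup v' hv']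
        exact ⟨(hew v' hv').symm, (hed v' hv').symm⟩
      · rw [Function.update_self, hup v hv]
        exact ⟨hew v hv, hed v hv⟩
      · rw [hup v hv, hup v' hv']
        exact hg2 v hv v' hv' hne

/-- Deterministic finish. `M` = matching (parts, labels and sums distinct, sums not in `T`, `Y`), `T` = reserved
sums, at least `b` gadgets for every test. The leftover parts `w` get the leftover label pairs by any
bijection; then they are treated one by one: for `w` with the lower label `l` take the test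
`(c w, c' w, l)` and a gadget `e = (i, x, o) ∈ M` not yet used whose four positions are not yet used:
`w` gets the label `lb e.2` (first vertex) and `i` gets `l` (first vertex). A used position excludes at
most `1 + 1 + 4 + 4` gadgets (labels of `M` are distinct; `mult`). Result: `φ i` = label of the first
vertex of the pair `i`. -/
theorem pm_finish (h : PMH q p c c' lo N σ Λ Y ε) (T : Finset (ZMod p)) (hT : Disjoint T Y)
    (M : Finset (PE q Λ)) (b : ℕ)
    (hM1 : ∀ e ∈ M, s1 c σ e ≠ s2 c' σ e ∧ s1 c σ e ∉ Y ∧ s2 c' σ e ∉ Y ∧ s1 c σ e ∉ T ∧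
      s2 c' σ e ∉ T)
    (hM2 : ∀ e ∈ M, ∀ f ∈ M, e ≠ f → e.1 ≠ f.1 ∧ e.2.1 ≠ f.2.1 ∧ s1 c σ e ≠ s1 c σ f ∧
      s1 c σ e ≠ s2 c' σ f ∧ s2 c' σ e ≠ s2 c' σ f)
    (htest : ∀ (C1 C2 : ZMod p), ∀ l ∈ Λ, open Classical in
      b ≤ (M.filter fun e => pnd c c' σ Y C1 C2 l e ∧ ppos c c' σ C1 C2 l e ⊆ T).card)
    (hb : 50 * (q - M.card + 1) ≤ b) :
    ∃ φ : Fin q → ℕ, (∀ i, φ i ∈ Λ ∨ (φ i ≤ σ ∧ σ - φ i ∈ Λ)) ∧
      (∀ i j, φ i = φ j → i = j) ∧ (∀ i j, φ i + φ j ≠ σ) ∧
      (∀ i, c i + (φ i : ZMod p) ∉ Y ∧ c' i + (σ : ZMod p) - φ i ∉ Y) ∧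
      (∀ i j, c i + (φ i : ZMod p) = c j + φ j → i = j) ∧
      (∀ i j, c' i + (σ : ZMod p) - φ i = c' j + σ - φ j → i = j) ∧
      (∀ i j, c i + (φ i : ZMod p) ≠ c' j + σ - φ j) := by
  classical
  have hM : ∀ e ∈ M, ∀ f ∈ M, e ≠ f → e.1 ≠ f.1 ∧ e.2.1 ≠ f.2.1 := fun e he f hf hef =>
    ⟨(hM2 e he f hf hef).1, (hM2 e he f hf hef).2.1⟩
  -- the leftover parts and labels
  set W : Finset (Fin q) := univ \ M.image (fun e => e.1) with hW
  set L : Finset {x // x ∈ Λ} := univ \ M.image (fun e => e.2.1) with hL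
  have inj1 : Set.InjOn (fun e : PE q Λ => e.1) (M : Set (PE q Λ)) := by
    intro e he f hf hef
    by_contra hne
    exact (hM e he f hf hne).1 hef
  have inj2 : Set.InjOn (fun e : PE q Λ => e.2.1) (M : Set (PE q Λ)) := by
    intro e he f hf hef
    by_contra hne
    exact (hM e he f hf hne).2 hef
  have cW : W.card = q - M.card := by
    rw [hW, card_sdiff_of_subset (subset_univ _), card_image_of_injOn inj1, card_univ,
      Fintype.card_fin]
  have cL : L.card = q - M.card := by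
    rw [hL, card_sdiff_of_subset (subset_univ _), card_image_of_injOn inj2, card_univ,
      Fintype.card_coe, h.cardΛ]
  have E0 : Fin q ≃ {x // x ∈ Λ} := by
    refine Fintype.equivOfCardEq ?_
    rw [Fintype.card_fin, Fintype.card_coe, h.cardΛ]
  have E : W ≃ L := Finset.equivOfCardEq (cW.trans cL.symm)
  obtain ⟨l, hl1, hl2⟩ : ∃ l : Fin q → {x // x ∈ Λ}, (∀ w ∈ W, l w ∈ L) ∧
      ∀ w ∈ W, ∀ w' ∈ W, l w = l w' → w = w' := by
    refine ⟨fun i => if hi : i ∈ W then (E ⟨i, hi⟩).1 else E0 i, ?_, ?_⟩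
    · intro w hw
      simp only [dif_pos hw]
      exact (E ⟨w, hw⟩).2
    · intro w hw w' hw' e
      simp only [dif_pos hw, dif_pos hw'] at e
      have := E.injective (Subtype.ext e)
      exact congrArg Subtype.val this
  obtain ⟨g, hg1, hg2⟩ := PM3_greedy h T M b hM l htest W (by rw [cW]; exact hb)
  -- labels of `L` are not labels of `M`
  have hLM : ∀ w ∈ W, ∀ e ∈ M, l w ≠ e.2.1 := by
    intro w hw e he hle
    have h1 := hl1 w hw
    rw [hL, mem_sdiff] at h1
    exact h1.2 (mem_image.mpr ⟨e, he, hle.symm⟩)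
  have hWM : ∀ w ∈ W, ∀ e ∈ M, w ≠ e.1 := by
    intro w hw e he hle
    rw [hW, mem_sdiff] at hw
    exact hw.2 (mem_image.mpr ⟨e, he, hle.symm⟩)
  -- every part: label pair, label, description of the sums
  have main : ∀ i : Fin q, ∃ (x : {x // x ∈ Λ}) (f : ℕ), (f = x.1 ∨ f = σ - x.1) ∧
      ((∃ w ∈ W, i = w ∧ x = (g w).2.1 ∧ f = lb σ (g w).2) ∨
        (∃ w ∈ W, i = (g w).1 ∧ x = l w ∧ f = (l w).1) ∨
        (∃ e ∈ M, (∀ w ∈ W, g w ≠ e) ∧ i = e.1 ∧ x = e.2.1 ∧ f = lb σ e.2)) := by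
    intro i
    have hlb : ∀ u : {x // x ∈ Λ} × Bool, lb σ u = u.1.1 ∨ lb σ u = σ - u.1.1 := by
      intro u
      unfold lb
      split_ifs
      · exact Or.inr rfl
      · exact Or.inl rfl
    by_cases hi : i ∈ W
    · exact ⟨(g i).2.1, lb σ (g i).2, hlb _, Or.inl ⟨i, hi, rfl, rfl, rfl⟩⟩
    · have h1 : ∃ e ∈ M, e.1 = i := by
        rw [hW, mem_sdiff] at hi
        push Not at hi
        exact mem_image.mp (hi (mem_univ i))
      obtain ⟨e, he, hei⟩ := h1
      by_cases hex : ∃ w ∈ W, g w = e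
      · obtain ⟨w, hw, hwe⟩ := hex
        exact ⟨l w, (l w).1, Or.inl rfl, Or.inr (Or.inl ⟨w, hw, by rw [hwe, hei], rfl, rfl⟩)⟩
      · push Not at hex
        exact ⟨e.2.1, lb σ e.2, hlb _, Or.inr (Or.inr ⟨e, he, hex, hei.symm, rfl, rfl⟩)⟩
  choose ℓ φ hφ hmain using main
  have hℓ : ∀ i j, ℓ i = ℓ j → i = j := by
    intro i j hij
    rcases hmain i with ⟨w, hw, hi, hx, -⟩ | ⟨w, hw, hi, hx, -⟩ | ⟨e, he, hne, hi, hx, -⟩ <;>
    rcases hmain j with ⟨w', hw', hj, hy, -⟩ | ⟨w', hw', hj, hy, -⟩ | ⟨e', he', hne', hj, hy, -⟩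
    · rw [hx, hy] at hij
      by_contra hc
      have hww : w ≠ w' := by rwa [hi, hj] at hc
      exact (hM _ (hg1 w hw).1 _ (hg1 w' hw').1 (hg2 w hw w' hw' hww).1).2 hij
    · rw [hx, hy] at hij
      exact absurd hij.symm (hLM w' hw' _ (hg1 w hw).1)
    · rw [hx, hy] at hij
      exact absurd (inj2 (hg1 w hw).1 he' hij) (hne' w hw)
    · rw [hx, hy] at hij
      exact absurd hij (hLM w hw _ (hg1 w' hw').1)
    · rw [hx, hy] at hij
      rw [hi, hj, hl2 w hw w' hw' hij]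
    · rw [hx, hy] at hij
      exact absurd hij (hLM w hw _ he')
    · rw [hx, hy] at hij
      exact absurd (inj2 (hg1 w' hw').1 he hij.symm) (hne w' hw')
    · rw [hx, hy] at hij
      exact absurd hij.symm (hLM w' hw' _ he)
    · rw [hx, hy] at hij
      rw [hi, hj, inj2 he he' hij]
  have hx2 : ∀ i, lo ≤ (ℓ i).1 ∧ 2 * (ℓ i).1 < σ := fun i => h.memΛ _ (ℓ i).2
  -- the sums of the part `i`
  have hsum : ∀ i, (∃ w ∈ W, (i = w ∧
        c i + (φ i : ZMod p) = c w + (lb σ (g w).2 : ZMod p) ∧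
        c' i + (σ : ZMod p) - φ i = c' w + (σ : ZMod p) - (lb σ (g w).2 : ZMod p)) ∨
      (i = (g w).1 ∧ c i + (φ i : ZMod p) = c (g w).1 + ((l w).1 : ZMod p) ∧
        c' i + (σ : ZMod p) - φ i = c' (g w).1 + (σ : ZMod p) - ((l w).1 : ZMod p))) ∨
      (∃ e ∈ M, i = e.1 ∧ c i + (φ i : ZMod p) = s1 c σ e ∧
        c' i + (σ : ZMod p) - φ i = s2 c' σ e) := by
    intro i
    rcases hmain i with ⟨w, hw, hi, -, hf⟩ | ⟨w, hw, hi, -, hf⟩ | ⟨e, he, -, hi, -, hf⟩
    · exact Or.inl ⟨w, hw, Or.inl ⟨hi, by rw [hf, hi], by rw [hf, hi]⟩⟩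
    · exact Or.inl ⟨w, hw, Or.inr ⟨hi, by rw [hf, hi], by rw [hf, hi]⟩⟩
    · exact Or.inr ⟨e, he, hi, by rw [hf, hi]; rfl, by rw [hf, hi]; rfl⟩
  have hp1 : ∀ w, c w + (lb σ (g w).2 : ZMod p) ∈ ppos c c' σ (c w) (c' w) (l w).1 (g w) := by
    intro w; unfold ppos; simp
  have hp2 : ∀ w, c' w + (σ : ZMod p) - (lb σ (g w).2 : ZMod p) ∈
      ppos c c' σ (c w) (c' w) (l w).1 (g w) := by
    intro w; unfold ppos; simp
  have hp3 : ∀ w, c (g w).1 + ((l w).1 : ZMod p) ∈
      ppos c c' σ (c w) (c' w) (l w).1 (g w) := by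
    intro w; unfold ppos; simp
  have hp4 : ∀ w, c' (g w).1 + (σ : ZMod p) - ((l w).1 : ZMod p) ∈
      ppos c c' σ (c w) (c' w) (l w).1 (g w) := by
    intro w; unfold ppos; simp
  have hdist : ∀ w ∈ W, _ := fun w hw => PM3_four (hg1 w hw).2.1.1
  -- group of a part
  have hgrp : ∀ i, (∃ w ∈ W, c i + (φ i : ZMod p) ∈ ppos c c' σ (c w) (c' w) (l w).1 (g w) ∧
      c' i + (σ : ZMod p) - φ i ∈ ppos c c' σ (c w) (c' w) (l w).1 (g w)) ∨
      (c i + (φ i : ZMod p) ∉ T ∧ c' i + (σ : ZMod p) - φ i ∉ T) := by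
    intro i
    rcases hsum i with ⟨w, hw, ⟨hi, e1, e2⟩ | ⟨hi, e1, e2⟩⟩ | ⟨e, he, hi, e1, e2⟩
    · left; exact ⟨w, hw, by rw [e1]; exact hp1 w, by rw [e2]; exact hp2 w⟩
    · left; exact ⟨w, hw, by rw [e1]; exact hp3 w, by rw [e2]; exact hp4 w⟩
    · right; rw [e1, e2]; exact ⟨(hM1 e he).2.2.2.1, (hM1 e he).2.2.2.2⟩
  -- general principle of distinctness
  have hsep : ∀ w ∈ W, ∀ w' ∈ W, ∀ s, s ∈ ppos c c' σ (c w) (c' w) (l w).1 (g w) →
      s ∈ ppos c c' σ (c w') (c' w') (l w').1 (g w') → w = w' := by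
    intro w hw w' hw' s hs hs'
    by_contra hne
    exact (disjoint_left.mp (hg2 w hw w' hw' hne).2 hs) hs'
  have hTsub : ∀ w ∈ W, ∀ s, s ∈ ppos c c' σ (c w) (c' w) (l w).1 (g w) → s ∈ T :=
    fun w hw s hs => (hg1 w hw).2.2 hs
  refine ⟨φ, ?_, ?_, ?_, ?_, ?_, ?_, ?_⟩
  · intro i
    rcases hφ i with h1 | h1
    · left; rw [h1]; exact (ℓ i).2
    · right
      have := hx2 i
      rw [h1]
      refine ⟨by omega, ?_⟩
      have h3 : σ - (σ - (ℓ i).1) = (ℓ i).1 := by omega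
      rw [h3]
      exact (ℓ i).2
  · intro i j hij
    apply hℓ
    apply Subtype.ext
    have h1 := hx2 i
    have h2 := hx2 j
    rcases hφ i with h3 | h3 <;> rcases hφ j with h4 | h4 <;> omega
  · intro i j hij
    have h1 := hx2 i
    have h2 := hx2 j
    have h5 : ℓ i = ℓ j := by
      apply Subtype.ext
      rcases hφ i with h3 | h3 <;> rcases hφ j with h4 | h4 <;> omega
    have h6 := hℓ i j h5
    subst h6
    rcases hφ i with h3 | h3 <;> omega
  · intro i
    rcases hgrp i with ⟨w, hw, h1, h2⟩ | h1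
    · exact ⟨disjoint_left.mp hT (hTsub w hw _ h1), disjoint_left.mp hT (hTsub w hw _ h2)⟩
    · rcases hsum i with ⟨w, hw, ⟨hi, e1, e2⟩ | ⟨hi, e1, e2⟩⟩ | ⟨e, he, hi, e1, e2⟩
      · rw [e1, e2]
        exact ⟨disjoint_left.mp hT (hTsub w hw _ (hp1 w)),
          disjoint_left.mp hT (hTsub w hw _ (hp2 w))⟩
      · rw [e1, e2]
        exact ⟨disjoint_left.mp hT (hTsub w hw _ (hp3 w)),
          disjoint_left.mp hT (hTsub w hw _ (hp4 w))⟩
      · rw [e1, e2]
        exact ⟨(hM1 e he).2.1, (hM1 e he).2.2.1⟩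
  · intro i j hij
    rcases hsum i with ⟨w, hw, ⟨hi, e1, -⟩ | ⟨hi, e1, -⟩⟩ | ⟨e, he, hi, e1, -⟩ <;>
    rcases hsum j with ⟨w', hw', ⟨hj, f1, -⟩ | ⟨hj, f1, -⟩⟩ | ⟨f, hf, hj, f1, -⟩ <;>
    rw [e1, f1] at hij
    · have := hsep w hw w' hw' _ (hp1 w) (by rw [hij]; exact hp1 w')
      rw [hi, hj, this]
    · have := hsep w hw w' hw' _ (hp1 w) (by rw [hij]; exact hp3 w')
      subst this
      exact absurd hij (hdist w hw).2.1
    · exact absurd (hTsub w hw _ (hp1 w)) (by rw [hij]; exact (hM1 f hf).2.2.2.1)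
    · have := hsep w hw w' hw' _ (hp3 w) (by rw [hij]; exact hp1 w')
      subst this
      exact absurd hij.symm (hdist w hw).2.1
    · have := hsep w hw w' hw' _ (hp3 w) (by rw [hij]; exact hp3 w')
      rw [hi, hj, this]
    · exact absurd (hTsub w hw _ (hp3 w)) (by rw [hij]; exact (hM1 f hf).2.2.2.1)
    · exact absurd (hTsub w' hw' _ (hp1 w')) (by rw [← hij]; exact (hM1 e he).2.2.2.1)
    · exact absurd (hTsub w' hw' _ (hp3 w')) (by rw [← hij]; exact (hM1 e he).2.2.2.1)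
    · by_contra hc
      have hef : e ≠ f := by
        rintro rfl
        exact hc (hi.trans hj.symm)
      exact (hM2 e he f hf hef).2.2.1 hij
  · intro i j hij
    rcases hsum i with ⟨w, hw, ⟨hi, -, e1⟩ | ⟨hi, -, e1⟩⟩ | ⟨e, he, hi, -, e1⟩ <;>
    rcases hsum j with ⟨w', hw', ⟨hj, -, f1⟩ | ⟨hj, -, f1⟩⟩ | ⟨f, hf, hj, -, f1⟩ <;>
    rw [e1, f1] at hij
    · have := hsep w hw w' hw' _ (hp2 w) (by rw [hij]; exact hp2 w')
      rw [hi, hj, this]
    · have := hsep w hw w' hw' _ (hp2 w) (by rw [hij]; exact hp4 w')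
      subst this
      exact absurd hij (hdist w hw).2.2.2.2.1
    · exact absurd (hTsub w hw _ (hp2 w)) (by rw [hij]; exact (hM1 f hf).2.2.2.2)
    · have := hsep w hw w' hw' _ (hp4 w) (by rw [hij]; exact hp2 w')
      subst this
      exact absurd hij.symm (hdist w hw).2.2.2.2.1
    · have := hsep w hw w' hw' _ (hp4 w) (by rw [hij]; exact hp4 w')
      rw [hi, hj, this]
    · exact absurd (hTsub w hw _ (hp4 w)) (by rw [hij]; exact (hM1 f hf).2.2.2.2)
    · exact absurd (hTsub w' hw' _ (hp2 w')) (by rw [← hij]; exact (hM1 e he).2.2.2.2)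
    · exact absurd (hTsub w' hw' _ (hp4 w')) (by rw [← hij]; exact (hM1 e he).2.2.2.2)
    · by_contra hc
      have hef : e ≠ f := by
        rintro rfl
        exact hc (hi.trans hj.symm)
      exact (hM2 e he f hf hef).2.2.2.2 hij
  · intro i j hij
    rcases hsum i with ⟨w, hw, ⟨hi, e1, -⟩ | ⟨hi, e1, -⟩⟩ | ⟨e, he, hi, e1, -⟩ <;>
    rcases hsum j with ⟨w', hw', ⟨hj, -, f1⟩ | ⟨hj, -, f1⟩⟩ | ⟨f, hf, hj, -, f1⟩ <;>
    rw [e1, f1] at hij
    · have := hsep w hw w' hw' _ (hp1 w) (by rw [hij]; exact hp2 w')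
      subst this
      exact (hdist w hw).1 hij
    · have := hsep w hw w' hw' _ (hp1 w) (by rw [hij]; exact hp4 w')
      subst this
      exact (hdist w hw).2.2.1 hij
    · exact absurd (hTsub w hw _ (hp1 w)) (by rw [hij]; exact (hM1 f hf).2.2.2.2)
    · have := hsep w hw w' hw' _ (hp3 w) (by rw [hij]; exact hp2 w')
      subst this
      exact (hdist w hw).2.2.2.1 hij.symm
    · have := hsep w hw w' hw' _ (hp3 w) (by rw [hij]; exact hp4 w')
      subst this
      exact (hdist w hw).2.2.2.2.2 hij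
    · exact absurd (hTsub w hw _ (hp3 w)) (by rw [hij]; exact (hM1 f hf).2.2.2.2)
    · exact absurd (hTsub w' hw' _ (hp2 w')) (by rw [← hij]; exact (hM1 e he).2.2.2.1)
    · exact absurd (hTsub w' hw' _ (hp4 w')) (by rw [← hij]; exact (hM1 e he).2.2.2.1)
    · by_cases hef : e = f
      · subst hef
        exact (hM1 e he).1 hij
      · exact (hM2 e he f hf hef).2.2.2.1 hij

end Pool.Agent.AMC
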