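import Pool.Agent.AMC.PM2
import Pool.Agent.AMC.PM3

/-!
# Case 3: the pair matching theorem
-/

set_option autoImplicit false
set_option linter.unusedSectionVars false
set_option linter.unusedVariables false

namespace Pool.Agent.AMC

open Finset Pool.Agent.MP9a04dc

/-- **Pair matching.** `AMB.machine` with `r = 4`, `C = 10`, `γ = 1/4`, `d` small (`|V| ≤ 102 q`), then
`pm_finish` with `b = ⌊q / 2000⌋`. -/
theorem pair_matching : ∃ ε > 0, ∃ q0 : ℕ, ∀ (q p : ℕ) [NeZero p] (c c' : Fin q → ZMod p)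
    (lo N σ : ℕ) (Λ : Finset ℕ) (Y : Finset (ZMod p)), q0 ≤ q → PMH q p c c' lo N σ Λ Y ε →
    ∃ φ : Fin q → ℕ, (∀ i, φ i ∈ Λ ∨ (φ i ≤ σ ∧ σ - φ i ∈ Λ)) ∧
      (∀ i j, φ i = φ j → i = j) ∧ (∀ i j, φ i + φ j ≠ σ) ∧
      (∀ i, c i + (φ i : ZMod p) ∉ Y ∧ c' i + (σ : ZMod p) - φ i ∉ Y) ∧
      (∀ i j, c i + (φ i : ZMod p) = c j + φ j → i = j) ∧
      (∀ i j, c' i + (σ : ZMod p) - φ i = c' j + σ - φ j → i = j) ∧
      (∀ i j, c i + (φ i : ZMod p) ≠ c' j + σ - φ j) := by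
  obtain ⟨κ, hκ, c₀, hc₀, n₀, H⟩ := Pool.Agent.AMB.machine 4 (C := 10) (γ := 1 / 4)
    (d := 1 / 10 ^ 8) (by norm_num) (by norm_num) (by norm_num)
  obtain ⟨q1, hq1⟩ := exists_nat_gt (8 / κ)
  obtain ⟨q2, hq2⟩ := exists_nat_gt (15000 / c₀ ^ 4)
  refine ⟨min κ (1 / 10 ^ 6), lt_min hκ (by norm_num), n₀ + q1 + q2 + 10 ^ 6, ?_⟩
  intro q p _ c c' lo N σ Λ Y hq h
  have hε0 : 0 < min κ (1 / 10 ^ 6 : ℝ) := lt_min hκ (by norm_num)
  have hεκ : min κ (1 / 10 ^ 6 : ℝ) ≤ κ := min_le_left _ _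
  have hε6 : min κ (1 / 10 ^ 6 : ℝ) ≤ 1 / 10 ^ 6 := min_le_right _ _
  generalize min κ (1 / 10 ^ 6 : ℝ) = ε at *
  have hε : ε ≤ 1 / 100 := hε6.trans (by norm_num)
  have hq' : (10 ^ 6 : ℕ) ≤ q := by omega
  have hqn : n₀ ≤ q := by omega
  have hqq1 : q1 ≤ q := by omega
  have hqq2 : q2 ≤ q := by omega
  have hqpos : 0 < q := by omega
  have hqR : (10 ^ 6 : ℝ) ≤ q := by exact_mod_cast hq'
  have hq0R : (0 : ℝ) < q := by exact_mod_cast hqpos
  have hpR : (p : ℝ) ≤ 100 * q := by exact_mod_cast h.hpq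
  -- the cardinality of the vertex set
  have hV : Fintype.card (PV q p Λ) = q + (q + p) := by
    rw [Fintype.card_sum, Fintype.card_sum, Fintype.card_fin, ZMod.card, Fintype.card_coe, h.cardΛ]
  have hVR : (Fintype.card (PV q p Λ) : ℝ) = 2 * q + p := by
    rw [hV]; push_cast; ring
  have hV1 : (Fintype.card (PV q p Λ) : ℝ) ≤ 102 * q := by rw [hVR]; linarith
  have hV2 : 2 * (q : ℝ) ≤ (Fintype.card (PV q p Λ) : ℝ) := by
    rw [hVR]
    have : (0 : ℝ) ≤ p := Nat.cast_nonneg _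
    linarith
  -- the data
  have hAM := pm_amplus h hqpos hε0 hε
  have hκ8 : max ε (8 / (q : ℝ)) ≤ κ := by
    refine max_le hεκ ?_
    rw [div_le_iff₀ hq0R]
    rw [div_lt_iff₀ hκ] at hq1
    have h1 : (q1 : ℝ) ≤ q := by exact_mod_cast hqq1
    nlinarith
  have hAM' : Pool.Agent.AMB.AMPlus (pvs c c' σ) (px c c' σ Y : PE q Λ → ℝ) (pOm Λ q Y)
      (pA c c' σ Y) (pP c c' σ) 4 10 (1 / 4) κ := by
    refine ⟨⟨hAM.good.nonneg, hAM.good.deg_le, fun u v huv => (hAM.good.codeg_le u v huv).trans hκ8,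
      hAM.good.card_le, hAM.good.nonempty⟩, hAM.slack, hAM.P_sub, hAM.P_card, hAM.P_disj,
      hAM.P_codeg⟩
  have hJ : (Fintype.card (PJ p Λ) : ℝ) ≤
      Real.exp (c₀ * (Fintype.card (PV q p Λ) : ℝ)) := by
    have h1 : (Fintype.card (PJ p Λ) : ℝ) = p * (p * q) := by
      rw [Fintype.card_prod, Fintype.card_prod, ZMod.card, Fintype.card_coe, h.cardΛ]
      push_cast
      ring
    have h2 : (p : ℝ) * (p * q) ≤ (100 * q) * ((100 * q) * q) := by
      have hp0 : (0 : ℝ) ≤ p := Nat.cast_nonneg _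
      exact mul_le_mul hpR (mul_le_mul_of_nonneg_right hpR hq0R.le) (by positivity) (by positivity)
    have h3 : Real.exp (2 * c₀ * q) ≤ Real.exp (c₀ * (Fintype.card (PV q p Λ) : ℝ)) := by
      refine Real.exp_le_exp.2 ?_
      have := mul_le_mul_of_nonneg_left hV2 hc₀.le
      linarith
    have h4 : (2 * c₀ * (q : ℝ)) ^ 4 / ((Nat.factorial 4 : ℕ) : ℝ) ≤ Real.exp (2 * c₀ * q) :=
      Real.pow_div_factorial_le_exp _ (by positivity) 4
    have h5 : (100 * (q : ℝ)) * ((100 * q) * q) ≤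
        (2 * c₀ * (q : ℝ)) ^ 4 / ((Nat.factorial 4 : ℕ) : ℝ) := by
      have hf : ((Nat.factorial 4 : ℕ) : ℝ) = 24 := by norm_num [Nat.factorial]
      rw [hf, le_div_iff₀ (by norm_num)]
      have h6 : (15000 : ℝ) ≤ q * c₀ ^ 4 := by
        have h7 : 15000 / c₀ ^ 4 ≤ (q : ℝ) := hq2.le.trans (by exact_mod_cast hqq2)
        rwa [div_le_iff₀ (by positivity)] at h7
      have h8 : (0 : ℝ) < (q : ℝ) ^ 3 := by positivity
      nlinarith [mul_le_mul_of_nonneg_left h6 h8.le]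
    calc (Fintype.card (PJ p Λ) : ℝ) = p * (p * q) := h1
      _ ≤ _ := h2
      _ ≤ _ := h5
      _ ≤ _ := h4
      _ ≤ _ := h3
  obtain ⟨T, hTOm, M, hM0, hMd, hMT, hMc, htest⟩ :=
    H (PE q Λ) (PV q p Λ) (PJ p Λ) (pvs c c' σ) (px c c' σ Y) (pOm Λ q Y) (pA c c' σ Y)
      (pP c c' σ) hAM' hJ (by rw [hV]; omega)
  -- the reserved sums
  classical
  have hmin : (min (1 / 4 : ℝ) (1 / 2)) ^ 4 = 1 / 256 := by
    rw [min_eq_left (by norm_num)]; norm_num
  have hMc' : (q : ℝ) - M.card ≤ (2 + 3 / 100) / 10 ^ 6 * q + 1 := by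
    have h1 := pm_sum h hqpos hε0 (hε.trans (by norm_num))
    have h2 : (1 / 10 ^ 8 : ℝ) * (Fintype.card (PV q p Λ) : ℝ) ≤ 1 / 10 ^ 8 * (102 * q) :=
      mul_le_mul_of_nonneg_left hV1 (by norm_num)
    have h3 : ε * (q : ℝ) ≤ 1 / 10 ^ 6 * q := mul_le_mul_of_nonneg_right hε6 hq0R.le
    have h4 : (1 - ε) * (q : ℝ) = q - ε * q := by ring
    rw [h4] at h1
    norm_num at h2 h3 hMc ⊢
    linarith
  refine pm_finish h (univ.filter fun s => (Sum.inr (Sum.inr s) : PV q p Λ) ∈ T) ?_ M (q / 2000)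
    ?_ ?_ ?_ ?_
  · rw [Finset.disjoint_left]
    intro s hs hsY
    rw [Finset.mem_filter] at hs
    have h1 := hTOm hs.2
    unfold pOm at h1
    rw [Finset.mem_image] at h1
    obtain ⟨t, ht, hts⟩ := h1
    have h2 : t = s := Sum.inr_injective (Sum.inr_injective hts)
    rw [Finset.mem_sdiff] at ht
    exact ht.2 (h2 ▸ hsY)
  · intro e he
    have h1 := hM0 e he
    have h2 : s1 c σ e ≠ s2 c' σ e ∧ s1 c σ e ∉ Y ∧ s2 c' σ e ∉ Y := by
      by_contra hcon
      unfold px at h1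
      rw [if_neg hcon] at h1
      exact lt_irrefl _ h1
    have h3 := Finset.disjoint_left.1 (hMT e he)
    refine ⟨h2.1, h2.2.1, h2.2.2, ?_, ?_⟩
    · intro hs
      rw [Finset.mem_filter] at hs
      exact h3 (by unfold pvs; simp) hs.2
    · intro hs
      rw [Finset.mem_filter] at hs
      exact h3 (by unfold pvs; simp) hs.2
  · intro e he f hf hne
    have h3 := Finset.disjoint_left.1 (hMd e he f hf hne)
    refine ⟨?_, ?_, ?_, ?_, ?_⟩
    · intro heq
      exact h3 (a := Sum.inl e.1) (by unfold pvs; simp) (by unfold pvs; simp [heq])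
    · intro heq
      exact h3 (a := Sum.inr (Sum.inl e.2.1)) (by unfold pvs; simp) (by unfold pvs; simp [heq])
    · intro heq
      exact h3 (a := Sum.inr (Sum.inr (s1 c σ e))) (by unfold pvs; simp)
        (by unfold pvs; simp [heq])
    · intro heq
      exact h3 (a := Sum.inr (Sum.inr (s1 c σ e))) (by unfold pvs; simp)
        (by unfold pvs; simp [heq])
    · intro heq
      exact h3 (a := Sum.inr (Sum.inr (s2 c' σ e))) (by unfold pvs; simp)
        (by unfold pvs; simp [heq])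
  · intro C1 C2 l hl
    have h1 := htest (C1, (C2, ⟨l, hl⟩))
    have h2 := pm_weight h hqpos hε0 hε (C1, (C2, ⟨l, hl⟩))
    rw [hmin] at h1
    have h3 : (1 / 10 ^ 8 : ℝ) * (Fintype.card (PV q p Λ) : ℝ) ≤ 1 / 10 ^ 8 * (102 * q) :=
      mul_le_mul_of_nonneg_left hV1 (by norm_num)
    have h4 : ((q / 2000 : ℕ) : ℝ) ≤ q / 2000 := by
      have := Nat.cast_div_le (α := ℝ) (m := q) (n := 2000)
      exact_mod_cast this
    have h5 : (((M ∩ pA c c' σ Y (C1, (C2, ⟨l, hl⟩))).filter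
        (fun e => pP c c' σ (C1, (C2, ⟨l, hl⟩)) e ⊆ T)).card : ℝ) ≤
        ((M.filter fun e => pnd c c' σ Y C1 C2 l e ∧ ppos c c' σ C1 C2 l e ⊆
          univ.filter fun s => (Sum.inr (Sum.inr s) : PV q p Λ) ∈ T).card : ℝ) := by
      have h6 : ((M ∩ pA c c' σ Y (C1, (C2, ⟨l, hl⟩))).filter
        (fun e => pP c c' σ (C1, (C2, ⟨l, hl⟩)) e ⊆ T)) ⊆
        (M.filter fun e => pnd c c' σ Y C1 C2 l e ∧ ppos c c' σ C1 C2 l e ⊆
          univ.filter fun s => (Sum.inr (Sum.inr s) : PV q p Λ) ∈ T) := by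
        intro e he
        rw [Finset.mem_filter, Finset.mem_inter] at he
        obtain ⟨⟨heM, heA⟩, heT⟩ := he
        unfold pA at heA
        rw [Finset.mem_filter] at heA
        rw [Finset.mem_filter]
        refine ⟨heM, heA.2.2, ?_⟩
        intro s hs
        rw [Finset.mem_filter]
        refine ⟨Finset.mem_univ _, heT ?_⟩
        unfold pP
        exact Finset.mem_image_of_mem _ hs
      exact_mod_cast Finset.card_le_card h6
    have h7 : ((q / 2000 : ℕ) : ℝ) ≤ ((M.filter fun e => pnd c c' σ Y C1 C2 l e ∧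
        ppos c c' σ C1 C2 l e ⊆ univ.filter fun s => (Sum.inr (Sum.inr s) : PV q p Λ) ∈ T).card
          : ℝ) := by
      refine h4.trans (le_trans ?_ h5)
      refine le_trans ?_ h1
      norm_num at h3 ⊢
      linarith
    have h8 := Nat.cast_le.1 h7
    convert h8 using 2
  · rw [Nat.le_div_iff_mul_le (by norm_num)]
    have h1 : ((q - M.card : ℕ) : ℝ) ≤ (2 + 3 / 100) / 10 ^ 6 * q + 1 := by
      rcases le_total M.card q with hle | hle
      · rw [Nat.cast_sub hle]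
        exact hMc'
      · rw [Nat.sub_eq_zero_of_le hle]
        have : (0 : ℝ) ≤ (2 + 3 / 100) / 10 ^ 6 * q + 1 := by positivity
        simpa using this
    have h2 : ((50 * (q - M.card + 1) * 2000 : ℕ) : ℝ) ≤ q := by
      push_cast
      norm_num at h1 ⊢
      linarith
    exact_mod_cast h2

end Pool.Agent.AMC
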