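import Mathlib

/-!
# Case 3: pairing of the slots at the hubs
-/

set_option autoImplicit false

namespace Pool.Agent.AMC

open Finset

/-- the position of an element of a pair -/
private def Pairing_idx {q : ℕ} (i : Fin q) (b : Bool) : Fin (2 * q) :=
  ⟨2 * (i : ℕ) + cond b 1 0, by
    have := i.2
    cases b <;> simp only [cond_true, cond_false] <;> omega⟩

private theorem Pairing_idx_false {q : ℕ} (i : Fin q) :
    ((Pairing_idx i false : Fin (2 * q)) : ℕ) = 2 * (i : ℕ) := by
  simp [Pairing_idx]

private theorem Pairing_idx_true {q : ℕ} (i : Fin q) :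
    ((Pairing_idx i true : Fin (2 * q)) : ℕ) = 2 * (i : ℕ) + 1 := by
  simp [Pairing_idx]

private theorem Pairing_idx_inj {q : ℕ} (i i' : Fin q) (b b' : Bool)
    (h : Pairing_idx i b = Pairing_idx i' b') : i = i' ∧ b = b' := by
  have h1 : ((Pairing_idx i b : Fin (2 * q)) : ℕ) = (Pairing_idx i' b' : Fin (2 * q)) := by rw [h]
  cases b <;> cases b' <;>
    simp only [Pairing_idx_false, Pairing_idx_true] at h1 <;>
    first
      | exact ⟨Fin.ext (by omega), rfl⟩
      | (exfalso; omega)

private theorem Pairing_idx_surj {q : ℕ} (j : Fin (2 * q)) : ∃ i b, Pairing_idx i b = j := by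
  have hj := j.2
  by_cases h : (j : ℕ) % 2 = 0
  · refine ⟨⟨(j : ℕ) / 2, by omega⟩, false, Fin.ext ?_⟩
    rw [Pairing_idx_false]
    change 2 * ((j : ℕ) / 2) = j
    omega
  · refine ⟨⟨(j : ℕ) / 2, by omega⟩, true, Fin.ext ?_⟩
    rw [Pairing_idx_true]
    change 2 * ((j : ℕ) / 2) + 1 = j
    omega

/-- the sorted numbering -/
private theorem Pairing_sorted {R Z : Type*} [Fintype R] [DecidableEq R] [Fintype Z]
    [DecidableEq Z] (p : ℕ) [NeZero p] (c : R → ZMod p) (z : R → Z) (q : ℕ)
    (hR : Fintype.card R = 2 * q) (heven : ∀ y, Even (univ.filter fun v => z v = y).card) :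
    ∃ g : Fin (2 * q) ≃ R,
      (∀ i j, i ≤ j → z (g i) = z (g j) → (c (g i)).val ≤ (c (g j)).val) ∧
      (∀ i : Fin q, z (g (Pairing_idx i false)) = z (g (Pairing_idx i true))) := by
  classical
  let eR : Fin (2 * q) ≃ R := (Fintype.equivFinOfCardEq hR).symm
  let eZ : Z ≃ Fin (Fintype.card Z) := Fintype.equivFin Z
  let key : R → ℕ := fun v => (eZ (z v) : ℕ) * p + (c v).val
  let f : Fin (2 * q) → ℕ := fun j => key (eR j)
  have hmono : Monotone (f ∘ Tuple.sort f) := Tuple.monotone_sort f
  let g : Fin (2 * q) ≃ R := (Tuple.sort f).trans eR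
  have hg : ∀ i j, i ≤ j → key (g i) ≤ key (g j) := fun i j hij => hmono hij
  have hz : ∀ i j, i ≤ j → (eZ (z (g i)) : ℕ) ≤ (eZ (z (g j)) : ℕ) := by
    intro i j hij
    by_contra hcon
    push Not at hcon
    have h1 := hg i j hij
    have h2 : ((eZ (z (g j)) : ℕ) + 1) * p ≤ (eZ (z (g i)) : ℕ) * p :=
      Nat.mul_le_mul_right p hcon
    have h3 := ZMod.val_lt (c (g j))
    have h4 : key (g i) = (eZ (z (g i)) : ℕ) * p + (c (g i)).val := rfl
    have h5 : key (g j) = (eZ (z (g j)) : ℕ) * p + (c (g j)).val := rfl
    rw [Nat.succ_mul] at h2
    omega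
  refine ⟨g, ?_, ?_⟩
  · intro i j hij hzz
    have h1 := hg i j hij
    have h4 : key (g i) = (eZ (z (g i)) : ℕ) * p + (c (g i)).val := rfl
    have h5 : key (g j) = (eZ (z (g j)) : ℕ) * p + (c (g j)).val := rfl
    rw [h4, h5, hzz] at h1
    omega
  · intro i
    by_contra hne
    set a := Pairing_idx i false with ha
    set b := Pairing_idx i true with hb
    have hab : a ≤ b := by
      rw [Fin.le_def, ha, hb, Pairing_idx_false, Pairing_idx_true]
      omega
    have hlt : (eZ (z (g a)) : ℕ) < (eZ (z (g b)) : ℕ) := by
      refine lt_of_le_of_ne (hz a b hab) ?_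
      intro h
      exact hne (eZ.injective (Fin.ext h))
    let k : ℕ := (eZ (z (g a)) : ℕ)
    let S : Finset R := univ.filter fun v => (eZ (z v) : ℕ) ≤ k
    have hS1 : S = (Finset.Iic a).map g.toEmbedding := by
      ext v
      simp only [S, mem_filter, mem_univ, true_and, mem_map, mem_Iic, Equiv.coe_toEmbedding]
      constructor
      · intro hv
        refine ⟨g.symm v, ?_, g.apply_symm_apply v⟩
        by_contra hcon
        have hbj : b ≤ g.symm v := by
          rw [Fin.le_def, hb, Pairing_idx_true]
          rw [Fin.le_def, ha, Pairing_idx_false] at hcon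
          omega
        have h1 := hz b (g.symm v) hbj
        rw [g.apply_symm_apply] at h1
        change (eZ (z v) : ℕ) ≤ (eZ (z (g a)) : ℕ) at hv
        omega
      · rintro ⟨j, hj, rfl⟩
        exact hz j a hj
    have hc1 : S.card = 2 * (i : ℕ) + 1 := by
      rw [hS1, card_map, Fin.card_Iic, ha, Pairing_idx_false]
    have hc2 : Even S.card := by
      have hmaps : ∀ v ∈ S, z v ∈ (univ.filter fun y : Z => (eZ y : ℕ) ≤ k) := by
        intro v hv
        simp only [S, mem_filter, mem_univ, true_and] at hv ⊢
        exact hv
      rw [Finset.card_eq_sum_card_fiberwise hmaps]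
      refine Finset.even_sum _ fun y hy => ?_
      have h1 : S.filter (fun v => z v = y) = univ.filter fun v => z v = y := by
        ext v
        simp only [S, mem_filter, mem_univ, true_and] at hy ⊢
        constructor
        · exact fun h => h.2
        · intro h
          exact ⟨by rw [h]; exact hy, h⟩
      rw [h1]
      exact heven y
    rw [hc1] at hc2
    exact (Nat.not_even_iff_odd.2 ⟨(i : ℕ), rfl⟩) hc2

/-- Pairing. Every fibre of `z : R → Z` (the slots at a hub) has an even number of elements. Sort
every fibre by `(c v).val` and pair the elements number `2 i - 1` and `2 i`. Integer sums of the pairs are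
nondecreasing and equal only if all values `c` in between are equal: at most `μ / 2` pairs of one
hub have the same integer sum, at most `μ` the same sum modulo `p`; at most one pair of a hub
has a difference of the values `≥ p / 2`. `pr i false`, `pr i true` are the two elements of the pair
number `i < q`. -/
theorem exists_pairing {R Z : Type*} [Fintype R] [DecidableEq R] [Fintype Z] [DecidableEq Z]
    (p : ℕ) [NeZero p] (c : R → ZMod p) (z : R → Z) (q μ : ℕ) (hR : Fintype.card R = 2 * q)
    (hμ : 2 ≤ μ) (heven : ∀ y, Even (univ.filter fun v => z v = y).card)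
    (hmult : ∀ y : ZMod p, (univ.filter fun v => c v = y).card ≤ μ) :
    ∃ pr : Fin q → Bool → R, (∀ v, ∃ i b, pr i b = v) ∧
      (∀ i b i' b', pr i b = pr i' b' → i = i' ∧ b = b') ∧
      (∀ i, z (pr i false) = z (pr i true)) ∧
      (∀ i, (c (pr i false)).val ≤ (c (pr i true)).val) ∧
      (∀ y : ZMod p, (univ.filter fun i => c (pr i false) + c (pr i true) = y).card
        ≤ μ * Fintype.card Z) ∧
      (univ.filter fun i => p ≤ 2 * ((c (pr i true)).val - (c (pr i false)).val)).card
        ≤ Fintype.card Z := by
  classical
  obtain ⟨g, hv, hs⟩ := Pairing_sorted p c z q hR heven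
  -- order of the positions of two pairs
  have hord : ∀ i j : Fin q, i < j → Pairing_idx i true ≤ Pairing_idx j false := by
    intro i j hij
    rw [Fin.le_def, Pairing_idx_true, Pairing_idx_false]
    rw [Fin.lt_def] at hij
    omega
  have hft : ∀ i : Fin q, Pairing_idx i false ≤ Pairing_idx i true := by
    intro i
    rw [Fin.le_def, Pairing_idx_true, Pairing_idx_false]
    omega
  let pr : Fin q → Bool → R := fun i b => g (Pairing_idx i b)
  have hprz : ∀ i, z (pr i false) = z (pr i true) := hs
  have hprv : ∀ i, (c (pr i false)).val ≤ (c (pr i true)).val := fun i => hv _ _ (hft i) (hs i)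
  -- four values
  have h4 : ∀ i j : Fin q, i < j → z (pr i false) = z (pr j false) →
      (c (pr i true)).val ≤ (c (pr j false)).val := by
    intro i j hij hzz
    exact hv _ _ (hord i j hij) ((hs i).symm.trans hzz)
  have hinj : ∀ i b i' b', pr i b = pr i' b' → i = i' ∧ b = b' := by
    intro i b i' b' h
    exact Pairing_idx_inj i i' b b' (g.injective h)
  refine ⟨pr, ?_, hinj, hprz, hprv, ?_, ?_⟩
  · intro v
    obtain ⟨i, b, hib⟩ := Pairing_idx_surj (g.symm v)
    exact ⟨i, b, by change g (Pairing_idx i b) = v; rw [hib, g.apply_symm_apply]⟩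
  · intro y
    have hmaps : ∀ i ∈ (univ.filter fun i => c (pr i false) + c (pr i true) = y),
        z (pr i false) ∈ (univ : Finset Z) := fun i _ => mem_univ _
    refine (Finset.card_le_mul_card_image_of_maps_to hmaps μ ?_).trans (le_of_eq ?_)
    · intro y0 _
      -- one integer sum
      have key : ∀ s : ℕ, 2 * ((univ.filter fun i => c (pr i false) + c (pr i true) = y).filter
          (fun i => z (pr i false) = y0 ∧ (c (pr i false)).val + (c (pr i true)).val = s)).card
            ≤ μ := by
        intro s
        set T := (univ.filter fun i => c (pr i false) + c (pr i true) = y).filter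
          (fun i => z (pr i false) = y0 ∧ (c (pr i false)).val + (c (pr i true)).val = s) with hT
        by_cases h1 : T.card ≤ 1
        · omega
        · push Not at h1
          -- all the values are equal
          have hpair : ∀ i ∈ T, ∀ j ∈ T, i < j →
              (c (pr i false)).val = (c (pr i true)).val ∧
              (c (pr j false)).val = (c (pr j true)).val ∧
              (c (pr i false)).val = (c (pr j false)).val := by
            intro i hi j hj hij
            obtain ⟨_, hi1, hi2⟩ := mem_filter.1 hi
            obtain ⟨_, hj1, hj2⟩ := mem_filter.1 hj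
            have e1 := h4 i j hij (hi1.trans hj1.symm)
            have e2 := hprv i
            have e3 := hprv j
            omega
          obtain ⟨i0, hi0, i1, hi1, hne⟩ := Finset.one_lt_card.1 h1
          have hall : ∀ i ∈ T, ∀ b, c (pr i b) = c (pr i0 false) := by
            have h0 : (c (pr i0 false)).val = (c (pr i0 true)).val := by
              rcases lt_or_gt_of_ne hne with h | h
              · exact (hpair i0 hi0 i1 hi1 h).1
              · exact (hpair i1 hi1 i0 hi0 h).2.1
            intro i hi b
            apply ZMod.val_injective p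
            rcases lt_trichotomy i i0 with h | h | h
            · obtain ⟨e1, e2, e3⟩ := hpair i hi i0 hi0 h
              cases b
              · exact e3
              · rw [← e1, e3]
            · subst h
              cases b
              · rfl
              · exact h0.symm
            · obtain ⟨e1, e2, e3⟩ := hpair i0 hi0 i hi h
              cases b
              · exact e3.symm
              · rw [← e2, e3]
          have hc := hmult (c (pr i0 false))
          refine le_trans ?_ hc
          have h2 : 2 * T.card = (T ×ˢ (univ : Finset Bool)).card := by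
            rw [card_product]
            simp [mul_comm]
          rw [h2]
          refine Finset.card_le_card_of_injOn (fun x => pr x.1 x.2) ?_ ?_
          · rintro ⟨i, b⟩ hx
            have hx' : i ∈ T := (mem_product.1 (Finset.mem_coe.1 hx)).1
            rw [Finset.mem_coe, mem_filter]
            exact ⟨mem_univ _, hall i hx' b⟩
          · rintro ⟨i, b⟩ _ ⟨i', b'⟩ _ h
            obtain ⟨e1, e2⟩ := hinj i b i' b' h
            rw [e1, e2]
      have hcov : ((univ.filter fun i => c (pr i false) + c (pr i true) = y).filter
          (fun i => z (pr i false) = y0)) ⊆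
          ((univ.filter fun i => c (pr i false) + c (pr i true) = y).filter
            (fun i => z (pr i false) = y0 ∧ (c (pr i false)).val + (c (pr i true)).val = y.val)) ∪
          ((univ.filter fun i => c (pr i false) + c (pr i true) = y).filter
            (fun i => z (pr i false) = y0 ∧
              (c (pr i false)).val + (c (pr i true)).val = y.val + p)) := by
        intro i hi
        obtain ⟨hi1, hi2⟩ := mem_filter.1 hi
        have hi3 := (mem_filter.1 hi1).2
        have e1 := ZMod.val_add (c (pr i false)) (c (pr i true))
        rw [hi3] at e1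
        have e2 := ZMod.val_lt (c (pr i false))
        have e3 := ZMod.val_lt (c (pr i true))
        have hp : 0 < p := Nat.pos_of_ne_zero (NeZero.ne p)
        by_cases h1 : (c (pr i false)).val + (c (pr i true)).val < p
        · rw [Nat.mod_eq_of_lt h1] at e1
          exact mem_union_left _ (mem_filter.2 ⟨hi1, hi2, e1.symm⟩)
        · push Not at h1
          have e4 : ((c (pr i false)).val + (c (pr i true)).val) % p =
              (c (pr i false)).val + (c (pr i true)).val - p := by
            rw [Nat.mod_eq_sub_mod h1, Nat.mod_eq_of_lt (by omega)]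
          rw [e4] at e1
          exact mem_union_right _ (mem_filter.2 ⟨hi1, hi2, by omega⟩)
      have e1 := (Finset.card_le_card hcov).trans (Finset.card_union_le _ _)
      have e2 := key y.val
      have e3 := key (y.val + p)
      omega
    · rfl
  · have hmaps : ∀ i ∈ (univ.filter fun i => p ≤ 2 * ((c (pr i true)).val -
        (c (pr i false)).val)), z (pr i false) ∈ (univ : Finset Z) := fun i _ => mem_univ _
    refine (Finset.card_le_mul_card_image_of_maps_to hmaps 1 ?_).trans (le_of_eq ?_)
    · intro y0 _
      rw [Finset.card_le_one]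
      have aux : ∀ i ∈ ((univ.filter fun i => p ≤ 2 * ((c (pr i true)).val -
          (c (pr i false)).val)).filter fun i => z (pr i false) = y0),
          ∀ j ∈ ((univ.filter fun i => p ≤ 2 * ((c (pr i true)).val -
          (c (pr i false)).val)).filter fun i => z (pr i false) = y0), ¬ i < j := by
        intro i hi j hj hij
        obtain ⟨hi1, hi2⟩ := mem_filter.1 hi
        obtain ⟨hj1, hj2⟩ := mem_filter.1 hj
        have e1 := (mem_filter.1 hi1).2
        have e2 := (mem_filter.1 hj1).2
        have e3 := h4 i j hij (hi2.trans hj2.symm)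
        have e4 := hprv i
        have e5 := hprv j
        have e6 := ZMod.val_lt (c (pr j true))
        omega
      intro i hi j hj
      rcases lt_trichotomy i j with h | h | h
      · exact absurd h (aux i hi j hj)
      · exact h
      · exact absurd h (aux j hj i hi)
    · rw [one_mul]
      rfl

end Pool.Agent.AMC
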