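import Pool.Agent.AMC.AltSort
import Pool.Agent.AMC.Pairing
import Pool.Agent.AMC.Links
import Pool.Agent.AMC.PM

/-!
# Case 3: the labels of last background edges, slots and special edges
-/

set_option autoImplicit false
set_option linter.unusedVariables false

namespace Pool.Agent.AMC

open Finset

/-- the sums at the hub `i` and at its two special vertices -/
def hubS {p : ℕ} (κ u w bs ψs : ℕ → ZMod p) (α β : ℕ → ℕ) (i : ℕ) : Fin 3 → ZMod p :=
  ![κ i + bs i + ψs i + (α i : ZMod p) + (β i : ZMod p), u i + (α i : ZMod p), w i + (β i : ZMod p)]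

private lemma Core3_pre {h i : ℕ} (hi : i < h) :
    (i + h - 1) % h = if i = 0 then h - 1 else i - 1 := by
  by_cases h0 : i = 0
  · rw [if_pos h0, h0, zero_add]
    exact Nat.mod_eq_of_lt (by omega)
  · rw [if_neg h0]
    have h1 : i + h - 1 = (i - 1) + h := by omega
    rw [h1, Nat.add_mod_right]
    exact Nat.mod_eq_of_lt (by omega)

/-- the lower labels of the pairs that are not used by the links -/
private lemma Core3_lam {q h lo : ℕ} (bb : ℕ → ℕ)
    (hbb1 : ∀ i < h, lo ≤ bb i ∧ bb i < lo + (2 * q + 2 * h))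
    (hbb2 : ∀ i < h, ∀ j < h, bb i = bb j → i = j)
    (hbb3 : ∀ i < h, ∀ j < h, bb i + bb j ≠ 2 * lo + (2 * q + 2 * h) - 1) :
    ∃ Λ : Finset ℕ, Λ.card = q ∧ (∀ x ∈ Λ, lo ≤ x ∧ 2 * x < 2 * lo + (2 * q + 2 * h) - 1) ∧
      ∀ x ∈ Λ, ∀ i < h, x ≠ bb i ∧ x + bb i ≠ 2 * lo + (2 * q + 2 * h) - 1 := by
  classical
  set σ := 2 * lo + (2 * q + 2 * h) - 1 with hσ
  set I : Finset ℕ := (range h).image fun i => min (bb i) (σ - bb i) with hI
  have hIc : I.card = h := by
    rw [hI, card_image_of_injOn, card_range]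
    intro i hi j hj hij
    rw [mem_coe, mem_range] at hi hj
    have h1 : min (bb i) (σ - bb i) = min (bb j) (σ - bb j) := hij
    have h2 := hbb1 i hi
    have h3 := hbb1 j hj
    have h4 := hbb3 i hi j hj
    apply hbb2 i hi j hj
    omega
  have hIs : I ⊆ Ico lo (lo + (q + h)) := by
    intro x hx
    obtain ⟨i, hi, rfl⟩ := mem_image.1 hx
    rw [mem_range] at hi
    have h2 := hbb1 i hi
    have h3 := hbb3 i hi i hi
    rw [mem_Ico]
    omega
  refine ⟨Ico lo (lo + (q + h)) \ I, ?_, ?_, ?_⟩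
  · rw [card_sdiff_of_subset hIs, hIc, Nat.card_Ico]
    omega
  · intro x hx
    have h1 := mem_Ico.1 (mem_sdiff.1 hx).1
    omega
  · intro x hx i hi
    have h1 := mem_Ico.1 (mem_sdiff.1 hx).1
    have h2 := (mem_sdiff.1 hx).2
    have h3 := hbb1 i hi
    constructor
    · intro h4
      apply h2
      refine mem_image.2 ⟨i, mem_range.2 hi, ?_⟩
      show min (bb i) (σ - bb i) = x
      omega
    · intro h4
      apply h2
      refine mem_image.2 ⟨i, mem_range.2 hi, ?_⟩
      show min (bb i) (σ - bb i) = x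
      omega

/-- **Core of Case 3.** Let `N = 2 q + 2 h`, `Mid = {lo, ..., lo + N - 1}`, `σ = 2 lo + N - 1`.
1. `altsort` (`π`, `A`, `B`, the block `Mid`): `b`. Note `2 (N + len) < 20 q = p`.
2. `links` with `κ i + ∑_{yi v = i} b v + (|{v | fi v = i}| / 2) σ` for `κ`, `Y`: labels `α i = b i`,
`β i = σ - b ((i + h - 1) % h)`.
3. `Λ` = the labels `x ∈ Mid` with `2 x < σ` such that `x`, `σ - x` are not labels of step 2 (`q` labels).
4. `exists_pairing` with `c v = π v + b v`, `z v = fi v` (in `Fin h`), `μ = 4`.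
5. `pair_matching` for the pairs, `Y' = Y ∪` (the `3 h` sums of step 2); `load` and `mult` by `altsort`, `psum`
and `diff` by `exists_pairing` (`4 h ≤ ε' q`). The slots of the pair `i` get `φ i` and `σ - φ i`. The sum of
`ψ` over the slots at hub `i` is `(|{v | fi v = i}| / 2) σ`. -/
theorem core3 : ∃ ε : ℝ, 0 < ε ∧ ∃ q0 : ℕ, ∀ (Q : Type) [Fintype Q] [DecidableEq Q] (q h p : ℕ)
    [NeZero p] (fi yi : Q → ℕ) (π : Q → ZMod p) (κ u w : ℕ → ZMod p) (lo0 lo len : ℕ)
    (A B : Finset ℕ) (Y : Finset (ZMod p)), q0 ≤ q → Fintype.card Q = 2 * q → 2 ≤ h →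
    (h : ℝ) ≤ ε * q → (Y.card : ℝ) ≤ ε * q → (∀ v, fi v < h) →
    (∀ i, Even (univ.filter fun v => fi v = i).card) → A.card = q → B.card = q →
    (∀ a ∈ A, lo0 ≤ a ∧ a < lo) → (∀ b ∈ B, lo + (2 * q + 2 * h) ≤ b ∧ b < lo0 + len) →
    len ≤ 5 * q → p = 20 * q →
    ∃ (b ψ : Q → ℕ) (α β : ℕ → ℕ), Function.Injective b ∧ univ.image b = A ∪ B ∧
      (∀ v, lo ≤ ψ v ∧ ψ v < lo + (2 * q + 2 * h)) ∧
      (∀ i < h, lo ≤ α i ∧ α i < lo + (2 * q + 2 * h)) ∧
      (∀ i < h, lo ≤ β i ∧ β i < lo + (2 * q + 2 * h)) ∧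
      Function.Injective ψ ∧ (∀ i < h, ∀ j < h, α i = α j → i = j) ∧
      (∀ i < h, ∀ j < h, β i = β j → i = j) ∧ (∀ i < h, ∀ j < h, α i ≠ β j) ∧
      (∀ v, ∀ i < h, ψ v ≠ α i ∧ ψ v ≠ β i) ∧
      (∀ v, π v + (b v : ZMod p) + (ψ v : ZMod p) ∉ Y) ∧
      (∀ v v', π v + (b v : ZMod p) + (ψ v : ZMod p) = π v' + b v' + ψ v' → v = v') ∧
      ∃ S : ℕ → Fin 3 → ZMod p,
        (S = hubS κ u w (fun i => ∑ v ∈ univ.filter (fun v => yi v = i), (b v : ZMod p))
          (fun i => ∑ v ∈ univ.filter (fun v => fi v = i), (ψ v : ZMod p)) α β) ∧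
        (∀ i < h, ∀ t, S i t ∉ Y) ∧
        (∀ i < h, ∀ j < h, ∀ t t', S i t = S j t' → i = j ∧ t = t') ∧
        ∀ v, ∀ i < h, ∀ t, π v + (b v : ZMod p) + (ψ v : ZMod p) ≠ S i t := by
  classical
  obtain ⟨ε', hε', q0', hPM⟩ := pair_matching
  refine ⟨min (ε' / 4) (1 / 32), lt_min (by positivity) (by norm_num),
    max q0' (max ⌈1 / ε'⌉₊ 40), ?_⟩
  intro Q _ _ q h p _ fi yi π κ u w lo0 lo len A B Y hq hQ hh hhq hYq hfi hev hA hB hA1 hB1 hlen hp
  have hq1 : q0' ≤ q := (le_max_left _ _).trans hq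
  have hq2 : ⌈1 / ε'⌉₊ ≤ q := ((le_max_left _ _).trans (le_max_right _ _)).trans hq
  have hq3 : 40 ≤ q := ((le_max_right _ _).trans (le_max_right _ _)).trans hq
  have hq0R : (0 : ℝ) ≤ q := Nat.cast_nonneg q
  have hh1 : (h : ℝ) ≤ ε' / 4 * q :=
    hhq.trans (mul_le_mul_of_nonneg_right (min_le_left _ _) hq0R)
  have hY1 : (Y.card : ℝ) ≤ ε' / 4 * q :=
    hYq.trans (mul_le_mul_of_nonneg_right (min_le_left _ _) hq0R)
  have hh2 : 32 * h ≤ q := by
    have h1 : (h : ℝ) ≤ 1 / 32 * q :=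
      hhq.trans (mul_le_mul_of_nonneg_right (min_le_right _ _) hq0R)
    have h2 : ((32 * h : ℕ) : ℝ) ≤ (q : ℝ) := by push_cast; linarith
    exact_mod_cast h2
  have hY2 : 32 * Y.card ≤ q := by
    have h1 : (Y.card : ℝ) ≤ 1 / 32 * q :=
      hYq.trans (mul_le_mul_of_nonneg_right (min_le_right _ _) hq0R)
    have h2 : ((32 * Y.card : ℕ) : ℝ) ≤ (q : ℝ) := by push_cast; linarith
    exact_mod_cast h2
  have hεq : 1 ≤ ε' * q := by
    have h1 : 1 / ε' ≤ q := (Nat.le_ceil _).trans (by exact_mod_cast hq2)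
    rw [div_le_iff₀ hε'] at h1
    linarith
  -- step 1
  obtain ⟨b, hb1, hb2, hb3, hb4⟩ := altsort p π q (2 * q + 2 * h) lo lo0 len hQ A B hA hB hA1 hB1
    (by omega)
  -- step 2
  set σ : ℕ := 2 * lo + (2 * q + 2 * h) - 1 with hσ
  obtain ⟨bb, hbb1, hbb2, hbb3, S, hS0, hS1, hS2, hSY, hSinj⟩ := links p h hh
    (fun i => κ i + ∑ v ∈ univ.filter (fun v => yi v = i), (b v : ZMod p) +
      (((univ.filter fun v => fi v = i).card / 2 : ℕ) : ZMod p) * (σ : ZMod p)) u w σ lo
    (2 * q + 2 * h) hσ (by omega) (by omega) Y (by omega)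
  have hbσ : ∀ i < h, bb i ≤ σ := by
    intro i hi
    have := hbb1 i hi
    omega
  have hprelt : ∀ i < h, (i + h - 1) % h < h := fun i _ => Nat.mod_lt _ (by omega)
  have hpreinj : ∀ i < h, ∀ j < h, (i + h - 1) % h = (j + h - 1) % h → i = j := by
    intro i hi j hj hij
    rw [Core3_pre hi, Core3_pre hj] at hij
    split_ifs at hij <;> omega
  -- step 3
  obtain ⟨Λ, hΛ1, hΛ2, hΛ3⟩ := Core3_lam bb hbb1 hbb2 (by rw [← hσ]; exact hbb3)
  rw [← hσ] at hΛ2 hΛ3
  -- step 4
  obtain ⟨pr, hpr1, hpr2, hpr3, hpr4, hpr5, hpr6⟩ := exists_pairing p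
    (fun v => π v + (b v : ZMod p)) (fun v => (⟨fi v, hfi v⟩ : Fin h)) q 4 hQ (by norm_num)
    (by
      intro y
      have h1 := hev y
      have h2 : (univ.filter fun v => (⟨fi v, hfi v⟩ : Fin h) = y) =
          univ.filter fun v => fi v = y := by
        ext v
        simp only [mem_filter, mem_univ, true_and, Fin.ext_iff]
      rw [h2]
      exact h1) hb3
  rw [Fintype.card_fin] at hpr5 hpr6
  -- step 5
  set Ys : Finset (ZMod p) := (univ : Finset (Fin h × Fin 3)).image fun x => S x.1 x.2 with hYs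
  have hYsc : Ys.card ≤ 3 * h := by
    refine card_image_le.trans (le_of_eq ?_)
    rw [card_univ, Fintype.card_prod, Fintype.card_fin, Fintype.card_fin]
    ring
  have hYsm : ∀ i < h, ∀ t, S i t ∈ Ys := fun i hi t =>
    mem_image.2 ⟨(⟨i, hi⟩, t), mem_univ _, rfl⟩
  have hcov : ∀ (s : ZMod p) (v : Q), (∃ x ∈ Λ, π v + (b v : ZMod p) + (x : ZMod p) = s ∨
      π v + (b v : ZMod p) + (σ : ZMod p) - x = s) →
      ∃ x : ℕ, lo ≤ x ∧ x < lo + (2 * q + 2 * h) ∧ π v + (b v : ZMod p) + (x : ZMod p) = s := by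
    rintro s v ⟨x, hx, h1 | h1⟩
    · have h2 := hΛ2 x hx
      exact ⟨x, by omega, by omega, h1⟩
    · have h2 := hΛ2 x hx
      refine ⟨σ - x, by omega, by omega, ?_⟩
      rw [Nat.cast_sub (by omega), ← h1]
      ring
  have hH : PMH q p (fun i => π (pr i false) + (b (pr i false) : ZMod p))
      (fun i => π (pr i true) + (b (pr i true) : ZMod p)) lo (2 * q + 2 * h) σ Λ (Y ∪ Ys) ε' := by
    refine ⟨hΛ1, hσ, by omega, hΛ2, by omega, by omega, ?_, ?_, ?_, hpr4, ?_, ?_⟩
    · intro s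
      have h1 : ((univ.filter fun i : Fin q => ∃ x ∈ Λ,
          π (pr i false) + (b (pr i false) : ZMod p) + (x : ZMod p) = s ∨
          π (pr i false) + (b (pr i false) : ZMod p) + (σ : ZMod p) - x = s).card +
          (univ.filter fun i : Fin q => ∃ x ∈ Λ,
          π (pr i true) + (b (pr i true) : ZMod p) + (x : ZMod p) = s ∨
          π (pr i true) + (b (pr i true) : ZMod p) + (σ : ZMod p) - x = s).card) ≤ q + 1 := by
        refine le_trans ?_ (hb4 s)
        rw [← card_image_of_injOn (f := fun i => pr i false) (fun i _ j _ hij => (hpr2 _ _ _ _ hij).1),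
          ← card_image_of_injOn (f := fun i => pr i true) (fun i _ j _ hij => (hpr2 _ _ _ _ hij).1),
          ← card_union_of_disjoint]
        · refine card_le_card ?_
          intro v hv
          rw [mem_union, mem_image, mem_image] at hv
          rw [mem_filter]
          refine ⟨mem_univ _, ?_⟩
          rcases hv with ⟨i, hi, rfl⟩ | ⟨i, hi, rfl⟩
          · exact hcov s _ (mem_filter.1 hi).2
          · exact hcov s _ (mem_filter.1 hi).2
        · rw [Finset.disjoint_left]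
          intro v hv hv'
          obtain ⟨i, _, hi⟩ := mem_image.1 hv
          obtain ⟨j, _, hj⟩ := mem_image.1 hv'
          have := (hpr2 _ _ _ _ (hi.trans hj.symm)).2
          exact absurd this (by decide)
      have h2 : (((univ.filter fun i : Fin q => ∃ x ∈ Λ,
          π (pr i false) + (b (pr i false) : ZMod p) + (x : ZMod p) = s ∨
          π (pr i false) + (b (pr i false) : ZMod p) + (σ : ZMod p) - x = s).card +
          (univ.filter fun i : Fin q => ∃ x ∈ Λ,
          π (pr i true) + (b (pr i true) : ZMod p) + (x : ZMod p) = s ∨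
          π (pr i true) + (b (pr i true) : ZMod p) + (σ : ZMod p) - x = s).card : ℕ) : ℝ) ≤
          (1 + ε') * q := by
        refine (Nat.cast_le.2 h1).trans ?_
        push_cast
        linarith
      refine le_trans (le_of_eq ?_) h2
      congr
    · intro y
      refine le_trans ?_ (hb3 y)
      rw [← card_image_of_injOn (f := fun i => pr i false) (fun i _ j _ hij => (hpr2 _ _ _ _ hij).1),
        ← card_image_of_injOn (f := fun i => pr i true) (fun i _ j _ hij => (hpr2 _ _ _ _ hij).1),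
        ← card_union_of_disjoint]
      · refine card_le_card ?_
        intro v hv
        rw [mem_union, mem_image, mem_image] at hv
        rw [mem_filter]
        refine ⟨mem_univ _, ?_⟩
        rcases hv with ⟨i, hi, rfl⟩ | ⟨i, hi, rfl⟩
        · exact (mem_filter.1 hi).2
        · exact (mem_filter.1 hi).2
      · rw [Finset.disjoint_left]
        intro v hv hv'
        obtain ⟨i, _, hi⟩ := mem_image.1 hv
        obtain ⟨j, _, hj⟩ := mem_image.1 hv'
        have := (hpr2 _ _ _ _ (hi.trans hj.symm)).2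
        exact absurd this (by decide)
    · intro y
      have h1 : (((univ.filter fun i => π (pr i false) + (b (pr i false) : ZMod p) +
          (π (pr i true) + (b (pr i true) : ZMod p)) = y).card : ℕ) : ℝ) ≤ ((4 * h : ℕ) : ℝ) :=
        Nat.cast_le.2 (hpr5 y)
      push_cast at h1
      linarith
    · have h1 := Nat.cast_le (α := ℝ).2 hpr6
      have h2 : (0 : ℝ) ≤ h := Nat.cast_nonneg h
      linarith
    · have h1 : (((Y ∪ Ys).card : ℕ) : ℝ) ≤ ((Y.card + 3 * h : ℕ) : ℝ) :=
        Nat.cast_le.2 ((card_union_le _ _).trans (by omega))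
      push_cast at h1
      linarith
  obtain ⟨φ, hφ1, hφ2, hφ3, hφ4, hφ5, hφ6, hφ7⟩ := hPM q p _ _ lo (2 * q + 2 * h) σ Λ (Y ∪ Ys) hq1
    hH
  have hφσ : ∀ i, φ i ≤ σ := by
    intro i
    rcases hφ1 i with h1 | h1
    · have := hΛ2 _ h1
      omega
    · exact h1.1
  have hφMid : ∀ i, lo ≤ φ i ∧ φ i < lo + (2 * q + 2 * h) := by
    intro i
    rcases hφ1 i with h1 | h1
    · have := hΛ2 _ h1
      omega
    · have := hΛ2 _ h1.2
      omega
  have hφbb : ∀ i, ∀ j < h, φ i ≠ bb j ∧ φ i + bb j ≠ σ := by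
    intro i j hj
    rcases hφ1 i with h1 | h1
    · exact hΛ3 _ h1 j hj
    · have h2 := hΛ3 _ h1.2 j hj
      have h3 := hbσ j hj
      omega
  -- the labels of the slots
  choose idx sd hidx using hpr1
  have hidx1 : ∀ i c, idx (pr i c) = i := fun i c => (hpr2 _ _ _ _ (hidx (pr i c))).1
  have hsd1 : ∀ i c, sd (pr i c) = c := fun i c => (hpr2 _ _ _ _ (hidx (pr i c))).2
  set ψ : Q → ℕ := fun v => if sd v then σ - φ (idx v) else φ (idx v) with hψ
  have hψf : ∀ i, ψ (pr i false) = φ i := by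
    intro i
    show (if sd (pr i false) then σ - φ (idx (pr i false)) else φ (idx (pr i false))) = φ i
    rw [hsd1, hidx1]
    rfl
  have hψt : ∀ i, ψ (pr i true) = σ - φ i := by
    intro i
    show (if sd (pr i true) then σ - φ (idx (pr i true)) else φ (idx (pr i true))) = σ - φ i
    rw [hsd1, hidx1]
    rfl
  have hcase : ∀ v, (∃ i, v = pr i false) ∨ ∃ i, v = pr i true := by
    intro v
    rcases hc : sd v with _ | _
    · left
      exact ⟨idx v, by rw [← hc]; exact (hidx v).symm⟩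
    · right
      exact ⟨idx v, by rw [← hc]; exact (hidx v).symm⟩
  have hψtc : ∀ i, ((ψ (pr i true) : ℕ) : ZMod p) = (σ : ZMod p) - φ i := by
    intro i
    rw [hψt, Nat.cast_sub (hφσ i)]
  -- the sums of the slots at the hubs
  have hprb : Function.Bijective (fun x : Fin q × Bool => pr x.1 x.2) := by
    constructor
    · intro x y hxy
      exact Prod.ext (hpr2 _ _ _ _ hxy).1 (hpr2 _ _ _ _ hxy).2
    · intro v
      exact ⟨(idx v, sd v), hidx v⟩
  have hfieq : ∀ i, fi (pr i true) = fi (pr i false) := fun i =>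
    (congrArg (fun x : Fin h => (x : ℕ)) (hpr3 i)).symm
  have hψs : ∀ i, ∑ v ∈ univ.filter (fun v => fi v = i), (ψ v : ZMod p) =
      (((univ.filter fun v => fi v = i).card / 2 : ℕ) : ZMod p) * (σ : ZMod p) := by
    intro i
    have h1 : ∑ v ∈ univ.filter (fun v => fi v = i), (ψ v : ZMod p) =
        ((univ.filter fun j : Fin q => fi (pr j false) = i).card : ZMod p) * (σ : ZMod p) := by
      rw [sum_filter, ← (Equiv.ofBijective _ hprb).sum_comp, Fintype.sum_prod_type]
      have h2 : ∀ j : Fin q, (∑ c : Bool, if fi ((Equiv.ofBijective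
          (fun x : Fin q × Bool => pr x.1 x.2) hprb) (j, c)) = i then
          (ψ ((Equiv.ofBijective (fun x : Fin q × Bool => pr x.1 x.2) hprb) (j, c)) : ZMod p)
          else 0) = if fi (pr j false) = i then (σ : ZMod p) else 0 := by
        intro j
        rw [Fintype.sum_bool]
        show ((if fi (pr j true) = i then ((ψ (pr j true) : ℕ) : ZMod p) else 0) +
          if fi (pr j false) = i then ((ψ (pr j false) : ℕ) : ZMod p) else 0) = _
        rw [hfieq, hψtc, hψf]
        by_cases h3 : fi (pr j false) = i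
        · rw [if_pos h3, if_pos h3, if_pos h3]
          ring
        · rw [if_neg h3, if_neg h3, if_neg h3, add_zero]
      rw [sum_congr rfl fun j _ => h2 j, ← sum_filter, sum_const, nsmul_eq_mul]
    have h4 : (univ.filter fun v => fi v = i).card =
        2 * (univ.filter fun j : Fin q => fi (pr j false) = i).card := by
      rw [card_filter, card_filter, ← (Equiv.ofBijective _ hprb).sum_comp, Fintype.sum_prod_type,
        mul_sum]
      refine sum_congr rfl fun j _ => ?_
      rw [Fintype.sum_bool]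
      show ((if fi (pr j true) = i then 1 else 0) + if fi (pr j false) = i then 1 else 0) = _
      rw [hfieq]
      by_cases h3 : fi (pr j false) = i
      · rw [if_pos h3]
        norm_num
      · rw [if_neg h3]
        norm_num
    rw [h1, h4, Nat.mul_div_cancel_left _ (by norm_num : 0 < 2)]
  -- sums
  have hsum : ∀ v, π v + (b v : ZMod p) + (ψ v : ZMod p) ∉ Y ∪ Ys := by
    intro v
    rcases hcase v with ⟨i, rfl⟩ | ⟨i, rfl⟩
    · rw [hψf]
      exact (hφ4 i).1
    · rw [hψtc]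
      have h1 := (hφ4 i).2
      rwa [add_sub_assoc] at h1
  have hSeq : ∀ i < h, ∀ t, hubS κ u w (fun i => ∑ v ∈ univ.filter (fun v => yi v = i),
      (b v : ZMod p)) (fun i => ∑ v ∈ univ.filter (fun v => fi v = i), (ψ v : ZMod p)) bb
      (fun i => σ - bb ((i + h - 1) % h)) i t = S i t := by
    intro i hi t
    have hβc : ((σ - bb ((i + h - 1) % h) : ℕ) : ZMod p) =
        (σ : ZMod p) - (bb ((i + h - 1) % h) : ZMod p) := Nat.cast_sub (hbσ _ (hprelt i hi))
    fin_cases t
    · show κ i + (∑ v ∈ univ.filter (fun v => yi v = i), (b v : ZMod p)) +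
        (∑ v ∈ univ.filter (fun v => fi v = i), (ψ v : ZMod p)) + (bb i : ZMod p) +
        ((σ - bb ((i + h - 1) % h) : ℕ) : ZMod p) = S i 0
      rw [hS0 i hi, hβc, hψs]
      ring
    · show u i + (bb i : ZMod p) = S i 1
      rw [hS1 i hi]
    · show w i + ((σ - bb ((i + h - 1) % h) : ℕ) : ZMod p) = S i 2
      rw [hS2 i hi, hβc]
      ring
  refine ⟨b, ψ, bb, fun i => σ - bb ((i + h - 1) % h), hb1, hb2, ?_, hbb1, ?_, ?_, hbb2, ?_, ?_, ?_,
    ?_, ?_, _, rfl, ?_, ?_, ?_⟩
  · intro v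
    rcases hcase v with ⟨i, rfl⟩ | ⟨i, rfl⟩
    · rw [hψf]
      exact hφMid i
    · rw [hψt]
      have := hφMid i
      omega
  · intro i hi
    have h1 := hbb1 _ (hprelt i hi)
    show lo ≤ σ - bb ((i + h - 1) % h) ∧ σ - bb ((i + h - 1) % h) < lo + (2 * q + 2 * h)
    omega
  · intro v v' hvv
    rcases hcase v with ⟨i, rfl⟩ | ⟨i, rfl⟩ <;> rcases hcase v' with ⟨j, rfl⟩ | ⟨j, rfl⟩
    · rw [hψf, hψf] at hvv
      rw [hφ2 i j hvv]
    · rw [hψf, hψt] at hvv
      have h1 := hφ3 i j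
      have h2 := hφσ j
      omega
    · rw [hψf, hψt] at hvv
      have h1 := hφ3 i j
      have h2 := hφσ i
      omega
    · rw [hψt, hψt] at hvv
      have h1 := hφσ i
      have h2 := hφσ j
      rw [hφ2 i j (by omega)]
  · intro i hi j hj hij
    have hij' : σ - bb ((i + h - 1) % h) = σ - bb ((j + h - 1) % h) := hij
    have h1 := hbσ _ (hprelt i hi)
    have h2 := hbσ _ (hprelt j hj)
    exact hpreinj i hi j hj (hbb2 _ (hprelt i hi) _ (hprelt j hj) (by omega))
  · intro i hi j hj hij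
    have hij' : bb i = σ - bb ((j + h - 1) % h) := hij
    have h1 := hbσ _ (hprelt j hj)
    have h2 := hbb3 i hi _ (hprelt j hj)
    omega
  · intro v i hi
    have h3 := hbσ _ (hprelt i hi)
    show ψ v ≠ bb i ∧ ψ v ≠ σ - bb ((i + h - 1) % h)
    rcases hcase v with ⟨j, rfl⟩ | ⟨j, rfl⟩
    · rw [hψf]
      have h1 := hφbb j i hi
      have h2 := hφbb j _ (hprelt i hi)
      omega
    · rw [hψt]
      have h1 := hφbb j i hi
      have h2 := hφbb j _ (hprelt i hi)
      have h4 := hφσ j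
      omega
  · intro v hv
    exact hsum v (mem_union_left _ hv)
  · intro v v' hvv
    rcases hcase v with ⟨i, rfl⟩ | ⟨i, rfl⟩ <;> rcases hcase v' with ⟨j, rfl⟩ | ⟨j, rfl⟩
    · rw [hψf, hψf] at hvv
      rw [hφ5 i j hvv]
    · rw [hψf, hψtc] at hvv
      exfalso
      refine hφ7 i j ?_
      rw [hvv]; ring
    · rw [hψf, hψtc] at hvv
      exfalso
      refine hφ7 j i ?_
      rw [← hvv]; ring
    · rw [hψtc, hψtc] at hvv
      have h1 : π (pr i true) + (b (pr i true) : ZMod p) + (σ : ZMod p) - φ i =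
          π (pr j true) + (b (pr j true) : ZMod p) + (σ : ZMod p) - φ j := by
        rw [add_sub_assoc, hvv]; ring
      rw [hφ6 i j h1]
  · intro i hi t
    rw [hSeq i hi t]
    exact hSY i hi t
  · intro i hi j hj t t' htt
    rw [hSeq i hi t, hSeq j hj t'] at htt
    exact hSinj i hi j hj t t' htt
  · intro v i hi t h1
    rw [hSeq i hi t] at h1
    apply hsum v
    rw [h1]
    exact mem_union_right _ (hYsm i hi t)

end Pool.Agent.AMC
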