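import Mathlib

/-!
# Case 3: deficiency version of Hall's theorem
-/

set_option autoImplicit false

namespace Pool.Agent.AMC

open Finset

/-- Choose `Q : Finset Z` maximizing `k * |Q| - |N(Q)|` (in `ℤ`), `Zb = Qᶜ`, `P' = N(Q)ᶜ`.
`|N(Q)| ≤ k * |Q|` (compare with `Q = ∅`), and Hall's condition holds for `Zb × Fin k` and the
neighbours in `P'` (compare with `Q ∪ A`). -/
theorem hall_def {Z P : Type*} [Fintype Z] [DecidableEq Z] [Fintype P] [DecidableEq P] [Nonempty P]
    (adj : Z → P → Prop) (k : ℕ) :
    ∃ (Zb : Finset Z) (P' : Finset P), (univ \ P').card ≤ k * Fintype.card Z ∧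
      (∀ v ∈ P', ∀ z, adj z v → z ∈ Zb) ∧
      ∃ s : Z → Fin k → P, (∀ z ∈ Zb, ∀ i, s z i ∈ P' ∧ adj z (s z i)) ∧
        ∀ z ∈ Zb, ∀ z' ∈ Zb, ∀ i i', s z i = s z' i' → z = z' ∧ i = i' := by
  classical
  let N : Finset Z → Finset P := fun Q => univ.filter (fun v => ∃ z ∈ Q, adj z v)
  have hN : ∀ Q v, v ∈ N Q ↔ ∃ z ∈ Q, adj z v := by
    intro Q v
    simp [N]
  let f : Finset Z → ℤ := fun Q => (k : ℤ) * Q.card - (N Q).card
  obtain ⟨Q, -, hQ⟩ := Finset.exists_max_image (univ : Finset (Finset Z)) f ⟨∅, mem_univ _⟩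
  have hQ' : ∀ R, f R ≤ f Q := fun R => hQ R (mem_univ _)
  have hN0 : N ∅ = ∅ := by
    ext v
    simp [hN]
  have h0 : (N Q).card ≤ k * Q.card := by
    have h1 := hQ' ∅
    simp only [f, hN0, card_empty, Nat.cast_zero, mul_zero, sub_zero] at h1
    have h2 : ((N Q).card : ℤ) ≤ ((k * Q.card : ℕ) : ℤ) := by
      push_cast
      linarith
    exact_mod_cast h2
  let Zb : Finset Z := univ \ Q
  let P' : Finset P := univ \ N Q
  have hZb : ∀ z, z ∈ Zb ↔ z ∉ Q := by
    intro z
    simp [Zb]
  have hP' : ∀ v, v ∈ P' ↔ v ∉ N Q := by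
    intro v
    simp [P']
  have hPc : univ \ P' = N Q := by
    ext v
    simp [P']
  refine ⟨Zb, P', ?_, ?_, ?_⟩
  · rw [hPc]
    refine h0.trans (Nat.mul_le_mul_left k ?_)
    exact card_le_univ Q
  · intro v hv z hz
    rw [hZb]
    intro hzQ
    rw [hP'] at hv
    exact hv ((hN Q v).2 ⟨z, hzQ, hz⟩)
  · let t : {z // z ∈ Zb} × Fin k → Finset P := fun x => P'.filter (fun v => adj x.1.1 v)
    have hall : ∀ A : Finset ({z // z ∈ Zb} × Fin k), A.card ≤ (A.biUnion t).card := by
      intro A
      let B : Finset Z := A.image (fun x => x.1.1)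
      have hB : ∀ z ∈ B, z ∈ Zb := by
        intro z hz
        simp only [B, mem_image] at hz
        obtain ⟨x, -, rfl⟩ := hz
        exact x.1.2
      have hAB : A.card ≤ k * B.card := by
        have h1 : A.card ≤ (B ×ˢ (univ : Finset (Fin k))).card := by
          refine card_le_card_of_injOn (fun x => (x.1.1, x.2)) ?_ ?_
          · intro x hx
            simp only [coe_product, coe_univ, Set.mem_prod, Set.mem_univ, and_true, mem_coe, B,
              mem_image]
            exact ⟨x, hx, rfl⟩
          · intro x _ y _ hxy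
            simp only [Prod.mk.injEq] at hxy
            exact Prod.ext (Subtype.ext hxy.1) hxy.2
        rw [card_product, card_univ, Fintype.card_fin] at h1
        rw [Nat.mul_comm]
        exact h1
      have hdis : Disjoint Q B := by
        rw [disjoint_left]
        intro z hz hz'
        exact (hZb z).1 (hB z hz') hz
      have hcard : (Q ∪ B).card = Q.card + B.card := card_union_of_disjoint hdis
      have hNU : N (Q ∪ B) ⊆ N Q ∪ A.biUnion t := by
        intro v hv
        rw [hN] at hv
        obtain ⟨z, hz, hzv⟩ := hv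
        rw [mem_union]
        by_cases hvQ : v ∈ N Q
        · exact Or.inl hvQ
        · right
          have hzQ : z ∉ Q := fun h => hvQ ((hN Q v).2 ⟨z, h, hzv⟩)
          have hzB : z ∈ B := by
            rcases mem_union.1 hz with h | h
            · exact absurd h hzQ
            · exact h
          simp only [B, mem_image] at hzB
          obtain ⟨x, hx, rfl⟩ := hzB
          rw [mem_biUnion]
          refine ⟨x, hx, ?_⟩
          simp only [t, mem_filter]
          exact ⟨(hP' v).2 hvQ, hzv⟩
      have h3 : (N (Q ∪ B)).card ≤ (N Q).card + (A.biUnion t).card :=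
        (card_le_card hNU).trans (card_union_le _ _)
      have h4 := hQ' (Q ∪ B)
      simp only [f, hcard] at h4
      push_cast at h4
      have h5 : (k : ℤ) * B.card ≤ ((A.biUnion t).card : ℤ) := by
        have h3' : ((N (Q ∪ B)).card : ℤ) ≤ (N Q).card + (A.biUnion t).card := by
          exact_mod_cast h3
        linarith
      have h6 : k * B.card ≤ (A.biUnion t).card := by exact_mod_cast h5
      exact hAB.trans h6
    obtain ⟨g, hg1, hg2⟩ := (all_card_le_biUnion_card_iff_exists_injective t).1 hall
    let p0 : P := Classical.arbitrary P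
    refine ⟨fun z i => if h : z ∈ Zb then g (⟨z, h⟩, i) else p0, ?_, ?_⟩
    · intro z hz i
      simp only [hz, dif_pos]
      have h1 := hg2 (⟨z, hz⟩, i)
      simp only [t, mem_filter] at h1
      exact h1
    · intro z hz z' hz' i i' h
      simp only [hz, hz', dif_pos] at h
      have h1 := hg1 h
      simp only [Prod.mk.injEq, Subtype.mk.injEq] at h1
      exact h1

end Pool.Agent.AMC
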