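import Mathlib

/-!
# Case 3: parents towards the hubs
-/

set_option autoImplicit false

namespace Pool.Agent.AMC

open Finset

/-- In a graph in which every component meets `Zb` and the vertices of `P'` have neighbours in `Zb` only, every vertex
outside `P'` and `Zb` has a neighbour outside `P'` which is nearer to `Zb`. (`dp` = distance to
`Zb`; if the next vertex `y` on a shortest path from `x` were in `P'`, its neighbour `x` would be in
`Zb`.) -/
theorem exists_par {W : Type*} [Fintype W] [DecidableEq W] (H : SimpleGraph W)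
    (P' Zb : Finset W) (hH : ∀ x, ∃ z ∈ Zb, H.Reachable x z) (hd : Disjoint P' Zb)
    (hP : ∀ v ∈ P', ∀ z, H.Adj v z → z ∈ Zb) :
    ∃ (par : W → W) (dp : W → ℕ), ∀ x, x ∉ P' → x ∉ Zb →
      H.Adj x (par x) ∧ par x ∉ P' ∧ dp (par x) < dp x := by
  classical
  have hex : ∀ x, ∃ n : ℕ, ∃ z ∈ Zb, ∃ p : H.Walk x z, p.length = n := by
    intro x
    obtain ⟨z, hz, ⟨p⟩⟩ := hH x
    exact ⟨p.length, z, hz, p, rfl⟩
  have key : ∀ x, x ∉ Zb → ∃ y, H.Adj x y ∧ Nat.find (hex y) < Nat.find (hex x) := by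
    intro x hx
    obtain ⟨z, hz, p, hp⟩ := Nat.find_spec (hex x)
    cases p with
    | nil => exact absurd hz hx
    | cons h q =>
      rename_i y
      refine ⟨y, h, ?_⟩
      have h1 : Nat.find (hex y) ≤ q.length := Nat.find_min' (hex y) ⟨z, hz, q, rfl⟩
      rw [← hp]
      simp only [SimpleGraph.Walk.length_cons]
      omega
  choose! par hpar using key
  refine ⟨par, fun x => Nat.find (hex x), fun x hxP hxZ => ?_⟩
  obtain ⟨h1, h2⟩ := hpar x hxZ
  exact ⟨h1, fun h3 => hxZ (hP _ h3 _ h1.symm), h2⟩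

end Pool.Agent.AMC
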