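import Pool.Agent.AMC.Stage1
import Pool.Agent.AMC.Core3

/-!
# Case 3: labelling of a configuration
-/

set_option autoImplicit false

namespace Pool.Agent.AMC

open Finset Pool.Agent.AMF

private theorem Lab3_sum_sub {W : Type} {Q : Finset W} [DecidableEq W] {M : Type*}
    [AddCommMonoid M] (k : W → ℕ) (i : ℕ) (F : W → M) :
    ∑ v ∈ (univ : Finset {v // v ∈ Q}).filter (fun v => k v.1 = i), F v.1 =
      ∑ v ∈ Q.filter (fun v => k v = i), F v := by
  rw [sum_filter, sum_filter, ← sum_coe_sort Q (fun v => if k v = i then F v else 0)]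

/-- **Labelling of a configuration.** `p = 20 q`, `t = |Tn|`, `r = |E04 \ E4|`. `stage1` gives `gt`. Then
`core3` for `{v // v ∈ Q}` with `π v = c0 v + ∑_{E04 at v} gt`, `κ i = c0 (hb i) + ∑_{E04 at hb i} gt`,
`u i`, `w i` the same at `sA i`, `sB i`; `lo0 = a + r + 1`, `lo = a + r + q + t + 1`, `len = 4 q + 2 h + t`;
`A` = the `q` labels of `[lo0, lo)` that are not used by the tune edges, `B = [lo + 2 q + 2 h, lo + 3 q + 2 h)`;
`Y` = sums at the vertices of `Tn`. Then `glue`, `glue_inj`, `card_E` (`a + |E| = a + r + t + 4 q + 2 h`). The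
sums are distinct modulo `p` (`sumQ`, `sumT`, `sumA`, `sumB`, `sumH`, `Cfg.cov`). -/
theorem lab3 : ∃ ε : ℝ, 0 < ε ∧ ∃ q0 : ℕ, ∀ (W : Type) [Fintype W] [DecidableEq W]
    (E : Finset (Sym2 W)) (Q Tn : Finset W) (h : ℕ) (hb sA sB : ℕ → W) (fi yi : W → ℕ) (f : W → W)
    (dp : W → ℕ) (q : ℕ), Cfg E Q Tn h hb sA sB fi yi f dp → Q.card = 2 * q → q0 ≤ q → 2 ≤ h →
    (h : ℝ) ≤ ε * q → (Tn.card : ℝ) ≤ ε * q → ∀ (c0 : W → ℕ) (a : ℕ),
    ∃ g : Sym2 W → ℕ, Set.InjOn g E ∧ (∀ e ∈ E, a < g e ∧ g e ≤ a + E.card) ∧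
      Function.Injective (fun w => c0 w + ∑ e ∈ edgesAt E w, g e) := by
  obtain ⟨ε1, hε1, q01, hcore⟩ := core3
  refine ⟨min ε1 (1 / 3), by positivity, q01, ?_⟩
  intro W _ _ E Q Tn h hb sA sB fi yi f dp q hC hQ hq0 hh hhε htε c0 a
  have hq1 : (0 : ℝ) ≤ q := Nat.cast_nonneg q
  have hh1 : (h : ℝ) ≤ ε1 * q :=
    hhε.trans (mul_le_mul_of_nonneg_right (min_le_left _ _) hq1)
  have hh2 : (h : ℝ) ≤ 1 / 3 * q :=
    hhε.trans (mul_le_mul_of_nonneg_right (min_le_right _ _) hq1)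
  have ht1 : (Tn.card : ℝ) ≤ ε1 * q :=
    htε.trans (mul_le_mul_of_nonneg_right (min_le_left _ _) hq1)
  have ht2 : (Tn.card : ℝ) ≤ 1 / 3 * q :=
    htε.trans (mul_le_mul_of_nonneg_right (min_le_right _ _) hq1)
  have hh3 : 3 * h ≤ q := by
    have : (3 : ℝ) * h ≤ q := by linarith
    exact_mod_cast this
  have ht3 : 3 * Tn.card ≤ q := by
    have : (3 : ℝ) * Tn.card ≤ q := by linarith
    exact_mod_cast this
  have hqpos : 0 < q := by omega
  obtain ⟨p, hp⟩ : ∃ p, p = 20 * q := ⟨_, rfl⟩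
  have : NeZero p := ⟨by omega⟩
  obtain ⟨gt, hg1, hg2, hg3, hg4⟩ := stage1 hC p (fun w => (c0 w : ZMod p)) a q (by omega) (by omega)
  set t := Tn.card with ht
  set r := (E04 E Q h hb sA sB fi yi \ E4 Tn f).card with hr
  obtain ⟨hsub, hinj⟩ := tune_sub hC
  have hE4 : (E4 Tn f).card = t := by
    unfold E4
    rw [card_image_of_injOn]
    intro v hv w hw e
    exact hinj v hv w hw e
  -- labels
  obtain ⟨lo0, hlo0⟩ : ∃ lo0, lo0 = a + r + 1 := ⟨_, rfl⟩
  obtain ⟨lo, hlo⟩ : ∃ lo, lo = a + r + q + t + 1 := ⟨_, rfl⟩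
  set A : Finset ℕ := Ico lo0 lo \ (E4 Tn f).image gt with hA
  set B : Finset ℕ := Ico (lo + (2 * q + 2 * h)) (lo + (3 * q + 2 * h)) with hB
  set R : W → ZMod p := fun w => (c0 w : ZMod p) +
    ∑ e ∈ edgesAt (E04 E Q h hb sA sB fi yi) w, (gt e : ZMod p) with hR
  set Y : Finset (ZMod p) := Tn.image R with hY
  have hAcard : A.card = q := by
    rw [hA, card_sdiff_of_subset, Nat.card_Ico, card_image_of_injOn, hE4]
    · omega
    · exact hg1.mono (by exact_mod_cast hsub)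
    · intro x hx
      obtain ⟨e, he, rfl⟩ := mem_image.mp hx
      have := hg3 e he
      rw [mem_Ico]
      omega
  have hBcard : B.card = q := by
    rw [hB, Nat.card_Ico]; omega
  have hYcard : (Y.card : ℝ) ≤ ε1 * q := by
    refine le_trans ?_ ht1
    exact_mod_cast card_image_le
  obtain ⟨b, ψ, α, β, hb1, hb2, hψ1, hα1, hβ1, hψ2, hα2, hβ2, hαβ, hψα, hs1, hs2, S, hS, hs3, hs4,
    hs5⟩ := hcore {v // v ∈ Q} q h p (fun v => fi v.1) (fun v => yi v.1) (fun v => R v.1)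
    (fun i => R (hb i)) (fun i => R (sA i)) (fun i => R (sB i)) lo0 lo (4 * q + 2 * h + t) A B Y hq0
    (by rw [Fintype.card_coe, hQ]) hh hh1 hYcard (fun v => hC.fi_lt v.1 v.2)
    (by
      intro i
      have h1 := hC.even i
      have h2 : ((univ : Finset {v // v ∈ Q}).filter fun v => fi v.1 = i).card =
          (Q.filter fun v => fi v = i).card := by
        rw [card_eq_sum_ones, card_eq_sum_ones]
        exact Lab3_sum_sub fi i (fun _ => 1)
      rw [h2]
      exact h1)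
    hAcard hBcard
    (by
      intro x hx
      rw [hA, mem_sdiff, mem_Ico] at hx
      exact hx.1)
    (by
      intro x hx
      rw [hB, mem_Ico] at hx
      omega)
    (by omega) hp
  -- extension to `W`
  set b' : W → ℕ := fun v => if hv : v ∈ Q then b ⟨v, hv⟩ else 0 with hb'
  set ψ' : W → ℕ := fun v => if hv : v ∈ Q then ψ ⟨v, hv⟩ else 0 with hψ'
  have eb : ∀ v (hv : v ∈ Q), b' v = b ⟨v, hv⟩ := fun v hv => by rw [hb']; exact dif_pos hv
  have eψ : ∀ v (hv : v ∈ Q), ψ' v = ψ ⟨v, hv⟩ := fun v hv => by rw [hψ']; exact dif_pos hv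
  obtain ⟨g, gE, gψ, gb, gα, gβ⟩ := glue hC gt b' ψ' α β
  -- facts on labels
  have fE : ∀ e ∈ E04 E Q h hb sA sB fi yi, (a < gt e ∧ gt e < lo0) ∨
      (lo0 ≤ gt e ∧ gt e < lo ∧ gt e ∉ A) := by
    intro e he
    by_cases h4 : e ∈ E4 Tn f
    · right
      have := hg3 e h4
      refine ⟨by omega, by omega, ?_⟩
      rw [hA, mem_sdiff]
      intro h5
      exact h5.2 (mem_image_of_mem gt h4)
    · left
      have := hg2 e (mem_sdiff.mpr ⟨he, h4⟩)
      omega
  have fb : ∀ v ∈ Q, (b' v ∈ A ∧ lo0 ≤ b' v ∧ b' v < lo) ∨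
      (lo + (2 * q + 2 * h) ≤ b' v ∧ b' v < lo + (3 * q + 2 * h)) := by
    intro v hv
    rw [eb v hv]
    have h1 : b ⟨v, hv⟩ ∈ A ∪ B := by
      rw [← hb2]
      exact mem_image_of_mem b (mem_univ _)
    rcases mem_union.mp h1 with h2 | h2
    · left
      refine ⟨h2, ?_⟩
      rw [hA, mem_sdiff, mem_Ico] at h2
      exact h2.1
    · right
      rw [hB, mem_Ico] at h2
      exact h2
  have fψ : ∀ v ∈ Q, lo ≤ ψ' v ∧ ψ' v < lo + (2 * q + 2 * h) := by
    intro v hv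
    rw [eψ v hv]
    exact hψ1 _
  have ginj : Set.InjOn g E := by
    refine glue_inj hC g b' ψ' α β gψ gb gα gβ ?_ ?_ ?_ hα2 hβ2 ?_ ?_ ?_ ?_ ?_ hαβ
    · intro e he e' he' hee
      rw [gE e he, gE e' he'] at hee
      exact hg1 he he' hee
    · intro v hv w hw e
      rw [eb v hv, eb w hw] at e
      exact congrArg Subtype.val (hb1 e)
    · intro v hv w hw e
      rw [eψ v hv, eψ w hw] at e
      exact congrArg Subtype.val (hψ2 e)
    · intro e he v hv
      rw [gE e he]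
      have h1 := fE e he
      have h2 := fb v hv
      have h3 := fψ v hv
      constructor
      · intro h4
        rw [← h4] at h2
        rcases h1 with h1 | h1 <;> rcases h2 with h2 | h2
        · omega
        · omega
        · exact h1.2.2 h2.1
        · omega
      · intro h4
        rcases h1 with h1 | h1 <;> omega
    · intro e he i hi
      rw [gE e he]
      have h1 := fE e he
      have h2 := hα1 i hi
      have h3 := hβ1 i hi
      rcases h1 with h1 | h1 <;> constructor <;> omega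
    · intro v hv w hw
      have h2 := fb v hv
      have h3 := fψ w hw
      rcases h2 with h2 | h2 <;> omega
    · intro v hv i hi
      have h1 := fb v hv
      have h2 := hα1 i hi
      have h3 := hβ1 i hi
      rcases h1 with h1 | h1 <;> constructor <;> omega
    · intro v hv i hi
      rw [eψ v hv]
      exact hψα _ i hi
  have hcard := card_E hC
  rw [← hr, ← ht, hQ] at hcard
  refine ⟨g, ginj, ?_, ?_⟩
  · intro e he
    rw [hcard]
    rcases edge_cases hC he with h1 | ⟨v, hv, rfl⟩ | ⟨v, hv, rfl⟩ | ⟨i, hi, rfl⟩ | ⟨i, hi, rfl⟩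
    · rw [gE e h1]
      rcases fE e h1 with h2 | h2 <;> omega
    · rw [gψ v hv]
      have := fψ v hv
      omega
    · rw [gb v hv]
      rcases fb v hv with h2 | h2 <;> omega
    · rw [gα i hi]
      have := hα1 i hi
      omega
    · rw [gβ i hi]
      have := hβ1 i hi
      omega
  -- the sums
  have hR' : ∀ w, R w = (c0 w : ZMod p) +
      ((∑ e ∈ edgesAt (E04 E Q h hb sA sB fi yi) w, g e : ℕ) : ZMod p) := by
    intro w
    rw [hR, Nat.cast_sum]
    dsimp only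
    congr 1
    refine sum_congr rfl fun e he => ?_
    rw [gE e (mem_filter.mp he).1]
  have cQ : ∀ v (hv : v ∈ Q), ((c0 v + ∑ e ∈ edgesAt E v, g e : ℕ) : ZMod p) =
      R v + (b ⟨v, hv⟩ : ZMod p) + (ψ ⟨v, hv⟩ : ZMod p) := by
    intro v hv
    rw [sumQ hC g hv, gb v hv, gψ v hv, eb v hv, eψ v hv, hR' v]
    push_cast
    ring
  have cT : ∀ v ∈ Tn, ((c0 v + ∑ e ∈ edgesAt E v, g e : ℕ) : ZMod p) = R v := by
    intro v hv
    rw [sumT hC g hv, hR' v]
    push_cast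
    ring
  have cH : ∀ i < h, ((c0 (hb i) + ∑ e ∈ edgesAt E (hb i), g e : ℕ) : ZMod p) = S i 0 := by
    intro i hi
    have h1 : ∑ v ∈ Q.filter (fun v => yi v = i), g s(v, hb (yi v)) =
        ∑ v ∈ (univ : Finset {v // v ∈ Q}).filter (fun v => yi v.1 = i), b v := by
      rw [← Lab3_sum_sub yi i (fun v => g s(v, hb (yi v)))]
      refine sum_congr rfl fun v _ => ?_
      rw [gb v.1 v.2, eb v.1 v.2]
    have h2 : ∑ v ∈ Q.filter (fun v => fi v = i), g s(v, hb (fi v)) =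
        ∑ v ∈ (univ : Finset {v // v ∈ Q}).filter (fun v => fi v.1 = i), ψ v := by
      rw [← Lab3_sum_sub fi i (fun v => g s(v, hb (fi v)))]
      refine sum_congr rfl fun v _ => ?_
      rw [gψ v.1 v.2, eψ v.1 v.2]
    rw [sumH hC g hi, h1, h2, gα i hi, gβ i hi, hS]
    simp only [hubS, Matrix.cons_val_zero]
    rw [hR' (hb i)]
    push_cast
    ring
  have cA : ∀ i < h, ((c0 (sA i) + ∑ e ∈ edgesAt E (sA i), g e : ℕ) : ZMod p) = S i 1 := by
    intro i hi
    rw [sumA hC g hi, gα i hi, hS]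
    simp only [hubS, Matrix.cons_val_one, Matrix.cons_val_zero]
    rw [hR' (sA i)]
    push_cast
    ring
  have cB : ∀ i < h, ((c0 (sB i) + ∑ e ∈ edgesAt E (sB i), g e : ℕ) : ZMod p) = S i 2 := by
    intro i hi
    rw [sumB hC g hi, gβ i hi, hS]
    simp only [hubS, Matrix.cons_val]
    rw [hR' (sB i)]
    push_cast
    ring
  have cS : ∀ w, (∃ i < h, w = hb i ∨ w = sA i ∨ w = sB i) → ∃ i < h, ∃ t : Fin 3,
      w = (![hb i, sA i, sB i] : Fin 3 → W) t ∧
      ((c0 w + ∑ e ∈ edgesAt E w, g e : ℕ) : ZMod p) = S i t := by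
    rintro w ⟨i, hi, rfl | rfl | rfl⟩
    · exact ⟨i, hi, 0, rfl, cH i hi⟩
    · exact ⟨i, hi, 1, rfl, cA i hi⟩
    · exact ⟨i, hi, 2, rfl, cB i hi⟩
  have hYmem : ∀ v ∈ Tn, R v ∈ Y := fun v hv => mem_image_of_mem R hv
  intro w w' hww
  have hz : ((c0 w + ∑ e ∈ edgesAt E w, g e : ℕ) : ZMod p) =
      ((c0 w' + ∑ e ∈ edgesAt E w', g e : ℕ) : ZMod p) := by
    have : c0 w + ∑ e ∈ edgesAt E w, g e = c0 w' + ∑ e ∈ edgesAt E w', g e := hww
    rw [this]
  rcases hC.cov w with hw | hw | hw <;> rcases hC.cov w' with hw' | hw' | hw'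
  · rw [cQ w hw, cQ w' hw'] at hz
    exact congrArg Subtype.val (hs2 ⟨w, hw⟩ ⟨w', hw'⟩ hz)
  · rw [cQ w hw, cT w' hw'] at hz
    exact absurd (hYmem w' hw') (by rw [← hz]; exact hs1 ⟨w, hw⟩)
  · obtain ⟨i, hi, k, -, e⟩ := cS w' hw'
    rw [cQ w hw, e] at hz
    exact absurd hz (hs5 ⟨w, hw⟩ i hi k)
  · rw [cT w hw, cQ w' hw'] at hz
    exact absurd (hYmem w hw) (by rw [hz]; exact hs1 ⟨w', hw'⟩)
  · rw [cT w hw, cT w' hw'] at hz
    exact hg4 w hw w' hw' hz
  · obtain ⟨i, hi, k, -, e⟩ := cS w' hw'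
    rw [cT w hw, e] at hz
    exact absurd (hYmem w hw) (by rw [hz]; exact hs3 i hi k)
  · obtain ⟨i, hi, k, -, e⟩ := cS w hw
    rw [e, cQ w' hw'] at hz
    exact absurd hz.symm (hs5 ⟨w', hw'⟩ i hi k)
  · obtain ⟨i, hi, k, -, e⟩ := cS w hw
    rw [e, cT w' hw'] at hz
    exact absurd (hYmem w' hw') (by rw [← hz]; exact hs3 i hi k)
  · obtain ⟨i, hi, k, e0, e⟩ := cS w hw
    obtain ⟨j, hj, k', e0', e'⟩ := cS w' hw'
    rw [e, e'] at hz
    obtain ⟨rfl, rfl⟩ := hs4 i hi j hj k k' hz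
    rw [e0, e0']

end Pool.Agent.AMC
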