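import Pool.Agent.AMC.PMDefs

/-!
# Case 3: the hypergraph is good
-/

set_option autoImplicit false
set_option linter.unusedSectionVars false
set_option linter.unusedVariables false

namespace Pool.Agent.AMC

open Finset Pool.Agent.MP9a04dc

variable {q p : ℕ} [NeZero p] {c c' : Fin q → ZMod p} {lo N σ : ℕ} {Λ : Finset ℕ}
  {Y : Finset (ZMod p)} {ε : ℝ}

private theorem PM1_lb_mem (h : PMH q p c c' lo N σ Λ Y ε) (u : {x // x ∈ Λ} × Bool) :
    lo ≤ lb σ u ∧ lb σ u < lo + N := by
  have h1 := h.memΛ u.1.1 u.1.2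
  have h2 := h.hσ
  have h3 := h.hN
  unfold lb
  split_ifs <;> constructor <;> omega

private theorem PM1_lb_inj (h : PMH q p c c' lo N σ Λ Y ε) {u u' : {x // x ∈ Λ} × Bool}
    (hu : lb σ u = lb σ u') : u = u' := by
  obtain ⟨⟨x, hx⟩, o⟩ := u
  obtain ⟨⟨x', hx'⟩, o'⟩ := u'
  have h1 := h.memΛ x hx
  have h1' := h.memΛ x' hx'
  have h2 := h.hσ
  have h3 := h.hN
  have key : x = x' ∧ o = o' := by
    cases o <;> cases o' <;> simp only [lb, if_true, if_false, Bool.false_eq_true] at hu
    · exact ⟨hu, rfl⟩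
    · omega
    · omega
    · exact ⟨by omega, rfl⟩
  obtain ⟨rfl, rfl⟩ := key
  rfl

private theorem PM1_nat_inj (h : PMH q p c c' lo N σ Λ Y ε) {a b : ℕ}
    (ha : lo ≤ a ∧ a < lo + N) (hb : lo ≤ b ∧ b < lo + N)
    (hab : ((2 * a : ℕ) : ZMod p) = ((2 * b : ℕ) : ZMod p)) : a = b := by
  have h1 : ((p : ℕ) : ℤ) ∣ ((2 * b : ℕ) : ℤ) - ((2 * a : ℕ) : ℤ) :=
    Nat.ModEq.dvd ((ZMod.natCast_eq_natCast_iff _ _ _).1 hab)
  have h2 : |((2 * b : ℕ) : ℤ) - ((2 * a : ℕ) : ℤ)| < ((p : ℕ) : ℤ) := by
    have h3 := h.hp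
    rw [abs_lt]
    constructor <;> push_cast <;> omega
  have h3 := Int.eq_zero_of_abs_lt_dvd h1 h2
  push_cast at h3
  omega

private theorem PM1_cast_inj (h : PMH q p c c' lo N σ Λ Y ε) {u u' : {x // x ∈ Λ} × Bool}
    (hu : (lb σ u : ZMod p) = (lb σ u' : ZMod p)) : u = u' := by
  refine PM1_lb_inj h (PM1_nat_inj h (PM1_lb_mem h u) (PM1_lb_mem h u') ?_)
  push_cast
  rw [hu]

private theorem PM1_lb_cast (h : PMH q p c c' lo N σ Λ Y ε) (u : {x // x ∈ Λ} × Bool) :
    (lb σ u : ZMod p) = (u.1.1 : ZMod p) ∨ (lb σ u : ZMod p) = (σ : ZMod p) - (u.1.1 : ZMod p) := by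
  have h1 := h.memΛ u.1.1 u.1.2
  unfold lb
  split_ifs
  · right
    rw [Nat.cast_sub (by omega)]
  · left
    rfl

open Classical in
private theorem PM1_card_s1 (h : PMH q p c c' lo N σ Λ Y ε) (s : ZMod p) :
    (univ.filter fun e : PE q Λ => s1 c σ e = s).card ≤
      (univ.filter fun i => ∃ x ∈ Λ, c i + (x : ZMod p) = s ∨
        c i + (σ : ZMod p) - x = s).card := by
  apply Finset.card_le_card_of_injOn (fun e => e.1)
  · intro e he
    simp only [coe_filter, mem_univ, true_and, Set.mem_ofPred_eq] at he ⊢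
    refine ⟨e.2.1.1, e.2.1.2, ?_⟩
    unfold s1 at he
    rcases PM1_lb_cast h e.2 with h1 | h1
    · left
      rw [← he, h1]
    · right
      rw [← he, h1]
      ring
  · intro e he e' he' hee
    simp only [coe_filter, mem_univ, true_and, Set.mem_ofPred_eq] at he he' hee
    unfold s1 at he he'
    refine Prod.ext hee (PM1_cast_inj h ?_)
    rw [← he', hee] at he
    exact add_left_cancel he

open Classical in
private theorem PM1_card_s2 (h : PMH q p c c' lo N σ Λ Y ε) (s : ZMod p) :
    (univ.filter fun e : PE q Λ => s2 c' σ e = s).card ≤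
      (univ.filter fun i => ∃ x ∈ Λ, c' i + (x : ZMod p) = s ∨
        c' i + (σ : ZMod p) - x = s).card := by
  apply Finset.card_le_card_of_injOn (fun e => e.1)
  · intro e he
    simp only [coe_filter, mem_univ, true_and, Set.mem_ofPred_eq] at he ⊢
    refine ⟨e.2.1.1, e.2.1.2, ?_⟩
    unfold s2 at he
    rcases PM1_lb_cast h e.2 with h1 | h1
    · right
      rw [← he, h1]
    · left
      rw [← he, h1]
      ring
  · intro e he e' he' hee
    simp only [coe_filter, mem_univ, true_and, Set.mem_ofPred_eq] at he he' hee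
    unfold s2 at he he'
    refine Prod.ext hee (PM1_cast_inj h ?_)
    rw [← he', hee] at he
    exact sub_right_injective he

/-- the hyperedges through a sum -/
private theorem PM1_card_sum (h : PMH q p c c' lo N σ Λ Y ε) (s : ZMod p) :
    ((univ.filter fun e : PE q Λ => s1 c σ e = s ∨ s2 c' σ e = s).card : ℝ) ≤ (1 + ε) * q := by
  classical
  have h1 := PM1_card_s1 h s
  have h2 := PM1_card_s2 h s
  have h3 := h.load s
  refine le_trans ?_ h3
  rw [Finset.filter_or]
  refine Nat.cast_le.2 ((Finset.card_union_le _ _).trans ?_)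
  refine le_trans (Nat.add_le_add h1 h2) (le_of_eq ?_)
  congr 1

private theorem PM1_px_nonneg (e : PE q Λ) : 0 ≤ px c c' σ Y e := by
  unfold px
  split_ifs
  · positivity
  · exact le_rfl

private theorem PM1_px_le (e : PE q Λ) : px c c' σ Y e ≤ 1 / (2 * q) := by
  unfold px
  split_ifs
  · exact le_rfl
  · positivity

private theorem PM1_sum_le (P : PE q Λ → Prop) [DecidablePred P] :
    ∑ e : PE q Λ, (if P e then px c c' σ Y e else 0) ≤
      ((univ.filter fun e => P e).card : ℝ) * (1 / (2 * q)) := by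
  rw [← Finset.sum_filter]
  calc ∑ e ∈ univ.filter (fun e => P e), px c c' σ Y e
      ≤ ∑ e ∈ univ.filter (fun e => P e), (1 / (2 * (q : ℝ))) :=
        Finset.sum_le_sum fun e _ => PM1_px_le e
    _ = _ := by rw [Finset.sum_const, nsmul_eq_mul]

private theorem PM1_bound {a : ℝ} {b κ : ℝ} (hq : 0 < q) (h1 : a ≤ b * (1 / (2 * q)))
    (h2 : b ≤ κ * (2 * q)) : a ≤ κ := by
  have hq' : (0 : ℝ) < 2 * q := by positivity
  refine h1.trans ?_
  rw [mul_one_div, div_le_iff₀ hq']
  exact h2

/-- slack of the sums -/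
theorem pm_slack (h : PMH q p c c' lo N σ Λ Y ε) (hq : 0 < q) (hε0 : 0 < ε) (hε : ε ≤ 1 / 4)
    (s : ZMod p) :
    deg (pvs c c' σ) (px c c' σ Y : PE q Λ → ℝ) (Sum.inr (Sum.inr s)) ≤ 1 - 1 / 4 := by
  have hq' : (0 : ℝ) < q := by exact_mod_cast hq
  have h1 : deg (pvs c c' σ) (px c c' σ Y : PE q Λ → ℝ) (Sum.inr (Sum.inr s)) =
      ∑ e : PE q Λ, (if s1 c σ e = s ∨ s2 c' σ e = s then px c c' σ Y e else 0) := by
    unfold deg
    refine Finset.sum_congr rfl fun e _ => ?_
    have : (Sum.inr (Sum.inr s) ∈ pvs c c' σ e) ↔ (s1 c σ e = s ∨ s2 c' σ e = s) := by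
      simp [pvs, eq_comm]
    simp only [this]
  rw [h1]
  refine PM1_bound hq (PM1_sum_le _) ((PM1_card_sum h s).trans ?_)
  nlinarith

private theorem PM1_card_part (hΛ : Λ.card = q) (i : Fin q) :
    (univ.filter fun e : PE q Λ => e.1 = i).card ≤ 2 * q := by
  have h1 : (univ.filter fun e : PE q Λ => e.1 = i).card ≤
      (univ : Finset ({x // x ∈ Λ} × Bool)).card := by
    apply Finset.card_le_card_of_injOn (fun e => e.2)
    · intro e _
      simp
    · intro e he e' he' hee
      simp only [coe_filter, mem_univ, true_and, Set.mem_ofPred_eq] at he he'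
      exact Prod.ext (he.trans he'.symm) hee
  refine h1.trans (le_of_eq ?_)
  rw [Finset.card_univ, Fintype.card_prod, Fintype.card_coe, hΛ, Fintype.card_bool, mul_comm]

private theorem PM1_card_label (u : {x // x ∈ Λ}) :
    (univ.filter fun e : PE q Λ => e.2.1 = u).card ≤ 2 * q := by
  have h1 : (univ.filter fun e : PE q Λ => e.2.1 = u).card ≤
      (univ : Finset (Fin q × Bool)).card := by
    apply Finset.card_le_card_of_injOn (fun e => (e.1, e.2.2))
    · intro e _
      simp
    · intro e he e' he' hee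
      simp only [coe_filter, mem_univ, true_and, Set.mem_ofPred_eq] at he he'
      simp only [Prod.mk.injEq] at hee
      exact Prod.ext hee.1 (Prod.ext (he.trans he'.symm) hee.2)
  refine h1.trans (le_of_eq ?_)
  rw [Finset.card_univ, Fintype.card_prod, Fintype.card_fin, Fintype.card_bool, mul_comm]

private theorem PM1_card_part_label (i : Fin q) (u : {x // x ∈ Λ}) :
    (univ.filter fun e : PE q Λ => e.1 = i ∧ e.2.1 = u).card ≤ 2 := by
  have h1 : (univ.filter fun e : PE q Λ => e.1 = i ∧ e.2.1 = u).card ≤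
      (univ : Finset Bool).card := by
    apply Finset.card_le_card_of_injOn (fun e => e.2.2)
    · intro e _
      simp
    · intro e he e' he' hee
      simp only [coe_filter, mem_univ, true_and, Set.mem_ofPred_eq] at he he'
      exact Prod.ext (he.1.trans he'.1.symm) (Prod.ext (he.2.trans he'.2.symm) hee)
  exact h1

private theorem PM1_card_part_sum (h : PMH q p c c' lo N σ Λ Y ε) (i : Fin q) (s : ZMod p) :
    (univ.filter fun e : PE q Λ => e.1 = i ∧ (s1 c σ e = s ∨ s2 c' σ e = s)).card ≤ 2 := by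
  classical
  have h1 : (univ.filter fun e : PE q Λ => e.1 = i ∧ s1 c σ e = s).card ≤ 1 := by
    rw [Finset.card_le_one]
    intro e he e' he'
    simp only [mem_filter, mem_univ, true_and] at he he'
    obtain ⟨h2, h3⟩ := he
    obtain ⟨h2', h3'⟩ := he'
    unfold s1 at h3 h3'
    refine Prod.ext (h2.trans h2'.symm) (PM1_cast_inj h ?_)
    rw [h2] at h3
    rw [h2', ← h3] at h3'
    exact (add_left_cancel h3').symm
  have h2 : (univ.filter fun e : PE q Λ => e.1 = i ∧ s2 c' σ e = s).card ≤ 1 := by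
    rw [Finset.card_le_one]
    intro e he e' he'
    simp only [mem_filter, mem_univ, true_and] at he he'
    obtain ⟨h2, h3⟩ := he
    obtain ⟨h2', h3'⟩ := he'
    unfold s2 at h3 h3'
    refine Prod.ext (h2.trans h2'.symm) (PM1_cast_inj h ?_)
    rw [h2] at h3
    rw [h2', ← h3] at h3'
    exact (sub_right_injective h3').symm
  have h3 : (univ.filter fun e : PE q Λ => e.1 = i ∧ (s1 c σ e = s ∨ s2 c' σ e = s)) =
      (univ.filter fun e : PE q Λ => e.1 = i ∧ s1 c σ e = s) ∪
      (univ.filter fun e : PE q Λ => e.1 = i ∧ s2 c' σ e = s) := by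
    ext e
    simp only [mem_filter, mem_univ, true_and, mem_union]
    tauto
  rw [h3]
  exact (Finset.card_union_le _ _).trans (by omega)

private theorem PM1_card_label_sum (h : PMH q p c c' lo N σ Λ Y ε) (u : {x // x ∈ Λ})
    (s : ZMod p) :
    (univ.filter fun e : PE q Λ => e.2.1 = u ∧ (s1 c σ e = s ∨ s2 c' σ e = s)).card ≤ 16 := by
  classical
  have hm1 : ∀ y : ZMod p, (univ.filter fun i => c i = y).card ≤ 4 := fun y =>
    le_trans (Nat.le_add_right _ _) (h.mult y)
  have hm2 : ∀ y : ZMod p, (univ.filter fun i => c' i = y).card ≤ 4 := fun y =>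
    le_trans (Nat.le_add_left _ _) (h.mult y)
  have h1 : ∀ o : Bool, (univ.filter fun e : PE q Λ => e.2 = (u, o) ∧ s1 c σ e = s).card ≤ 4 := by
    intro o
    refine le_trans ?_ (hm1 (s - (lb σ (u, o) : ZMod p)))
    apply Finset.card_le_card_of_injOn (fun e => e.1)
    · intro e he
      simp only [coe_filter, mem_univ, true_and, Set.mem_ofPred_eq] at he ⊢
      obtain ⟨he1, he2⟩ := he
      unfold s1 at he2
      rw [← he2, he1]
      ring
    · intro e he e' he' hee
      simp only [coe_filter, mem_univ, true_and, Set.mem_ofPred_eq] at he he'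
      exact Prod.ext hee (he.1.trans he'.1.symm)
  have h2 : ∀ o : Bool, (univ.filter fun e : PE q Λ => e.2 = (u, o) ∧ s2 c' σ e = s).card ≤ 4 := by
    intro o
    refine le_trans ?_ (hm2 (s - (σ : ZMod p) + (lb σ (u, o) : ZMod p)))
    apply Finset.card_le_card_of_injOn (fun e => e.1)
    · intro e he
      simp only [coe_filter, mem_univ, true_and, Set.mem_ofPred_eq] at he ⊢
      obtain ⟨he1, he2⟩ := he
      unfold s2 at he2
      rw [← he2, he1]
      ring
    · intro e he e' he' hee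
      simp only [coe_filter, mem_univ, true_and, Set.mem_ofPred_eq] at he he'
      exact Prod.ext hee (he.1.trans he'.1.symm)
  have h3 : (univ.filter fun e : PE q Λ => e.2.1 = u ∧ (s1 c σ e = s ∨ s2 c' σ e = s)) ⊆
      ((univ.filter fun e : PE q Λ => e.2 = (u, true) ∧ s1 c σ e = s) ∪
       (univ.filter fun e : PE q Λ => e.2 = (u, false) ∧ s1 c σ e = s)) ∪
      ((univ.filter fun e : PE q Λ => e.2 = (u, true) ∧ s2 c' σ e = s) ∪
       (univ.filter fun e : PE q Λ => e.2 = (u, false) ∧ s2 c' σ e = s)) := by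
    rintro ⟨i, v, o⟩ he
    simp only [mem_filter, mem_univ, true_and, mem_union, Prod.mk.injEq] at he ⊢
    obtain ⟨rfl, he⟩ := he
    cases o <;> simp_all
  refine (Finset.card_le_card h3).trans ?_
  refine (Finset.card_union_le _ _).trans ?_
  have h4 := Finset.card_union_le
    (univ.filter fun e : PE q Λ => e.2 = (u, true) ∧ s1 c σ e = s)
    (univ.filter fun e : PE q Λ => e.2 = (u, false) ∧ s1 c σ e = s)
  have h5 := Finset.card_union_le
    (univ.filter fun e : PE q Λ => e.2 = (u, true) ∧ s2 c' σ e = s)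
    (univ.filter fun e : PE q Λ => e.2 = (u, false) ∧ s2 c' σ e = s)
  have h6 := h1 true
  have h7 := h1 false
  have h8 := h2 true
  have h9 := h2 false
  omega

private theorem PM1_card_sum_sum (h : PMH q p c c' lo N σ Λ Y ε) (s s' : ZMod p) (hs : s ≠ s') :
    ((univ.filter fun e : PE q Λ => (s1 c σ e = s ∨ s2 c' σ e = s) ∧
      (s1 c σ e = s' ∨ s2 c' σ e = s')).card : ℝ) ≤ 2 * (ε * q) := by
  classical
  have key : ∀ a b : ZMod p, ((univ.filter fun e : PE q Λ =>
      s1 c σ e = a ∧ s2 c' σ e = b).card : ℝ) ≤ ε * q := by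
    intro a b
    refine le_trans ?_ (h.psum (a + b - (σ : ZMod p)))
    refine Nat.cast_le.2 ?_
    apply Finset.card_le_card_of_injOn (fun e => e.1)
    · intro e he
      simp only [coe_filter, mem_univ, true_and, Set.mem_ofPred_eq] at he ⊢
      obtain ⟨he1, he2⟩ := he
      unfold s1 at he1
      unfold s2 at he2
      rw [← he1, ← he2]
      ring
    · intro e he e' he' hee
      simp only [coe_filter, mem_univ, true_and, Set.mem_ofPred_eq] at he he'
      have h1 := he.1
      have h1' := he'.1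
      unfold s1 at h1 h1'
      refine Prod.ext hee (PM1_cast_inj h ?_)
      simp only at hee
      rw [← h1', hee] at h1
      exact add_left_cancel h1
  have h3 : (univ.filter fun e : PE q Λ => (s1 c σ e = s ∨ s2 c' σ e = s) ∧
      (s1 c σ e = s' ∨ s2 c' σ e = s')) ⊆
      (univ.filter fun e : PE q Λ => s1 c σ e = s ∧ s2 c' σ e = s') ∪
      (univ.filter fun e : PE q Λ => s1 c σ e = s' ∧ s2 c' σ e = s) := by
    intro e he
    simp only [mem_filter, mem_univ, true_and, mem_union] at he ⊢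
    obtain ⟨he1 | he1, he2 | he2⟩ := he
    · exact absurd (he1.symm.trans he2) hs
    · exact Or.inl ⟨he1, he2⟩
    · exact Or.inr ⟨he2, he1⟩
    · exact absurd (he1.symm.trans he2) hs
  have h4 := (Finset.card_le_card h3).trans (Finset.card_union_le _ _)
  have h5 : ((univ.filter fun e : PE q Λ => (s1 c σ e = s ∨ s2 c' σ e = s) ∧
      (s1 c σ e = s' ∨ s2 c' σ e = s')).card : ℝ) ≤
      ((univ.filter fun e : PE q Λ => s1 c σ e = s ∧ s2 c' σ e = s').card : ℝ) +
      ((univ.filter fun e : PE q Λ => s1 c σ e = s' ∧ s2 c' σ e = s).card : ℝ) := by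
    exact_mod_cast h4
  have h6 := key s s'
  have h7 := key s' s
  linarith

private theorem PM1_mem_part (i : Fin q) (e : PE q Λ) :
    (Sum.inl i : PV q p Λ) ∈ pvs c c' σ e ↔ e.1 = i := by
  simp [pvs, eq_comm]

private theorem PM1_mem_label (u : {x // x ∈ Λ}) (e : PE q Λ) :
    (Sum.inr (Sum.inl u) : PV q p Λ) ∈ pvs c c' σ e ↔ e.2.1 = u := by
  simp [pvs, eq_comm]

private theorem PM1_mem_sum (s : ZMod p) (e : PE q Λ) :
    (Sum.inr (Sum.inr s) : PV q p Λ) ∈ pvs c c' σ e ↔ (s1 c σ e = s ∨ s2 c' σ e = s) := by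
  simp [pvs, eq_comm]

/-- Degrees: part and label at most `2 q / (2 q) = 1`; a sum at most `(1 + ε) / 2` (for a given vertex and a
given label there is one hyperedge). Codegrees: (part, label), (part, sum): at most `2 / (2 q)`; (label, sum): at
most `16 / (2 q)` by `mult`; (sum, sum): `c i + c' i = s + s' - σ`, at most `2 ε q / (2 q)`. -/
theorem pm_good (h : PMH q p c c' lo N σ Λ Y ε) (hq : 0 < q) (hε0 : 0 < ε) (hε : ε ≤ 1 / 4) :
    Good (pvs c c' σ) (px c c' σ Y : PE q Λ → ℝ) (max ε (8 / q)) 4 := by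
  have hq' : (0 : ℝ) < q := by exact_mod_cast hq
  have h8 : (0 : ℝ) ≤ 8 / q := by positivity
  have hcard : ∀ (P P' : PE q Λ → Prop) (hP : ∀ e, P e ↔ P' e) [DecidablePred P]
      [DecidablePred P'] (b κ : ℝ) (_ : ((univ.filter fun e => P' e).card : ℝ) ≤ b)
      (_ : b ≤ κ * (2 * q)),
      ∑ e : PE q Λ, (if P e then px c c' σ Y e else 0) ≤ κ := by
    intro P P' hP _ _ b κ h1 h2
    have h3 : (univ.filter fun e => P e) = (univ.filter fun e => P' e) := by
      ext e
      simp [hP]
    refine PM1_bound hq (PM1_sum_le P) ?_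
    rw [h3]
    exact h1.trans h2
  have hmax : (8 / q : ℝ) ≤ max ε (8 / q) := le_max_right _ _
  have hmax0 : (0 : ℝ) ≤ max ε (8 / q) := h8.trans hmax
  -- codegree bounds from natural cardinality bounds up to 16
  have h16 : ∀ n : ℕ, n ≤ 16 → (n : ℝ) ≤ max ε (8 / q) * (2 * q) := by
    intro n hn
    have h1 : (n : ℝ) ≤ 16 := by exact_mod_cast hn
    have h2 : (16 : ℝ) = 8 / q * (2 * q) := by
      field_simp
      norm_num
    refine h1.trans (h2.le.trans ?_)
    exact mul_le_mul_of_nonneg_right hmax (by positivity)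
  refine ⟨PM1_px_nonneg, ?_, ?_, ?_, ?_⟩
  · rintro (i | u | s)
    · refine hcard _ _ (fun e => PM1_mem_part i e) (2 * q) 1 ?_ (by linarith)
      exact_mod_cast PM1_card_part h.cardΛ i
    · refine hcard _ _ (fun e => PM1_mem_label u e) (2 * q) 1 ?_ (by linarith)
      exact_mod_cast PM1_card_label u
    · exact (pm_slack h hq hε0 hε s).trans (by norm_num)
  · -- codegrees
    have c0 : ∀ (P : PE q Λ → Prop) [DecidablePred P], (∀ e, ¬ P e) →
        ∑ e : PE q Λ, (if P e then px c c' σ Y e else 0) ≤ max ε (8 / q) := by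
      intro P _ hP
      rw [Finset.sum_eq_zero]
      · exact hmax0
      · intro e _
        rw [if_neg (hP e)]
    have cpl : ∀ (P : PE q Λ → Prop) [DecidablePred P] (i : Fin q) (u : {x // x ∈ Λ}),
        (∀ e, P e ↔ (e.1 = i ∧ e.2.1 = u)) →
        ∑ e : PE q Λ, (if P e then px c c' σ Y e else 0) ≤ max ε (8 / q) := by
      intro P _ i u hP
      refine hcard _ _ hP _ _ le_rfl (h16 _ ?_)
      exact (PM1_card_part_label i u).trans (by norm_num)
    have cps : ∀ (P : PE q Λ → Prop) [DecidablePred P] (i : Fin q) (s : ZMod p),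
        (∀ e, P e ↔ (e.1 = i ∧ (s1 c σ e = s ∨ s2 c' σ e = s))) →
        ∑ e : PE q Λ, (if P e then px c c' σ Y e else 0) ≤ max ε (8 / q) := by
      intro P _ i s hP
      refine hcard _ _ hP _ _ le_rfl (h16 _ ?_)
      exact (PM1_card_part_sum h i s).trans (by norm_num)
    have cls : ∀ (P : PE q Λ → Prop) [DecidablePred P] (u : {x // x ∈ Λ}) (s : ZMod p),
        (∀ e, P e ↔ (e.2.1 = u ∧ (s1 c σ e = s ∨ s2 c' σ e = s))) →
        ∑ e : PE q Λ, (if P e then px c c' σ Y e else 0) ≤ max ε (8 / q) := by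
      intro P _ u s hP
      refine hcard _ _ hP _ _ le_rfl (h16 _ ?_)
      exact PM1_card_label_sum h u s
    have css : ∀ (P : PE q Λ → Prop) [DecidablePred P] (s s' : ZMod p), s ≠ s' →
        (∀ e, P e ↔ ((s1 c σ e = s ∨ s2 c' σ e = s) ∧ (s1 c σ e = s' ∨ s2 c' σ e = s'))) →
        ∑ e : PE q Λ, (if P e then px c c' σ Y e else 0) ≤ max ε (8 / q) := by
      intro P _ s s' hs hP
      refine hcard _ _ hP _ _ (PM1_card_sum_sum h s s' hs) ?_
      have : ε ≤ max ε (8 / q) := le_max_left _ _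
      nlinarith
    rintro (i | u | s) (i' | u' | s') huv
    · refine c0 _ fun e he => huv ?_
      rw [PM1_mem_part, PM1_mem_part] at he
      rw [← he.1, ← he.2]
    · exact cpl _ i u' fun e => by rw [PM1_mem_part, PM1_mem_label]
    · exact cps _ i s' fun e => by rw [PM1_mem_part, PM1_mem_sum]
    · exact cpl _ i' u fun e => by rw [PM1_mem_part, PM1_mem_label, and_comm]
    · refine c0 _ fun e he => huv ?_
      rw [PM1_mem_label, PM1_mem_label] at he
      rw [← he.1, ← he.2]
    · exact cls _ u s' fun e => by rw [PM1_mem_label, PM1_mem_sum]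
    · exact cps _ i' s fun e => by rw [PM1_mem_part, PM1_mem_sum, and_comm]
    · exact cls _ u' s fun e => by rw [PM1_mem_label, PM1_mem_sum, and_comm]
    · refine css _ s s' (fun hs => huv (by rw [hs])) fun e => by rw [PM1_mem_sum, PM1_mem_sum]
  · intro e
    exact Finset.card_le_four
  · intro e
    exact ⟨Sum.inl e.1, by simp [pvs]⟩

/-- total weight: `s1 = s2` for at most two labels `lb` of every part; `s1 ∈ Y` or `s2 ∈ Y` costs at most
`|Y|` -/
theorem pm_sum (h : PMH q p c c' lo N σ Λ Y ε) (hq : 0 < q) (hε0 : 0 < ε) (hε : ε ≤ 1 / 4) :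
    (1 - ε) * q - 1 ≤ ∑ e : PE q Λ, px c c' σ Y e := by
  classical
  have hq' : (0 : ℝ) < q := by exact_mod_cast hq
  -- the bad hyperedges
  set B1 : Finset (PE q Λ) := univ.filter fun e => s1 c σ e = s2 c' σ e with hB1
  set B2 : Finset (PE q Λ) := Y.biUnion fun s =>
    univ.filter fun e : PE q Λ => s1 c σ e = s ∨ s2 c' σ e = s with hB2
  have hB1card : B1.card ≤ q := by
    have h1 : B1.card ≤ (univ : Finset (Fin q)).card := by
      apply Finset.card_le_card_of_injOn (fun e => e.1)
      · intro e _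
        simp
      · intro e he e' he' hee
        simp only [hB1, coe_filter, mem_univ, true_and, Set.mem_ofPred_eq] at he he'
        unfold s1 s2 at he he'
        simp only at hee
        refine Prod.ext hee (PM1_lb_inj h (PM1_nat_inj h (PM1_lb_mem h _) (PM1_lb_mem h _) ?_))
        push_cast
        rw [hee] at he
        linear_combination he - he'
    simpa using h1
  have hB2card : (B2.card : ℝ) ≤ ε * q * ((1 + ε) * q) := by
    have h1 : (B2.card : ℝ) ≤ ∑ s ∈ Y,
        ((univ.filter fun e : PE q Λ => s1 c σ e = s ∨ s2 c' σ e = s).card : ℝ) := by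
      exact_mod_cast Finset.card_biUnion_le
    refine h1.trans ((Finset.sum_le_sum fun s _ => PM1_card_sum h s).trans ?_)
    rw [Finset.sum_const, nsmul_eq_mul]
    exact mul_le_mul_of_nonneg_right h.cardY (by positivity)
  have hval : ∀ e : PE q Λ, e ∉ B1 ∪ B2 → px c c' σ Y e = 1 / (2 * q) := by
    intro e he
    simp only [hB1, hB2, mem_union, mem_filter, mem_univ, true_and, mem_biUnion, not_or,
      not_exists, not_and] at he
    unfold px
    rw [if_pos]
    refine ⟨he.1, fun h1 => (he.2 _ h1).1 rfl, fun h1 => (he.2 _ h1).2 rfl⟩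
  have hsum : ((univ : Finset (PE q Λ)).card : ℝ) * (1 / (2 * q)) -
      ((B1 ∪ B2).card : ℝ) * (1 / (2 * q)) ≤ ∑ e : PE q Λ, px c c' σ Y e := by
    have h1 : ∑ e ∈ univ \ (B1 ∪ B2), px c c' σ Y e ≤ ∑ e : PE q Λ, px c c' σ Y e :=
      Finset.sum_le_sum_of_subset_of_nonneg (Finset.sdiff_subset)
        fun e _ _ => PM1_px_nonneg e
    have h2 : ∑ e ∈ univ \ (B1 ∪ B2), px c c' σ Y e =
        ((univ \ (B1 ∪ B2)).card : ℝ) * (1 / (2 * q)) := by
      rw [← nsmul_eq_mul, ← Finset.sum_const]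
      refine Finset.sum_congr rfl fun e he => hval e ?_
      simpa using he
    have h3 : ((univ \ (B1 ∪ B2)).card : ℝ) = ((univ : Finset (PE q Λ)).card : ℝ) -
        ((B1 ∪ B2).card : ℝ) := by
      rw [Finset.card_sdiff_of_subset (Finset.subset_univ _),
        Nat.cast_sub (Finset.card_le_card (Finset.subset_univ _))]
    rw [h2, h3] at h1
    linarith
  have hcardE : ((univ : Finset (PE q Λ)).card : ℝ) = 2 * q * q := by
    rw [Finset.card_univ, Fintype.card_prod, Fintype.card_prod, Fintype.card_coe, h.cardΛ,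
      Fintype.card_bool, Fintype.card_fin]
    push_cast
    ring
  have hU : ((B1 ∪ B2).card : ℝ) ≤ q + ε * q * ((1 + ε) * q) := by
    have h1 : ((B1 ∪ B2).card : ℝ) ≤ (B1.card : ℝ) + (B2.card : ℝ) := by
      exact_mod_cast Finset.card_union_le _ _
    have h2 : (B1.card : ℝ) ≤ q := by exact_mod_cast hB1card
    linarith
  refine le_trans ?_ hsum
  rw [hcardE]
  have h1 : (2 * (q : ℝ) * q) * (1 / (2 * q)) = q := by
    field_simp
  have h2 : ((B1 ∪ B2).card : ℝ) * (1 / (2 * q)) ≤
      (q + ε * q * ((1 + ε) * q)) * (1 / (2 * q)) :=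
    mul_le_mul_of_nonneg_right hU (by positivity)
  have h3 : (q + ε * q * ((1 + ε) * q)) * (1 / (2 * (q : ℝ))) = 1 / 2 + ε * (1 + ε) / 2 * q := by
    field_simp
  have h4 : ε * (1 + ε) / 2 * q ≤ ε * q := by
    have : ε * (1 + ε) / 2 ≤ ε := by nlinarith
    exact mul_le_mul_of_nonneg_right this hq'.le
  linarith

end Pool.Agent.AMC
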