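import Pool.Agent.AMC.PM1

/-!
# Case 3: the tests
-/

set_option autoImplicit false
set_option linter.unusedSectionVars false
set_option linter.unusedVariables false

namespace Pool.Agent.AMC

open Finset Pool.Agent.MP9a04dc

variable {q p : ℕ} [NeZero p] {c c' : Fin q → ZMod p} {lo N σ : ℕ} {Λ : Finset ℕ}
  {Y : Finset (ZMod p)} {ε : ℝ}

/-- index set of the tests -/
abbrev PJ (p : ℕ) (Λ : Finset ℕ) : Type := ZMod p × (ZMod p × {x // x ∈ Λ})

open Classical in
/-- the hyperedges of a test -/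
noncomputable def pA (c c' : Fin q → ZMod p) (σ : ℕ) (Y : Finset (ZMod p)) (j : PJ p Λ) :
    Finset (PE q Λ) :=
  univ.filter fun e => px c c' σ Y e ≠ 0 ∧ pnd c c' σ Y j.1 j.2.1 j.2.2.1 e

/-- the positions of a test as vertices -/
def pP (c c' : Fin q → ZMod p) (σ : ℕ) (j : PJ p Λ) (e : PE q Λ) : Finset (PV q p Λ) :=
  (ppos c c' σ j.1 j.2.1 j.2.2.1 e).image fun s => Sum.inr (Sum.inr s)

/-- all sums not in `Y` -/
def pOm (Λ : Finset ℕ) (q : ℕ) (Y : Finset (ZMod p)) : Finset (PV q p Λ) :=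
  (univ \ Y).image fun s => Sum.inr (Sum.inr s)

/-! ## auxiliary lemmas -/

private lemma PM2_lb_range (h : PMH q p c c' lo N σ Λ Y ε) (u : {x // x ∈ Λ} × Bool) :
    lo ≤ lb σ u ∧ lb σ u < lo + N := by
  obtain ⟨⟨x, hx⟩, o⟩ := u
  have h1 := h.memΛ x hx
  have h2 := h.hσ
  have h3 := h.hN
  cases o <;> simp [lb] <;> omega

private lemma PM2_lb_inj (h : PMH q p c c' lo N σ Λ Y ε) :
    Function.Injective (fun u : {x // x ∈ Λ} × Bool => lb σ u) := by
  rintro ⟨⟨x, hx⟩, o⟩ ⟨⟨y, hy⟩, o'⟩ huv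
  have h1 := h.memΛ x hx
  have h2 := h.memΛ y hy
  cases o <;> cases o' <;> simp [lb] at huv ⊢ <;> omega

private lemma PM2_inj1 (h : PMH q p c c' lo N σ Λ Y ε) :
    Function.Injective (fun u : {x // x ∈ Λ} × Bool => ((lb σ u : ℕ) : ZMod p)) := by
  intro u v huv
  apply PM2_lb_inj h
  have hu := PM2_lb_range h u
  have hv := PM2_lb_range h v
  have hp := h.hp
  have h1 : lb σ u ≡ lb σ v [MOD p] := (ZMod.natCast_eq_natCast_iff _ _ _).1 huv
  exact h1.eq_of_abs_lt (by rw [abs_lt]; constructor <;> omega)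

private lemma PM2_inj2 (h : PMH q p c c' lo N σ Λ Y ε) :
    Function.Injective (fun u : {x // x ∈ Λ} × Bool =>
      ((lb σ u : ℕ) : ZMod p) + ((lb σ u : ℕ) : ZMod p)) := by
  intro u v huv
  apply PM2_lb_inj h
  have hu := PM2_lb_range h u
  have hv := PM2_lb_range h v
  have hp := h.hp
  have huv' : ((lb σ u + lb σ u : ℕ) : ZMod p) = ((lb σ v + lb σ v : ℕ) : ZMod p) := by
    push_cast; exact huv
  have h1 : lb σ u + lb σ u ≡ lb σ v + lb σ v [MOD p] :=
    (ZMod.natCast_eq_natCast_iff _ _ _).1 huv'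
  have h2 := h1.eq_of_abs_lt (by rw [abs_lt]; constructor <;> omega)
  show lb σ u = lb σ v
  omega

private lemma PM2_count1 {U : Type} [Fintype U] {f : U → ZMod p} (hf : Function.Injective f)
    (z : ZMod p) {P : U → Prop} [DecidablePred P] (hP : ∀ u, P u → f u = z) :
    (univ.filter P).card ≤ 1 := by
  rw [card_le_one]
  intro a ha b hb
  simp only [mem_filter, mem_univ, true_and] at ha hb
  exact hf ((hP a ha).trans (hP b hb).symm)

private lemma PM2_countY {U : Type} [Fintype U] {f : U → ZMod p} (hf : Function.Injective f)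
    (Y : Finset (ZMod p)) [DecidablePred fun u => f u ∈ Y] :
    (univ.filter fun u => f u ∈ Y).card ≤ Y.card := by
  refine card_le_card_of_injOn f ?_ hf.injOn
  intro u hu
  simpa using hu

private lemma PM2_or {U : Type} [Fintype U] {P Q : U → Prop} [DecidablePred P]
    [DecidablePred Q] [DecidablePred fun u => P u ∨ Q u] {a b : ℕ}
    (h1 : (univ.filter P).card ≤ a) (h2 : (univ.filter Q).card ≤ b) :
    (univ.filter fun u => P u ∨ Q u).card ≤ a + b := by
  classical
  have h3 : (univ.filter fun u => P u ∨ Q u) ⊆ univ.filter P ∪ univ.filter Q := by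
    intro u hu
    simpa using hu
  exact (card_le_card h3).trans ((card_union_le _ _).trans (by omega))

open Classical in
private lemma PM2_countL (h : PMH q p c c' lo N σ Λ Y ε) (j : PJ p Λ) (i : Fin q) :
    (univ.filter fun u : {x // x ∈ Λ} × Bool =>
      c i + ((lb σ u : ℕ) : ZMod p) = c' i + (σ : ZMod p) - ((lb σ u : ℕ) : ZMod p) ∨
      (c i + ((lb σ u : ℕ) : ZMod p) ∈ Y ∨ (c' i + (σ : ZMod p) - ((lb σ u : ℕ) : ZMod p) ∈ Y ∨
      (j.1 + ((lb σ u : ℕ) : ZMod p) ∈ Y ∨ (j.2.1 + (σ : ZMod p) - ((lb σ u : ℕ) : ZMod p) ∈ Y ∨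
      (j.1 + ((lb σ u : ℕ) : ZMod p) = j.2.1 + (σ : ZMod p) - ((lb σ u : ℕ) : ZMod p) ∨
      (j.1 + ((lb σ u : ℕ) : ZMod p) = c i + (j.2.2.1 : ZMod p) ∨
      (j.1 + ((lb σ u : ℕ) : ZMod p) = c' i + (σ : ZMod p) - (j.2.2.1 : ZMod p) ∨
      (j.2.1 + (σ : ZMod p) - ((lb σ u : ℕ) : ZMod p) = c i + (j.2.2.1 : ZMod p) ∨
      (j.2.1 + (σ : ZMod p) - ((lb σ u : ℕ) : ZMod p) = c' i + (σ : ZMod p) - (j.2.2.1 : ZMod p) ∨
      (c i + ((lb σ u : ℕ) : ZMod p) = j.2.1 + (σ : ZMod p) - ((lb σ u : ℕ) : ZMod p) ∨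
      (c i + ((lb σ u : ℕ) : ZMod p) = c i + (j.2.2.1 : ZMod p) ∨
      (c i + ((lb σ u : ℕ) : ZMod p) = c' i + (σ : ZMod p) - (j.2.2.1 : ZMod p) ∨
      (c' i + (σ : ZMod p) - ((lb σ u : ℕ) : ZMod p) = j.1 + ((lb σ u : ℕ) : ZMod p) ∨
      (c' i + (σ : ZMod p) - ((lb σ u : ℕ) : ZMod p) = c i + (j.2.2.1 : ZMod p) ∨
      c' i + (σ : ZMod p) - ((lb σ u : ℕ) : ZMod p) =
        c' i + (σ : ZMod p) - (j.2.2.1 : ZMod p))))))))))))))
      )).card ≤ 12 + 4 * Y.card := by
  have i1 := PM2_inj1 h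
  have i2 := PM2_inj2 h
  have j1 : ∀ z : ZMod p, Function.Injective
      (fun u : {x // x ∈ Λ} × Bool => z + ((lb σ u : ℕ) : ZMod p)) := fun z u v huv =>
    i1 (add_left_cancel huv)
  have j2 : ∀ z : ZMod p, Function.Injective
      (fun u : {x // x ∈ Λ} × Bool => z - ((lb σ u : ℕ) : ZMod p)) := fun z u v huv =>
    i1 (sub_right_injective huv)
  have key := PM2_or (PM2_count1 (P := fun u : {x // x ∈ Λ} × Bool =>
        c i + ((lb σ u : ℕ) : ZMod p) = c' i + (σ : ZMod p) - ((lb σ u : ℕ) : ZMod p)) i2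
        (c' i + σ - c i) (fun u hu => by linear_combination hu))
    (PM2_or (PM2_countY (j1 (c i)) Y) (PM2_or (PM2_countY (j2 (c' i + σ)) Y)
    (PM2_or (PM2_countY (j1 j.1) Y) (PM2_or (PM2_countY (j2 (j.2.1 + σ)) Y)
    (PM2_or (PM2_count1 (P := fun u : {x // x ∈ Λ} × Bool =>
        j.1 + ((lb σ u : ℕ) : ZMod p) = j.2.1 + (σ : ZMod p) - ((lb σ u : ℕ) : ZMod p)) i2
        (j.2.1 + σ - j.1) (fun u hu => by linear_combination hu))
    (PM2_or (PM2_count1 (P := fun u : {x // x ∈ Λ} × Bool =>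
        j.1 + ((lb σ u : ℕ) : ZMod p) = c i + (j.2.2.1 : ZMod p)) i1
        (c i + j.2.2.1 - j.1) (fun u hu => by linear_combination hu))
    (PM2_or (PM2_count1 (P := fun u : {x // x ∈ Λ} × Bool =>
        j.1 + ((lb σ u : ℕ) : ZMod p) = c' i + (σ : ZMod p) - (j.2.2.1 : ZMod p)) i1
        (c' i + σ - j.2.2.1 - j.1) (fun u hu => by linear_combination hu))
    (PM2_or (PM2_count1 (P := fun u : {x // x ∈ Λ} × Bool =>
        j.2.1 + (σ : ZMod p) - ((lb σ u : ℕ) : ZMod p) = c i + (j.2.2.1 : ZMod p)) i1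
        (j.2.1 + σ - (c i + j.2.2.1)) (fun u hu => by linear_combination -hu))
    (PM2_or (PM2_count1 (P := fun u : {x // x ∈ Λ} × Bool =>
        j.2.1 + (σ : ZMod p) - ((lb σ u : ℕ) : ZMod p) =
          c' i + (σ : ZMod p) - (j.2.2.1 : ZMod p)) i1
        (j.2.1 + σ - (c' i + σ - j.2.2.1)) (fun u hu => by linear_combination -hu))
    (PM2_or (PM2_count1 (P := fun u : {x // x ∈ Λ} × Bool =>
        c i + ((lb σ u : ℕ) : ZMod p) = j.2.1 + (σ : ZMod p) - ((lb σ u : ℕ) : ZMod p)) i2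
        (j.2.1 + σ - c i) (fun u hu => by linear_combination hu))
    (PM2_or (PM2_count1 (P := fun u : {x // x ∈ Λ} × Bool =>
        c i + ((lb σ u : ℕ) : ZMod p) = c i + (j.2.2.1 : ZMod p)) i1
        (j.2.2.1 : ZMod p) (fun u hu => by linear_combination hu))
    (PM2_or (PM2_count1 (P := fun u : {x // x ∈ Λ} × Bool =>
        c i + ((lb σ u : ℕ) : ZMod p) = c' i + (σ : ZMod p) - (j.2.2.1 : ZMod p)) i1
        (c' i + σ - j.2.2.1 - c i) (fun u hu => by linear_combination hu))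
    (PM2_or (PM2_count1 (P := fun u : {x // x ∈ Λ} × Bool =>
        c' i + (σ : ZMod p) - ((lb σ u : ℕ) : ZMod p) = j.1 + ((lb σ u : ℕ) : ZMod p)) i2
        (c' i + σ - j.1) (fun u hu => by linear_combination -hu))
    (PM2_or (PM2_count1 (P := fun u : {x // x ∈ Λ} × Bool =>
        c' i + (σ : ZMod p) - ((lb σ u : ℕ) : ZMod p) = c i + (j.2.2.1 : ZMod p)) i1
        (c' i + σ - (c i + j.2.2.1)) (fun u hu => by linear_combination -hu))
    (PM2_count1 (P := fun u : {x // x ∈ Λ} × Bool =>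
        c' i + (σ : ZMod p) - ((lb σ u : ℕ) : ZMod p) =
          c' i + (σ : ZMod p) - (j.2.2.1 : ZMod p)) i1
        (j.2.2.1 : ZMod p) (fun u hu => by linear_combination -hu))))))))))))))))
  refine key.trans ?_
  omega

open Classical in
private lemma PM2_diff (h : PMH q p c c' lo N σ Λ Y ε) (l : {x // x ∈ Λ}) :
    (univ.filter fun i : Fin q => c i + (l.1 : ZMod p) = c' i + (σ : ZMod p) - (l.1 : ZMod p)) ⊆
    univ.filter fun i : Fin q => p ≤ 2 * ((c' i).val - (c i).val) := by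
  intro i hi
  simp only [mem_filter, mem_univ, true_and] at hi ⊢
  have h1 := h.memΛ l.1 l.2
  have h2 := h.hσ
  have h3 := h.hN
  have h4 := h.hp
  have h5 := h.vle i
  have h6 : (c i).val < p := ZMod.val_lt _
  have h7 : (c' i).val < p := ZMod.val_lt _
  have h8 : (((c i).val + 2 * l.1 : ℕ) : ZMod p) = (((c' i).val + σ : ℕ) : ZMod p) := by
    push_cast
    rw [ZMod.natCast_zmod_val, ZMod.natCast_zmod_val]
    linear_combination hi
  have h9 : (c i).val + 2 * l.1 ≡ (c' i).val + σ [MOD p] :=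
    (ZMod.natCast_eq_natCast_iff _ _ _).1 h8
  have h10 : (p : ℤ) ∣ ((c' i).val + σ : ℤ) - ((c i).val + 2 * l.1) := by
    have := (Nat.modEq_iff_dvd).1 h9
    push_cast at this
    exact this
  have h11 : (p : ℤ) ≤ ((c' i).val + σ : ℤ) - ((c i).val + 2 * l.1) :=
    Int.le_of_dvd (by omega) h10
  omega

open Classical in
private lemma PM2_multY (f : Fin q → ZMod p) (hf : ∀ y, (univ.filter fun i => f i = y).card ≤ 4)
    (z : ZMod p) (Y : Finset (ZMod p)) :
    (univ.filter fun i => f i + z ∈ Y).card ≤ 4 * Y.card := by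
  have h1 : (univ.filter fun i => f i + z ∈ Y) ⊆
      Y.biUnion fun y => univ.filter fun i => f i = y - z := by
    intro i hi
    simp only [mem_filter, mem_univ, true_and, mem_biUnion] at hi ⊢
    exact ⟨_, hi, by ring⟩
  refine (card_le_card h1).trans (card_biUnion_le.trans ?_)
  refine (sum_le_sum fun y _ => hf (y - z)).trans ?_
  simp [mul_comm]

open Classical in
private lemma PM2_countP (h : PMH q p c c' lo N σ Λ Y ε) (j : PJ p Λ) :
    ((univ.filter fun i : Fin q =>
      c i + (j.2.2.1 : ZMod p) = c' i + (σ : ZMod p) - (j.2.2.1 : ZMod p) ∨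
      (c i + (j.2.2.1 : ZMod p) ∈ Y ∨ (c' i + (σ : ZMod p) - (j.2.2.1 : ZMod p) ∈ Y ∨
      (c i = j.1 ∨ c' i = j.2.1)))).card : ℝ) ≤ 9 * ε * q + 8 := by
  have m1 : ∀ y, (univ.filter fun i => c i = y).card ≤ 4 := fun y => by
    have := h.mult y
    omega
  have m2 : ∀ y, (univ.filter fun i => c' i = y).card ≤ 4 := fun y => by
    have := h.mult y
    omega
  have h1 := card_le_card (PM2_diff h j.2.2)
  have h2 := PM2_multY c m1 (j.2.2.1 : ZMod p) Y
  have h3 : (univ.filter fun i => c' i + (σ : ZMod p) - (j.2.2.1 : ZMod p) ∈ Y).card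
      ≤ 4 * Y.card := by
    have := PM2_multY c' m2 ((σ : ZMod p) - (j.2.2.1 : ZMod p)) Y
    simpa only [add_sub_assoc] using this
  have h4 := PM2_or h1 (PM2_or h2 (PM2_or h3 (PM2_or (m1 j.1) (m2 j.2.1))))
  have h5 := h.diff
  have h6 := h.cardY
  have h7 := (Nat.cast_le (α := ℝ)).2 h4
  refine h7.trans ?_
  push_cast
  linarith

private lemma PM2_px_le (Y : Finset (ZMod p)) (e : PE q Λ) :
    px c c' σ Y e ≤ 1 / (2 * q) := by
  unfold px
  split_ifs
  · exact le_refl _
  · positivity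

private lemma PM2_px_nonneg (Y : Finset (ZMod p)) (e : PE q Λ) : 0 ≤ px c c' σ Y e := by
  unfold px
  split_ifs
  · positivity
  · exact le_refl _

private lemma PM2_cardU (h : PMH q p c c' lo N σ Λ Y ε) :
    Fintype.card ({x // x ∈ Λ} × Bool) = 2 * q := by
  rw [Fintype.card_prod, Fintype.card_bool, Fintype.card_coe, h.cardΛ]
  ring

/-- The weight of the nondegenerate hyperedges. Degenerate: for every part a bounded number (at most
`20`) of labels `lb`, except for the parts with `c i + l ∈ Y`, `c' i + σ - l ∈ Y` (at most `4 |Y|`), `c i = C1`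
or `c' i = C2` (at most `8`; then the position and the sum agree for every label), and
`c i + l = c' i + σ - l` (then `(c' i).val - (c i).val = p - (σ - 2 l) ≥ p / 2`: `diff`). The positions
`C1 + lb, C2 + σ - lb ∈ Y` cost `|Y|` labels for every part. -/
theorem pm_weight (h : PMH q p c c' lo N σ Λ Y ε) (hq : 0 < q) (hε0 : 0 < ε)
    (hε : ε ≤ 1 / 100) (j : PJ p Λ) :
    (1 / 2 : ℝ) * q - 100 ≤ ∑ e ∈ pA c c' σ Y j, px c c' σ Y e := by
  classical
  have hq' : (0 : ℝ) < q := by exact_mod_cast hq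
  -- the good set has many elements
  set PB : Finset (Fin q) := univ.filter fun i : Fin q =>
      c i + (j.2.2.1 : ZMod p) = c' i + (σ : ZMod p) - (j.2.2.1 : ZMod p) ∨
      (c i + (j.2.2.1 : ZMod p) ∈ Y ∨ (c' i + (σ : ZMod p) - (j.2.2.1 : ZMod p) ∈ Y ∨
      (c i = j.1 ∨ c' i = j.2.1))) with hPB
  have hPBc : (PB.card : ℝ) ≤ 9 * ε * q + 8 := by
    have := PM2_countP h j
    rw [hPB]; convert this
  have hL := PM2_countL h j
  set LB : Fin q → Finset ({x // x ∈ Λ} × Bool) := fun i => univ.filter fun u =>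
      c i + ((lb σ u : ℕ) : ZMod p) = c' i + (σ : ZMod p) - ((lb σ u : ℕ) : ZMod p) ∨
      (c i + ((lb σ u : ℕ) : ZMod p) ∈ Y ∨ (c' i + (σ : ZMod p) - ((lb σ u : ℕ) : ZMod p) ∈ Y ∨
      (j.1 + ((lb σ u : ℕ) : ZMod p) ∈ Y ∨ (j.2.1 + (σ : ZMod p) - ((lb σ u : ℕ) : ZMod p) ∈ Y ∨
      (j.1 + ((lb σ u : ℕ) : ZMod p) = j.2.1 + (σ : ZMod p) - ((lb σ u : ℕ) : ZMod p) ∨
      (j.1 + ((lb σ u : ℕ) : ZMod p) = c i + (j.2.2.1 : ZMod p) ∨
      (j.1 + ((lb σ u : ℕ) : ZMod p) = c' i + (σ : ZMod p) - (j.2.2.1 : ZMod p) ∨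
      (j.2.1 + (σ : ZMod p) - ((lb σ u : ℕ) : ZMod p) = c i + (j.2.2.1 : ZMod p) ∨
      (j.2.1 + (σ : ZMod p) - ((lb σ u : ℕ) : ZMod p) = c' i + (σ : ZMod p) - (j.2.2.1 : ZMod p) ∨
      (c i + ((lb σ u : ℕ) : ZMod p) = j.2.1 + (σ : ZMod p) - ((lb σ u : ℕ) : ZMod p) ∨
      (c i + ((lb σ u : ℕ) : ZMod p) = c i + (j.2.2.1 : ZMod p) ∨
      (c i + ((lb σ u : ℕ) : ZMod p) = c' i + (σ : ZMod p) - (j.2.2.1 : ZMod p) ∨
      (c' i + (σ : ZMod p) - ((lb σ u : ℕ) : ZMod p) = j.1 + ((lb σ u : ℕ) : ZMod p) ∨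
      (c' i + (σ : ZMod p) - ((lb σ u : ℕ) : ZMod p) = c i + (j.2.2.1 : ZMod p) ∨
      c' i + (σ : ZMod p) - ((lb σ u : ℕ) : ZMod p) =
        c' i + (σ : ZMod p) - (j.2.2.1 : ZMod p)))))))))))))) ) with hLB
  have hLc : ∀ i, (LB i).card ≤ 12 + 4 * Y.card := by
    intro i
    have := hL i
    rw [hLB]; convert this
  have hsub : (univ : Finset (PE q Λ)) \ pA c c' σ Y j ⊆
      (PB ×ˢ (univ : Finset ({x // x ∈ Λ} × Bool))) ∪
        univ.filter (fun e : PE q Λ => e.2 ∈ LB e.1) := by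
    rintro ⟨i, u⟩ he
    by_contra hcon
    simp only [mem_union, mem_product, mem_univ, and_true, mem_filter, true_and, hPB, hLB,
      not_or] at hcon
    obtain ⟨⟨b1, b2, b3, b4, b5⟩, a1, a2, a3, a4, a5, a6, a7, a8, a9, a10, a11, a12, a13, a14,
      a15, a16⟩ := hcon
    rw [mem_sdiff] at he
    apply he.2
    rw [pA, mem_filter]
    have hne : px c c' σ Y (i, u) ≠ 0 := by
      unfold px
      rw [if_pos]
      · positivity
      · exact ⟨a1, a2, a3⟩
    refine ⟨mem_univ _, hne, ?_, ?_, ?_, ?_⟩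
    · unfold ppos
      rw [card_insert_of_notMem, card_insert_of_notMem, card_pair b1]
      · simp only [mem_insert, mem_singleton, not_or]
        exact ⟨a9, a10⟩
      · simp only [mem_insert, mem_singleton, not_or]
        exact ⟨a6, a7, a8⟩
    · rw [Finset.disjoint_left]
      intro s hs hsY
      unfold ppos at hs
      simp only [mem_insert, mem_singleton] at hs
      rcases hs with rfl | rfl | rfl | rfl
      · exact a4 hsY
      · exact a5 hsY
      · exact b2 hsY
      · exact b3 hsY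
    · unfold ppos s1
      simp only [mem_insert, mem_singleton, not_or]
      exact ⟨fun hh => b4 (add_right_cancel hh), a11, a12, a13⟩
    · unfold ppos s2
      simp only [mem_insert, mem_singleton, not_or]
      refine ⟨a14, fun hh => b5 ?_, a15, a16⟩
      have := sub_left_injective hh
      exact add_right_cancel this
  have hc1 : (univ.filter (fun e : PE q Λ => e.2 ∈ LB e.1)).card ≤ q * (12 + 4 * Y.card) := by
    have h1 : (univ.filter (fun e : PE q Λ => e.2 ∈ LB e.1)).card = ∑ i, (LB i).card := by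
      rw [card_filter, Fintype.sum_prod_type]
      refine sum_congr rfl fun i _ => ?_
      rw [← card_filter]
      congr 1
      ext u
      simp
    rw [h1]
    refine (sum_le_sum fun i _ => hLc i).trans ?_
    simp
  have hc2 : (PB ×ˢ (univ : Finset ({x // x ∈ Λ} × Bool))).card = PB.card * (2 * q) := by
    rw [card_product, card_univ, PM2_cardU h]
  have hc3 : (univ : Finset (PE q Λ)).card = q * (2 * q) := by
    rw [card_univ, Fintype.card_prod, Fintype.card_fin, PM2_cardU h]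
  have hc4 : (univ : Finset (PE q Λ)).card ≤ (pA c c' σ Y j).card +
      (PB.card * (2 * q) + q * (12 + 4 * Y.card)) := by
    have h1 := card_le_card hsub
    have h2 := card_union_le (PB ×ˢ (univ : Finset ({x // x ∈ Λ} × Bool)))
      (univ.filter (fun e : PE q Λ => e.2 ∈ LB e.1))
    have h3 := card_sdiff_add_card_eq_card (subset_univ (pA c c' σ Y j))
    omega
  rw [hc3] at hc4
  have hsum : ∑ e ∈ pA c c' σ Y j, px c c' σ Y e = (pA c c' σ Y j).card * (1 / (2 * q)) := by
    rw [← nsmul_eq_mul, ← sum_const]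
    refine sum_congr rfl fun e he => ?_
    rw [pA, mem_filter] at he
    have h1 := he.2.1
    unfold px at h1 ⊢
    split_ifs at h1 ⊢ with h2
    · rfl
    · exact absurd rfl h1
  rw [hsum]
  have hc5 := (Nat.cast_le (α := ℝ)).2 hc4
  push_cast at hc5
  have hY := h.cardY
  rw [mul_one_div, le_div_iff₀ (by positivity)]
  have e1 : (PB.card : ℝ) * (2 * q) ≤ (9 * ε * q + 8) * (2 * q) :=
    mul_le_mul_of_nonneg_right hPBc (by positivity)
  have e2 : (q : ℝ) * (12 + 4 * Y.card) ≤ q * (12 + 4 * (ε * q)) :=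
    mul_le_mul_of_nonneg_left (by linarith) hq'.le
  have e3 : ε * (q * q) ≤ 1 / 100 * (q * q) := mul_le_mul_of_nonneg_right hε (by positivity)
  nlinarith

/-- The hypotheses of the machine. `P_codeg`: `C1 + lb = s`: one hyperedge of every part, total `1/2`;
`C2 + σ - lb = s`: `1/2`; `c i + l = s` or `c' i + σ - l = s`: at most `4` parts each of weight `≤ 1`. -/
theorem pm_amplus (h : PMH q p c c' lo N σ Λ Y ε) (hq : 0 < q) (hε0 : 0 < ε) (hε : ε ≤ 1 / 100) :
    Pool.Agent.AMB.AMPlus (pvs c c' σ) (px c c' σ Y : PE q Λ → ℝ) (pOm Λ q Y)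
      (pA c c' σ Y) (pP c c' σ) 4 10 (1 / 4) (max ε (8 / q)) := by
  classical
  have hq' : (0 : ℝ) < q := by exact_mod_cast hq
  refine ⟨pm_good h hq hε0 (by linarith), ?_, ?_, ?_, ?_, ?_⟩
  · intro s hs
    rw [pOm, mem_image] at hs
    obtain ⟨s', _, rfl⟩ := hs
    exact pm_slack h hq hε0 (by linarith) s'
  · intro j e he s hs
    rw [pA, mem_filter] at he
    rw [pP, mem_image] at hs
    obtain ⟨s', hs', rfl⟩ := hs
    rw [pOm, mem_image]
    refine ⟨s', ?_, rfl⟩
    rw [mem_sdiff]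
    exact ⟨mem_univ _, fun hY => (Finset.disjoint_left.1 he.2.2.2.1) hs' hY⟩
  · intro j e he
    rw [pA, mem_filter] at he
    unfold pP
    exact card_image_le.trans (le_of_eq he.2.2.1)
  · intro j e he
    rw [pA, mem_filter] at he
    obtain ⟨_, _, _, _, h3, h4⟩ := he
    rw [Finset.disjoint_left]
    intro s hs hs2
    rw [pP, mem_image] at hs
    obtain ⟨s', hs', rfl⟩ := hs
    unfold pvs at hs2
    simp only [mem_insert, mem_singleton, reduceCtorEq, Sum.inr.injEq, false_or] at hs2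
    rcases hs2 with rfl | rfl
    · exact h3 hs'
    · exact h4 hs'
  · intro j s
    have m1 : ∀ y, (univ.filter fun i => c i = y).card ≤ 4 := fun y => by
      have := h.mult y
      omega
    have m2 : ∀ y, (univ.filter fun i => c' i = y).card ≤ 4 := fun y => by
      have := h.mult y
      omega
    rcases s with s | s | s
    · rw [sum_eq_zero]
      · norm_num
      · intro e he
        exfalso
        rw [mem_filter, pP, mem_image] at he
        obtain ⟨_, s', _, h2⟩ := he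
        exact absurd h2 (by simp)
    · rw [sum_eq_zero]
      · norm_num
      · intro e he
        exfalso
        rw [mem_filter, pP, mem_image] at he
        obtain ⟨_, s', _, h2⟩ := he
        exact absurd h2 (by simp)
    · have i1 := PM2_inj1 h
      -- the two kinds of hyperedges
      set S1 : Finset (PE q Λ) := univ.filter fun e =>
        (j.1 + ((lb σ e.2 : ℕ) : ZMod p) = s ∨
          j.2.1 + (σ : ZMod p) - ((lb σ e.2 : ℕ) : ZMod p) = s) with hS1
      set S2 : Finset (Fin q) := univ.filter fun i =>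
        (c i = s - (j.2.2.1 : ZMod p) ∨ c' i = s - (σ : ZMod p) + (j.2.2.1 : ZMod p)) with hS2
      have hsub : (pA c c' σ Y j).filter (fun e => Sum.inr (Sum.inr s) ∈ pP c c' σ j e) ⊆
          S1 ∪ S2 ×ˢ (univ : Finset ({x // x ∈ Λ} × Bool)) := by
        intro e he
        rw [mem_filter, pP, mem_image] at he
        obtain ⟨_, s', hs', h2⟩ := he
        simp only [Sum.inr.injEq] at h2
        subst h2
        unfold ppos at hs'
        simp only [mem_insert, mem_singleton] at hs'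
        simp only [mem_union, mem_product, mem_univ, and_true, hS1, hS2, mem_filter, true_and]
        rcases hs' with h3 | h3 | h3 | h3
        · exact Or.inl (Or.inl h3.symm)
        · exact Or.inl (Or.inr h3.symm)
        · exact Or.inr (Or.inl (by linear_combination -h3))
        · exact Or.inr (Or.inr (by linear_combination -h3))
      have hS2c : S2.card ≤ 4 + 4 := by
        have := PM2_or (m1 (s - (j.2.2.1 : ZMod p))) (m2 (s - (σ : ZMod p) + (j.2.2.1 : ZMod p)))
        rw [hS2]; convert this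
      have hS1c : S1.card ≤ q * 2 := by
        have h1 : S1.card = ∑ i : Fin q, (univ.filter fun u : {x // x ∈ Λ} × Bool =>
            (j.1 + ((lb σ u : ℕ) : ZMod p) = s ∨
              j.2.1 + (σ : ZMod p) - ((lb σ u : ℕ) : ZMod p) = s)).card := by
          rw [hS1, card_filter, Fintype.sum_prod_type]
          refine sum_congr rfl fun i _ => ?_
          rw [← card_filter]
        rw [h1]
        have h2 : (univ.filter fun u : {x // x ∈ Λ} × Bool =>
            (j.1 + ((lb σ u : ℕ) : ZMod p) = s ∨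
              j.2.1 + (σ : ZMod p) - ((lb σ u : ℕ) : ZMod p) = s)).card ≤ 1 + 1 := by
          have := PM2_or (PM2_count1 (P := fun u : {x // x ∈ Λ} × Bool =>
              j.1 + ((lb σ u : ℕ) : ZMod p) = s) i1 (s - j.1)
              (fun u hu => by linear_combination hu))
            (PM2_count1 (P := fun u : {x // x ∈ Λ} × Bool =>
              j.2.1 + (σ : ZMod p) - ((lb σ u : ℕ) : ZMod p) = s) i1 (j.2.1 + σ - s)
              (fun u hu => by linear_combination -hu))
          convert this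
        refine (sum_le_sum fun i _ => h2).trans ?_
        simp
      have hcard : (S1 ∪ S2 ×ˢ (univ : Finset ({x // x ∈ Λ} × Bool))).card ≤
          q * 2 + 8 * (2 * q) := by
        refine (card_union_le _ _).trans (Nat.add_le_add hS1c ?_)
        rw [card_product, card_univ, PM2_cardU h]
        exact Nat.mul_le_mul_right _ hS2c
      calc ∑ e ∈ (pA c c' σ Y j).filter (fun e => Sum.inr (Sum.inr s) ∈ pP c c' σ j e),
            px c c' σ Y e
          ≤ ∑ e ∈ S1 ∪ S2 ×ˢ (univ : Finset ({x // x ∈ Λ} × Bool)), px c c' σ Y e :=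
            sum_le_sum_of_subset_of_nonneg hsub fun e _ _ => PM2_px_nonneg Y e
        _ ≤ ∑ e ∈ S1 ∪ S2 ×ˢ (univ : Finset ({x // x ∈ Λ} × Bool)), (1 / (2 * q) : ℝ) :=
            sum_le_sum fun e _ => PM2_px_le Y e
        _ = (S1 ∪ S2 ×ˢ (univ : Finset ({x // x ∈ Λ} × Bool))).card * (1 / (2 * q) : ℝ) := by
            rw [sum_const, nsmul_eq_mul]
        _ ≤ ((q * 2 + 8 * (2 * q) : ℕ) : ℝ) * (1 / (2 * q) : ℝ) :=
            mul_le_mul_of_nonneg_right (by exact_mod_cast hcard) (by positivity)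
        _ ≤ 10 := by
            push_cast
            rw [mul_one_div, div_le_iff₀ (by positivity)]
            nlinarith

end Pool.Agent.AMC
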