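import Pool.Agent.AMB.Mach

/-!
# Case 3: pairs of slots against pairs of labels (definitions)

`q` pairs of slots, the offsets of the two vertices of the pair `i` are `c i` and `c' i`. `Λ` = the `q`
lower labels of the pairs `{x, σ - x}`. The hyperedge `(i, x, o)` gives the label `lb x o` (`x` or
`σ - x`) to the first vertex of the pair `i` and `σ - lb x o` to the second one.
-/

set_option autoImplicit false
set_option linter.unusedSectionVars false
set_option linter.unusedVariables false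

namespace Pool.Agent.AMC

open Finset Pool.Agent.MP9a04dc

/-- The data and hypotheses of the pair matching theorem. -/
structure PMH (q p : ℕ) (c c' : Fin q → ZMod p) (lo N σ : ℕ) (Λ : Finset ℕ)
    (Y : Finset (ZMod p)) (ε : ℝ) : Prop where
  cardΛ : Λ.card = q
  hσ : σ = 2 * lo + N - 1
  hN : 0 < N
  memΛ : ∀ x ∈ Λ, lo ≤ x ∧ 2 * x < σ
  hp : 2 * N ≤ p
  hpq : p ≤ 100 * q
  load : ∀ s : ZMod p,
    ((open Classical in ((univ.filter fun i => ∃ x ∈ Λ, c i + (x : ZMod p) = s ∨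
        c i + (σ : ZMod p) - x = s).card +
      (univ.filter fun i => ∃ x ∈ Λ, c' i + (x : ZMod p) = s ∨
        c' i + (σ : ZMod p) - x = s).card) : ℕ) : ℝ) ≤ (1 + ε) * q
  mult : ∀ y : ZMod p, (univ.filter fun i => c i = y).card + (univ.filter fun i => c' i = y).card ≤ 4
  psum : ∀ y : ZMod p, ((univ.filter fun i => c i + c' i = y).card : ℝ) ≤ ε * q
  vle : ∀ i, (c i).val ≤ (c' i).val
  diff : ((univ.filter fun i => p ≤ 2 * ((c' i).val - (c i).val)).card : ℝ) ≤ ε * q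
  cardY : (Y.card : ℝ) ≤ ε * q

/-- hyperedges -/
abbrev PE (q : ℕ) (Λ : Finset ℕ) : Type := Fin q × ({x // x ∈ Λ} × Bool)

/-- vertices -/
abbrev PV (q p : ℕ) (Λ : Finset ℕ) : Type := Fin q ⊕ ({x // x ∈ Λ} ⊕ ZMod p)

/-- the label of the first vertex -/
def lb {Λ : Finset ℕ} (σ : ℕ) (u : {x // x ∈ Λ} × Bool) : ℕ := if u.2 then σ - u.1.1 else u.1.1

section

variable {q p : ℕ} [NeZero p] (c c' : Fin q → ZMod p) (σ : ℕ) {Λ : Finset ℕ}

/-- the two sums -/
def s1 (e : PE q Λ) : ZMod p := c e.1 + (lb σ e.2 : ZMod p)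

/-- the two sums -/
def s2 (e : PE q Λ) : ZMod p := c' e.1 + (σ : ZMod p) - (lb σ e.2 : ZMod p)

/-- vertices of a hyperedge -/
def pvs (e : PE q Λ) : Finset (PV q p Λ) :=
  {Sum.inl e.1, Sum.inr (Sum.inl e.2.1), Sum.inr (Sum.inr (s1 c σ e)),
    Sum.inr (Sum.inr (s2 c' σ e))}

/-- the weights -/
noncomputable def px (Y : Finset (ZMod p)) (e : PE q Λ) : ℝ :=
  if s1 c σ e ≠ s2 c' σ e ∧ s1 c σ e ∉ Y ∧ s2 c' σ e ∉ Y then 1 / (2 * q) else 0

/-- the positions of the gadget `e` in the test `(C1, C2, l)` -/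
def ppos (C1 C2 : ZMod p) (l : ℕ) (e : PE q Λ) : Finset (ZMod p) :=
  {C1 + (lb σ e.2 : ZMod p), C2 + (σ : ZMod p) - (lb σ e.2 : ZMod p), c e.1 + (l : ZMod p),
    c' e.1 + (σ : ZMod p) - (l : ZMod p)}

/-- nondegenerate gadgets: four different positions, not in `Y`, different from the two sums -/
def pnd (Y : Finset (ZMod p)) (C1 C2 : ZMod p) (l : ℕ) (e : PE q Λ) : Prop :=
  (ppos c c' σ C1 C2 l e).card = 4 ∧ Disjoint (ppos c c' σ C1 C2 l e) Y ∧
    s1 c σ e ∉ ppos c c' σ C1 C2 l e ∧ s2 c' σ e ∉ ppos c c' σ C1 C2 l e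

end

end Pool.Agent.AMC
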