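import Mathlib

/-!
# Case 3: greedy labelling of tune edges
-/

set_option autoImplicit false

namespace Pool.Agent.AMC

open Finset

/-- Greedy. `l` is a list of pairs (edge, vertex on it); an edge does not contain the vertices of
earlier pairs (`(e, x)` before `(e', x')` in the list implies `x ∉ e'`), and the edges are distinct. `g0`
gives the labels of the other edges of `E`. The edges of the list get distinct labels of `A`
(distinct modulo `p`) such that the sums (over all edges of `E`) at the vertices of the list are distinct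
and not in `Y`. Induction on the list from the left: the label of `e` must be unused and avoid
`|Y| + (number of earlier vertices)` values. -/
theorem tune {W : Type*} [Fintype W] [DecidableEq W] (p : ℕ) [NeZero p] (c0 : W → ZMod p)
    (E : Finset (Sym2 W)) (l : List (Sym2 W × W)) (hl : ∀ u ∈ l, u.1 ∈ E ∧ u.2 ∈ u.1)
    (hpw : l.Pairwise fun u v => u.2 ∉ v.1) (hnd : (l.map Prod.fst).Nodup)
    (g0 : Sym2 W → ℕ) (A : Finset ℕ)
    (hA : ∀ a ∈ A, ∀ b ∈ A, (a : ZMod p) = b → a = b) (Y : Finset (ZMod p))
    (hc : 2 * l.length + Y.card ≤ A.card) :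
    ∃ g : Sym2 W → ℕ, (∀ e, e ∉ l.map Prod.fst → g e = g0 e) ∧
      (∀ e ∈ l.map Prod.fst, g e ∈ A) ∧
      (∀ e ∈ l.map Prod.fst, ∀ e' ∈ l.map Prod.fst, g e = g e' → e = e') ∧
      (∀ u ∈ l, c0 u.2 + ∑ e ∈ E.filter (fun e => u.2 ∈ e), (g e : ZMod p) ∉ Y) ∧
      ∀ u ∈ l, ∀ v ∈ l, c0 u.2 + ∑ e ∈ E.filter (fun e => u.2 ∈ e), (g e : ZMod p)
        = c0 v.2 + ∑ e ∈ E.filter (fun e => v.2 ∈ e), (g e : ZMod p) → u = v := by
  induction l using List.reverseRecOn with
  | nil => exact ⟨g0, fun _ _ => rfl, by simp, by simp, by simp, by simp⟩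
  | append_singleton l u ih =>
    rw [List.pairwise_append] at hpw
    obtain ⟨hpw1, -, hpw2⟩ := hpw
    rw [List.map_append, List.map_singleton, List.nodup_append] at hnd
    obtain ⟨hnd1, -, hnd2⟩ := hnd
    have hu : u.1 ∉ l.map Prod.fst := fun h => hnd2 _ h _ (List.mem_singleton.2 rfl) rfl
    simp only [List.length_append, List.length_singleton] at hc
    obtain ⟨g, h1, h2, h3, h4, h5⟩ := ih (fun v hv => hl v (List.mem_append_left _ hv)) hpw1 hnd1
      (by omega)
    have hue : ∀ v ∈ l, v.2 ∉ u.1 := fun v hv => hpw2 v hv u (List.mem_singleton.2 rfl)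
    obtain ⟨huE, hux⟩ := hl u (List.mem_append_right _ (List.mem_singleton.2 rfl))
    -- sums after an update
    have hsum1 : ∀ a : ℕ, ∀ v ∈ l,
        c0 v.2 + ∑ e ∈ E.filter (fun e => v.2 ∈ e), ((Function.update g u.1 a) e : ZMod p)
          = c0 v.2 + ∑ e ∈ E.filter (fun e => v.2 ∈ e), (g e : ZMod p) := by
      intro a v hv
      congr 1
      refine Finset.sum_congr rfl fun e he => ?_
      have hne : e ≠ u.1 := fun h => hue v hv (h ▸ (Finset.mem_filter.1 he).2)
      rw [Function.update_of_ne hne]
    set S : ZMod p := c0 u.2 + ∑ e ∈ (E.filter (fun e => u.2 ∈ e)).erase u.1, (g e : ZMod p)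
      with hS
    have hsum2 : ∀ a : ℕ,
        c0 u.2 + ∑ e ∈ E.filter (fun e => u.2 ∈ e), ((Function.update g u.1 a) e : ZMod p)
          = a + S := by
      intro a
      have hm : u.1 ∈ E.filter (fun e => u.2 ∈ e) := Finset.mem_filter.2 ⟨huE, hux⟩
      rw [← Finset.add_sum_erase _ _ hm, Function.update_self, hS]
      have : ∑ e ∈ (E.filter (fun e => u.2 ∈ e)).erase u.1, ((Function.update g u.1 a) e : ZMod p)
          = ∑ e ∈ (E.filter (fun e => u.2 ∈ e)).erase u.1, (g e : ZMod p) := by
        refine Finset.sum_congr rfl fun e he => ?_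
        rw [Function.update_of_ne (Finset.ne_of_mem_erase he)]
      rw [this]
      ring
    set Z : Finset (ZMod p) := Y ∪ (l.map fun v =>
      c0 v.2 + ∑ e ∈ E.filter (fun e => v.2 ∈ e), (g e : ZMod p)).toFinset with hZ
    have hZc : Z.card ≤ Y.card + l.length := by
      refine (Finset.card_union_le _ _).trans (Nat.add_le_add_left ?_ _)
      refine (List.toFinset_card_le _).trans ?_
      simp
    set B1 : Finset ℕ := ((l.map Prod.fst).map g).toFinset with hB1
    have hB1c : B1.card ≤ l.length := by
      refine (List.toFinset_card_le _).trans ?_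
      simp
    set B2 : Finset ℕ := A.filter (fun a : ℕ => (a : ZMod p) + S ∈ Z) with hB2
    have hB2c : B2.card ≤ Z.card := by
      refine Finset.card_le_card_of_injOn (fun a : ℕ => (a : ZMod p) + S) ?_ ?_
      · intro a ha
        exact (Finset.mem_filter.1 ha).2
      · intro a ha b hb hab
        exact hA a (Finset.mem_filter.1 ha).1 b (Finset.mem_filter.1 hb).1
          (add_right_cancel hab)
    obtain ⟨a, haA, haB⟩ : ∃ a ∈ A, a ∉ B1 ∪ B2 := by
      by_contra hcon
      push Not at hcon
      have := Finset.card_le_card (show A ⊆ B1 ∪ B2 from fun a ha => hcon a ha)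
      have h' := Finset.card_union_le B1 B2
      omega
    rw [Finset.mem_union, not_or] at haB
    obtain ⟨ha1, ha2⟩ := haB
    have ha3 : (a : ZMod p) + S ∉ Z := fun h => ha2 (Finset.mem_filter.2 ⟨haA, h⟩)
    rw [hZ, Finset.mem_union, not_or] at ha3
    obtain ⟨ha3, ha4⟩ := ha3
    have hfst : ∀ e ∈ (l ++ [u]).map Prod.fst, e ∈ l.map Prod.fst ∨ e = u.1 := by
      intro e he
      rw [List.map_append, List.mem_append] at he
      rcases he with he | he
      · exact Or.inl he
      · rw [List.map_singleton, List.mem_singleton] at he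
        exact Or.inr he
    have hgl : ∀ e ∈ l.map Prod.fst, Function.update g u.1 a e = g e := by
      intro e he
      have hne : e ≠ u.1 := fun h => hu (h ▸ he)
      rw [Function.update_of_ne hne]
    refine ⟨Function.update g u.1 a, ?_, ?_, ?_, ?_, ?_⟩
    · intro e he
      rw [List.map_append, List.mem_append, not_or] at he
      have hne : e ≠ u.1 := fun h => he.2 (by rw [List.map_singleton, h]; exact List.mem_singleton.2 rfl)
      rw [Function.update_of_ne hne]
      exact h1 e he.1
    · intro e he
      rcases hfst e he with he | he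
      · rw [hgl e he]
        exact h2 e he
      · rw [he, Function.update_self]
        exact haA
    · intro e he e' he' hee
      rcases hfst e he with he | he <;> rcases hfst e' he' with he' | he'
      · rw [hgl e he, hgl e' he'] at hee
        exact h3 e he e' he' hee
      · exfalso
        rw [hgl e he, he', Function.update_self] at hee
        exact ha1 (by rw [hB1, List.mem_toFinset, ← hee]; exact List.mem_map_of_mem he)
      · exfalso
        rw [hgl e' he', he, Function.update_self] at hee
        exact ha1 (by rw [hB1, List.mem_toFinset, hee]; exact List.mem_map_of_mem he')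
      · rw [he, he']
    · intro v hv
      rw [List.mem_append, List.mem_singleton] at hv
      rcases hv with hv | rfl
      · rw [hsum1 a v hv]
        exact h4 v hv
      · rw [hsum2 a]
        exact ha3
    · intro v hv w hw hvw
      rw [List.mem_append, List.mem_singleton] at hv hw
      rcases hv with hv | hv <;> rcases hw with hw | hw
      · rw [hsum1 a v hv, hsum1 a w hw] at hvw
        exact h5 v hv w hw hvw
      · exfalso
        rw [hsum1 a v hv, hw, hsum2 a] at hvw
        exact ha4 (by rw [List.mem_toFinset, ← hvw]; exact List.mem_map_of_mem (f := fun v : Sym2 W × W =>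
          c0 v.2 + ∑ e ∈ E.filter (fun e => v.2 ∈ e), (g e : ZMod p)) hv)
      · exfalso
        rw [hsum1 a w hw, hv, hsum2 a] at hvw
        exact ha4 (by rw [List.mem_toFinset, hvw]; exact List.mem_map_of_mem (f := fun v : Sym2 W × W =>
          c0 v.2 + ∑ e ∈ E.filter (fun e => v.2 ∈ e), (g e : ZMod p)) hw)
      · rw [hv, hw]

end Pool.Agent.AMC
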