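import Pool.Agent.AMC.Glue
import Pool.Agent.AMC.Tune

/-!
# Case 3: labels of the tune edges and the other edges
-/

set_option autoImplicit false
set_option linter.unusedSectionVars false

namespace Pool.Agent.AMC

open Finset Pool.Agent.AMF

theorem Stage1_sorted {W : Type} [DecidableEq W] (Tn : Finset W) (dp : W → ℕ) :
    ∃ L : List W, L.Nodup ∧ (∀ v, v ∈ L ↔ v ∈ Tn) ∧ L.length = Tn.card ∧
      L.Pairwise (fun u v => dp v ≤ dp u) := by
  classical
  let r : W → W → Prop := fun u v => dp v ≤ dp u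
  have h1 : Std.Total r := ⟨fun a b => le_total _ _⟩
  have h2 : IsTrans W r := ⟨fun a b c hab hbc => le_trans hbc hab⟩
  refine ⟨List.insertionSort r Tn.toList, ?_, ?_, ?_, List.pairwise_insertionSort r _⟩
  · exact (List.perm_insertionSort r _).nodup_iff.2 Tn.nodup_toList
  · intro v
    rw [(List.perm_insertionSort r _).mem_iff, Finset.mem_toList]
  · rw [(List.perm_insertionSort r _).length_eq, Finset.length_toList]

/-- First stage. The edges of `E04 \ E4` get the labels `a + 1, ..., a + r` (`r` = their number) in any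
order; then `tune` (with `E04` for `E`, `Y = ∅`, `A = {a + r + 1, ..., a + r + q + t}`, `t = |Tn|`, the list of the
pairs `(s(v, f v), v)`, `v ∈ Tn`, sorted by decreasing `dp`) labels the tune edges. -/
theorem stage1 {W : Type} [Fintype W] [DecidableEq W] {E : Finset (Sym2 W)} {Q Tn : Finset W} {h : ℕ}
    {hb sA sB : ℕ → W} {fi yi : W → ℕ} {f : W → W} {dp : W → ℕ}
    (hC : Cfg E Q Tn h hb sA sB fi yi f dp) (p : ℕ) [NeZero p] (c0 : W → ZMod p) (a q : ℕ)
    (hq : Tn.card ≤ q) (hp : q + Tn.card ≤ p) :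
    ∃ gt : Sym2 W → ℕ, Set.InjOn gt (E04 E Q h hb sA sB fi yi) ∧
      (∀ e ∈ E04 E Q h hb sA sB fi yi \ E4 Tn f,
        a < gt e ∧ gt e ≤ a + (E04 E Q h hb sA sB fi yi \ E4 Tn f).card) ∧
      (∀ e ∈ E4 Tn f, a + (E04 E Q h hb sA sB fi yi \ E4 Tn f).card < gt e ∧
        gt e ≤ a + (E04 E Q h hb sA sB fi yi \ E4 Tn f).card + (q + Tn.card)) ∧
      ∀ v ∈ Tn, ∀ w ∈ Tn,
        c0 v + ∑ e ∈ edgesAt (E04 E Q h hb sA sB fi yi) v, (gt e : ZMod p) =
          c0 w + ∑ e ∈ edgesAt (E04 E Q h hb sA sB fi yi) w, (gt e : ZMod p) → v = w := by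
  classical
  obtain ⟨hsub, hinj⟩ := tune_sub hC
  set F := E04 E Q h hb sA sB fi yi with hF
  set S := F \ E4 Tn f with hS
  set r := S.card with hr
  set t := Tn.card with ht
  obtain ⟨L, hLnd, hLmem, hLlen, hLs⟩ := Stage1_sorted Tn dp
  let l : List (Sym2 W × W) := L.map fun v => (s(v, f v), v)
  have hl1 : l.map Prod.fst = L.map fun v => s(v, f v) := by
    simp only [l, List.map_map]
    rfl
  have hlmem : ∀ e, e ∈ l.map Prod.fst ↔ e ∈ E4 Tn f := by
    intro e
    rw [hl1, List.mem_map]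
    unfold E4
    rw [Finset.mem_image]
    constructor
    · rintro ⟨v, hv, rfl⟩
      exact ⟨v, (hLmem v).1 hv, rfl⟩
    · rintro ⟨v, hv, rfl⟩
      exact ⟨v, (hLmem v).2 hv, rfl⟩
  have hl : ∀ u ∈ l, u.1 ∈ F ∧ u.2 ∈ u.1 := by
    intro u hu
    obtain ⟨v, hv, rfl⟩ := List.mem_map.1 hu
    refine ⟨hsub ?_, Sym2.mem_mk_left _ _⟩
    unfold E4
    exact Finset.mem_image_of_mem _ ((hLmem v).1 hv)
  have hpw : l.Pairwise fun u v => u.2 ∉ v.1 := by
    rw [List.pairwise_map]
    have h1 : L.Pairwise fun u v => (u ∈ Tn ∧ v ∈ Tn) ∧ (u ≠ v ∧ dp v ≤ dp u) := by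
      have h2 : L.Pairwise fun u v => u ≠ v ∧ dp v ≤ dp u := hLnd.and hLs
      have h3 : L.Pairwise fun u v => u ∈ Tn ∧ v ∈ Tn := by
        rw [List.pairwise_iff_forall_sublist]
        intro x y hxy
        exact ⟨(hLmem x).1 (hxy.subset (by simp)), (hLmem y).1 (hxy.subset (by simp))⟩
      exact h3.and h2
    refine h1.imp ?_
    rintro u v ⟨⟨hu, hv⟩, hne, hle⟩ hmem
    change u ∈ s(v, f v) at hmem
    rw [Sym2.mem_iff] at hmem
    rcases hmem with h2 | h2
    · exact hne h2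
    · have h3 := hC.Td v hv (h2 ▸ hu)
      rw [← h2] at h3
      omega
  have hnd : (l.map Prod.fst).Nodup := by
    rw [hl1]
    exact List.Nodup.map_on (fun x hx y hy hxy =>
      hinj x ((hLmem x).1 hx) y ((hLmem y).1 hy) hxy) hLnd
  let g0 : Sym2 W → ℕ := fun e => a + 1 + S.toList.idxOf e
  have hg0lt : ∀ e ∈ S, S.toList.idxOf e < r := by
    intro e he
    have h1 := List.idxOf_lt_length_of_mem (Finset.mem_toList.2 he)
    rwa [Finset.length_toList] at h1
  let A : Finset ℕ := Finset.Icc (a + r + 1) (a + r + (q + t))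
  have hA : ∀ x ∈ A, ∀ y ∈ A, (x : ZMod p) = y → x = y := by
    intro x hx y hy hxy
    rw [ZMod.natCast_eq_natCast_iff] at hxy
    rw [Finset.mem_Icc] at hx hy
    rcases le_total x y with h1 | h1
    · have h2 : p ∣ y - x := (Nat.modEq_iff_dvd' h1).1 hxy
      rcases Nat.eq_zero_or_pos (y - x) with h3 | h3
      · omega
      · have := Nat.le_of_dvd h3 h2
        omega
    · have h2 : p ∣ x - y := (Nat.modEq_iff_dvd' h1).1 hxy.symm
      rcases Nat.eq_zero_or_pos (x - y) with h3 | h3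
      · omega
      · have := Nat.le_of_dvd h3 h2
        omega
  have hlen : l.length = t := by
    rw [List.length_map, hLlen]
  obtain ⟨g, hg1, hg2, hg3, _, hg5⟩ := tune p c0 F l hl hpw hnd g0 A hA ∅ (by
    rw [hlen, Finset.card_empty, Nat.card_Icc]
    omega)
  have hgS : ∀ e ∈ S, g e = a + 1 + S.toList.idxOf e := by
    intro e he
    exact hg1 e fun h1 => (Finset.mem_sdiff.1 he).2 ((hlmem e).1 h1)
  have hgT : ∀ e ∈ E4 Tn f, a + r + 1 ≤ g e ∧ g e ≤ a + r + (q + t) := by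
    intro e he
    have h1 := hg2 e ((hlmem e).2 he)
    rwa [Finset.mem_Icc] at h1
  refine ⟨g, ?_, ?_, ?_, ?_⟩
  · intro e he e' he' hee
    rw [Finset.mem_coe] at he he'
    by_cases h1 : e ∈ E4 Tn f
    · by_cases h2 : e' ∈ E4 Tn f
      · exact hg3 e ((hlmem e).2 h1) e' ((hlmem e').2 h2) hee
      · have h3 : e' ∈ S := Finset.mem_sdiff.2 ⟨he', h2⟩
        have h4 := hgS e' h3
        have h5 := hg0lt e' h3
        have h6 := hgT e h1
        omega
    · have h3 : e ∈ S := Finset.mem_sdiff.2 ⟨he, h1⟩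
      have h4 := hgS e h3
      have h5 := hg0lt e h3
      by_cases h2 : e' ∈ E4 Tn f
      · have h6 := hgT e' h2
        omega
      · have h3' : e' ∈ S := Finset.mem_sdiff.2 ⟨he', h2⟩
        have h4' := hgS e' h3'
        have h7 : S.toList.idxOf e = S.toList.idxOf e' := by omega
        exact (List.idxOf_inj (Finset.mem_toList.2 h3)).1 h7
  · intro e he
    have h4 := hgS e he
    have h5 := hg0lt e he
    omega
  · intro e he
    have h6 := hgT e he
    omega
  · intro v hv w hw hvw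
    have h1 : (s(v, f v), v) ∈ l := List.mem_map.2 ⟨v, (hLmem v).2 hv, rfl⟩
    have h2 : (s(w, f w), w) ∈ l := List.mem_map.2 ⟨w, (hLmem w).2 hw, rfl⟩
    have h3 := hg5 _ h1 _ h2 hvw
    exact congrArg Prod.snd h3

end Pool.Agent.AMC
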